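import Pool.Agent.H33.LN.HDefs
import Pool.Agent.H2.LN.Top

/-!
Blocks E + H of LN: the events and the interface between E (helper64), H (helper33) and the final application of the local lemma.
`K = 2 N^3`, `P = PM G Δ`, `κ = Ty N`.
-/

set_option autoImplicit false

namespace Pool.Agent.H33.LN

open Finset Classical
open Pool.Agent.H65.GI
open Pool.Agent.H2.LN
open Pool.Agent.H64.LN

section
variable {V : Type} [Fintype V]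

/-- The events of block E at `v`. -/
def EE (G : SimpleGraph V) (N Δ : ℕ) (v : V) (χ : V → Ty N) : Prop :=
  (∀ t, |((univ.filter (fun u => G.Adj v u ∧ χ u = t)).card : ℝ) - (Δ : ℝ) / mT N| ≤ (Δ : ℝ) / mT N / N ^ 9) ∧
  ∀ t t', t ≠ t' → ∀ S S' : Finset V, S ⊆ bl G v (8 * N ^ 3) → S' ⊆ bl G v (8 * N ^ 3) →
    (∀ x ∈ S, χ x = t) → (∀ x ∈ S', χ x = t') → S.card ≤ Δ ^ 12 → S'.card ≤ Δ ^ 12 →
    (ee G S S' : ℝ) ≤ (1 - 1 / (100 * N)) * (Δ / mT N) * ((S.card + S'.card) / 2)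

/-- The events of block H at `v`. -/
def HE (G : SimpleGraph V) (N Δ : ℕ) (v : V) (χ : V → Ty N) : Prop :=
  ∀ t t', |fd (PM G Δ) (2 * N ^ 3) 6 t t' v χ| < (Δ : ℝ) ^ (-(33 : ℝ) / 10) ∧
    ∀ k < 6, |AF (PM G Δ) (2 * N ^ 3) k t t' v χ| < (Δ : ℝ) ^ (-(9 : ℝ) / 20) / 100

/-- Output of block E (helper64). -/
def OutE : Prop := ∀ N Δ : ℕ, Pm N Δ → ∀ (V : Type) [Fintype V] (G : SimpleGraph V), Reg G Δ → Gap G N Δ → ∀ v : V,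
  pr (fun χ : V → Ty N => ¬ EE G N Δ v χ) ≤ Real.exp (-(N : ℝ) ^ 5) ∧ Loc (EE G N Δ v) (bl G v (8 * N ^ 3 + 1))

/-- Output of block H: probabilities. -/
def OutH : Prop := ∀ N Δ : ℕ, Pm N Δ → ∀ (V : Type) [Fintype V] (G : SimpleGraph V), Reg G Δ → Gap G N Δ → ∀ v : V,
  pr (fun χ : V → Ty N => ¬ HE G N Δ v χ) ≤ Real.exp (-(N : ℝ) ^ 5) ∧ Loc (HE G N Δ v) (bl G v (14 * N ^ 3))

/-- Output of block H: the weights. -/
def OutW : Prop := ∀ N Δ : ℕ, Pm N Δ → ∀ (V : Type) [Fintype V] (G : SimpleGraph V), Reg G Δ → Gap G N Δ →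
  ∀ χ : V → Ty N, (∀ v, HE G N Δ v χ) → ∀ t t', t ≠ t' → ∃ y : V → V → ℝ, (∀ u v, y u v = y v u) ∧
    (∀ u v, G.Adj u v → χ u = t → χ v = t' → 1 / 2 ≤ y u v ∧ y u v ≤ 1 - (Δ : ℝ) ^ (-(2 : ℝ) / 5) / 2) ∧
    (∀ v, χ v = t → |(∑ u ∈ univ.filter (fun u => G.Adj v u ∧ χ u = t'), y v u) - d0 N Δ| ≤
      (Δ : ℝ) ^ (-(23 : ℝ) / 10)) ∧
    ∀ v, χ v = t' → |(∑ u ∈ univ.filter (fun u => G.Adj v u ∧ χ u = t), y v u) - d0 N Δ| ≤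
      (Δ : ℝ) ^ (-(23 : ℝ) / 10)

end

end Pool.Agent.H33.LN
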