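import Pool.Agent.H33.LN.Ev
import Pool.Agent.H65.GI.Lll
import Pool.Agent.H64.LN.Bnm

/-!
Row LNH_EH: the final application of the local lemma.
PROOFS. `lll_bl` (H65/GI/Lll) with `A = Unit`, `κ = Ty N`, `r = 14 N^3`, `E v ω := ¬ (EE G N Δ v χ ∧ HE G N Δ v χ)`, `χ u = ω (u, ())`, `q = 2 exp (-N^5)`. The probability over `V × Unit → κ` equals that over `V → κ`
(bijection; `pr_equiv` of H12/LN/Tools). `Loc`: `8 N^3 + 1 ≤ 14 N^3` (`bl_mono`). `8 exp (-N^5) (Δ+1)^(28 N^3) ≤ 1`: `log (Δ + 1) ≤ 2 log Δ ≤ N` (`nlogN`), so `(Δ+1)^(28N^3) ≤ exp (28 N^4)`.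
Then `EHo` from `EE`, `OutW`.
-/

set_option autoImplicit false
set_option linter.unusedSectionVars false

namespace Pool.Agent.H33.LN

open Finset Classical
open Pool.Agent.H65.GI
open Pool.Agent.H12.LN
open Pool.Agent.H64.LN
open Pool.Agent.H2.LN

/-- colourings with a dummy index -/
private def EH_e (V A κ : Type) (a : A) (ha : ∀ b : A, b = a) : (V × A → κ) ≃ (V → κ) where
  toFun ω := fun u => ω (u, a)
  invFun χ := fun p => χ p.1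
  left_inv ω := by
    funext p
    show ω (p.1, a) = ω p
    rw [← ha p.2]
  right_inv _ := rfl

private theorem EH_num {N Δ : ℕ} (hP : Pm N Δ) :
    4 * (2 * Real.exp (-(N : ℝ) ^ 5)) * ((Δ : ℝ) + 1) ^ (2 * (14 * N ^ 3)) ≤ 1 := by
  have hN := nN hP
  have hN0 := nN0 hP
  have hΔ1 := nΔ1 hP
  have hΔ0 := nΔ0 hP
  have hl := nlogN hP
  have hl0 := nlog hP
  have h1 : (Δ : ℝ) + 1 ≤ Real.exp N := by
    have h2 : (2 : ℝ) ≤ Δ := by
      have h3 : Real.log 2 ≤ Real.log Δ := by linarith [Real.log_two_lt_d9]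
      exact (Real.log_le_log_iff (by norm_num) hΔ0).mp h3
    calc (Δ : ℝ) + 1 ≤ Δ * Δ := by nlinarith
      _ = Real.exp (Real.log Δ) * Real.exp (Real.log Δ) := by rw [Real.exp_log hΔ0]
      _ = Real.exp (Real.log Δ + Real.log Δ) := (Real.exp_add _ _).symm
      _ ≤ Real.exp N := Real.exp_le_exp.mpr (by linarith)
  have h2 : ((Δ : ℝ) + 1) ^ (2 * (14 * N ^ 3)) ≤ Real.exp (28 * (N : ℝ) ^ 4) := by
    calc ((Δ : ℝ) + 1) ^ (2 * (14 * N ^ 3)) ≤ Real.exp N ^ (2 * (14 * N ^ 3)) :=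
          pow_le_pow_left₀ (by linarith) h1 _
      _ = Real.exp (28 * (N : ℝ) ^ 4) := by
          rw [← Real.exp_nat_mul]
          congr 1
          push_cast
          ring
  have h3 : (8 : ℝ) ≤ Real.exp 3 := by
    have h4 : (2 : ℝ) ≤ Real.exp 1 := by linarith [Real.add_one_le_exp (1 : ℝ)]
    calc (8 : ℝ) = 2 ^ 3 := by norm_num
      _ ≤ Real.exp 1 ^ 3 := pow_le_pow_left₀ (by norm_num) h4 3
      _ = Real.exp 3 := by
          rw [← Real.exp_nat_mul]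
          norm_num
  have h5 : 3 + -(N : ℝ) ^ 5 + 28 * (N : ℝ) ^ 4 ≤ 0 := by
    have h6 : (1 : ℝ) ≤ (N : ℝ) ^ 4 := one_le_pow₀ (nN1 hP)
    have h7 : 31 * (N : ℝ) ^ 4 ≤ N * (N : ℝ) ^ 4 :=
      mul_le_mul_of_nonneg_right (le_trans (by norm_num) hN) (by positivity)
    have h8 : (N : ℝ) ^ 5 = N * (N : ℝ) ^ 4 := by ring
    linarith
  calc 4 * (2 * Real.exp (-(N : ℝ) ^ 5)) * ((Δ : ℝ) + 1) ^ (2 * (14 * N ^ 3))
      ≤ 4 * (2 * Real.exp (-(N : ℝ) ^ 5)) * Real.exp (28 * (N : ℝ) ^ 4) :=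
        mul_le_mul_of_nonneg_left h2 (by positivity)
    _ = 8 * Real.exp (-(N : ℝ) ^ 5) * Real.exp (28 * (N : ℝ) ^ 4) := by ring
    _ ≤ Real.exp 3 * Real.exp (-(N : ℝ) ^ 5) * Real.exp (28 * (N : ℝ) ^ 4) := by
        refine mul_le_mul_of_nonneg_right (mul_le_mul_of_nonneg_right h3 ?_) ?_
        · exact (Real.exp_pos _).le
        · exact (Real.exp_pos _).le
    _ = Real.exp (3 + -(N : ℝ) ^ 5 + 28 * (N : ℝ) ^ 4) := by rw [Real.exp_add, Real.exp_add]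
    _ ≤ 1 := Real.exp_le_one_iff.mpr h5

private theorem EH_lll0 {V A κ : Type} [Fintype V] [Fintype A] [Fintype κ] [Nonempty κ] (a : A) (ha : ∀ b : A, b = a)
    (G : SimpleGraph V) (Δ : ℕ) (hG : Reg G Δ)
    (r : ℕ) (E : V → (V → κ) → Prop) (hloc : ∀ v, Loc (E v) (bl G v r)) (q : ℝ) (hq0 : 0 ≤ q)
    (hq : ∀ v, pr (E v) ≤ q) (h4 : 4 * q * ((Δ : ℝ) + 1) ^ (2 * r) ≤ 1) : ∃ χ : V → κ, ∀ v, ¬ E v χ := by
  obtain ⟨ω, hω⟩ := lll_bl G Δ hG r (fun v (ω : V × A → κ) => E v (fun u => ω (u, a)))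
    (by
      intro v ω ω' h
      exact hloc v _ _ fun i hi => h (i, a) (mem_product.2 ⟨hi, mem_univ _⟩))
    q hq0
    (by
      intro v
      refine le_trans (le_of_eq ?_) (hq v)
      exact pr_equiv (EH_e V A κ a ha) (E v)) h4
  exact ⟨fun u => ω (u, a), hω⟩

private theorem EH_lll {V κ : Type} [Fintype V] [Fintype κ] [Nonempty κ] (G : SimpleGraph V) (Δ : ℕ) (hG : Reg G Δ)
    (r : ℕ) (E : V → (V → κ) → Prop) (hloc : ∀ v, Loc (E v) (bl G v r)) (q : ℝ) (hq0 : 0 ≤ q)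
    (hq : ∀ v, pr (E v) ≤ q) (h4 : 4 * q * ((Δ : ℝ) + 1) ^ (2 * r) ≤ 1) : ∃ χ : V → κ, ∀ v, ¬ E v χ :=
  EH_lll0 (A := Unit) () (fun _ => rfl) G Δ hG r E hloc q hq0 hq h4

theorem ehp (hE : OutE) (hH : OutH) (hW : OutW) : Pool.Agent.H2.LN.Top.EHP := by
  intro N Δ hP V _ G hG hgap
  have hE' := hE N Δ hP V G hG hgap
  have hH' := hH N Δ hP V G hG hgap
  have hN1 : 1 ≤ N := le_trans (by norm_num) hP.big
  have hr : 8 * N ^ 3 + 1 ≤ 14 * N ^ 3 := by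
    have h1 : 1 ≤ N ^ 3 := Nat.one_le_pow _ _ hN1
    omega
  have hloc : ∀ v, Loc (fun χ : V → Ty N => ¬ (EE G N Δ v χ ∧ HE G N Δ v χ)) (bl G v (14 * N ^ 3)) := by
    intro v χ χ' h
    have h2 : EE G N Δ v χ = EE G N Δ v χ' := (hE' v).2 _ _ fun i hi => h i (bl_mono G v hr hi)
    have h3 : HE G N Δ v χ = HE G N Δ v χ' := (hH' v).2 _ _ h
    show (¬ (EE G N Δ v χ ∧ HE G N Δ v χ)) = (¬ (EE G N Δ v χ' ∧ HE G N Δ v χ'))
    rw [h2, h3]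
  have hpr : ∀ v, pr (fun χ : V → Ty N => ¬ (EE G N Δ v χ ∧ HE G N Δ v χ)) ≤ 2 * Real.exp (-(N : ℝ) ^ 5) := by
    intro v
    have h2 : pr (fun χ : V → Ty N => ¬ (EE G N Δ v χ ∧ HE G N Δ v χ)) ≤
        pr (fun χ : V → Ty N => ¬ EE G N Δ v χ ∨ ¬ HE G N Δ v χ) :=
      pr_mono fun χ h => not_and_or.mp h
    have h3 := pr_or (fun χ : V → Ty N => ¬ EE G N Δ v χ) (fun χ : V → Ty N => ¬ HE G N Δ v χ)
    have h4 := (hE' v).1
    have h5 := (hH' v).1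
    linarith
  obtain ⟨χ, hχ⟩ := EH_lll G Δ hG (14 * N ^ 3) _ hloc (2 * Real.exp (-(N : ℝ) ^ 5))
    (mul_nonneg zero_le_two (Real.exp_pos _).le) hpr (EH_num hP)
  have hall : ∀ v, EE G N Δ v χ ∧ HE G N Δ v χ := fun v => not_not.mp (hχ v)
  refine ⟨χ, ?_, ?_, ?_⟩
  · exact fun v => (hall v).1.1
  · exact fun v => (hall v).1.2
  · exact hW N Δ hP V G hG hgap _ fun v => (hall v).2

end Pool.Agent.H33.LN
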