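import Pool.Agent.H33.LN.Fb
import Pool.Agent.H65.GI.Lll

/-!
Row LNH_Fl: locality of the fields for `P = PM G Δ`.
PROOFS. `pm_bl`: `(PM G Δ ^ i) v u ≠ 0 → u ∈ bl G v i` (induction on `i`, `pow_succ`, `bl_adj`/`bl_bl` of H65/GI/Lll). `Loc` is closed under larger sets, sums, products, constants, `rs`. With `r k = 1 + k K` by induction on `k` for all `t, t'`:
`fd k v` lives on `bl v (r k)`, `AF k v = ∑_(i<K) ± P^i ..` on `bl v (r k + (K - 1)) = bl v ((k+1) K)`; `FF v`: `P^K x`: `r k + K`; `A v * (P om) v`: `max ((k+1) K) 1`; `P (om B)`: `1 + (k+1) K`; last term: `1`.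
-/

set_option autoImplicit false
set_option linter.unusedSectionVars false

namespace Pool.Agent.H33.LN

open Finset Classical
open Pool.Agent.H65.GI
open Pool.Agent.H12.LN
open Pool.Agent.H64.LN

section
variable {V κ : Type} [Fintype V] [Fintype κ] [Nonempty κ]

private theorem Fl_mono {f : (V → κ) → ℝ} {S T : Finset V} (h : Loc f S) (hS : S ⊆ T) : Loc f T :=
  fun ω ω' hω => h ω ω' fun i hi => hω i (hS hi)

private theorem Fl_sum {ι : Type} (J : Finset ι) (f : ι → (V → κ) → ℝ) {S : Finset V} (h : ∀ j ∈ J, Loc (f j) S) :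
    Loc (fun χ => ∑ j ∈ J, f j χ) S :=
  fun ω ω' hω => Finset.sum_congr rfl fun j hj => h j hj ω ω' hω

private theorem Fl_mul {f g : (V → κ) → ℝ} {S : Finset V} (hf : Loc f S) (hg : Loc g S) :
    Loc (fun χ => f χ * g χ) S := by
  intro ω ω' hω
  show f ω * g ω = f ω' * g ω'
  rw [hf ω ω' hω, hg ω ω' hω]

private theorem Fl_const (c : ℝ) (S : Finset V) : Loc (fun _ : V → κ => c) S := fun _ _ _ => rfl

theorem pm_bl (G : SimpleGraph V) (Δ : ℕ) (i : ℕ) (v u : V) (h : (PM G Δ ^ i) v u ≠ 0) : u ∈ bl G v i := by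
  induction i generalizing u with
  | zero =>
    rw [pow_zero, Matrix.one_apply] at h
    have h1 : v = u := by
      by_contra hc
      rw [if_neg hc] at h
      exact h rfl
    exact Finset.mem_singleton.2 h1.symm
  | succ i ih =>
    rw [pow_succ, Matrix.mul_apply] at h
    obtain ⟨x, _, hx⟩ := Finset.exists_ne_zero_of_sum_ne_zero h
    have h1 : (PM G Δ ^ i) v x ≠ 0 := left_ne_zero_of_mul hx
    have h2 : PM G Δ x u ≠ 0 := right_ne_zero_of_mul hx
    have h3 : G.Adj x u := by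
      by_contra hc
      unfold PM at h2
      rw [if_neg hc] at h2
      exact h2 rfl
    exact bl_adj G (ih x h1) h3

private theorem Fl_ap (G : SimpleGraph V) (Δ : ℕ) (i r : ℕ) (x : V → (V → κ) → ℝ) (hx : ∀ v, Loc (x v) (bl G v r)) (v : V) :
    Loc (ap (PM G Δ) i x v) (bl G v (i + r)) := by
  unfold ap
  refine Fl_sum _ _ fun u _ => ?_
  by_cases h : (PM G Δ ^ i) v u = 0
  · intro ω ω' _
    show (PM G Δ ^ i) v u * x u ω = (PM G Δ ^ i) v u * x u ω'
    rw [h, zero_mul, zero_mul]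
  · exact Fl_mul (Fl_const _ _) (Fl_mono (hx u) (bl_bl G (pm_bl G Δ i v u h)))

private theorem Fl_AA (G : SimpleGraph V) (Δ K r : ℕ) (x y : V → (V → κ) → ℝ) (hx : ∀ v, Loc (x v) (bl G v r))
    (hy : ∀ v, Loc (y v) (bl G v r)) (v : V) : Loc (AA (PM G Δ) K x y v) (bl G v (K - 1 + r)) := by
  unfold AA
  refine Fl_sum _ _ fun i hi => ?_
  have hi' := Finset.mem_range.1 hi
  have h1 : bl G v (i + r) ⊆ bl G v (K - 1 + r) := bl_mono G v (by omega)
  by_cases h : Even i
  · intro ω ω' hω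
    show (if Even i then ap (PM G Δ) i x v ω else - ap (PM G Δ) i y v ω) =
      (if Even i then ap (PM G Δ) i x v ω' else - ap (PM G Δ) i y v ω')
    rw [if_pos h, if_pos h]
    exact Fl_mono (Fl_ap G Δ i r x hx v) h1 ω ω' hω
  · intro ω ω' hω
    show (if Even i then ap (PM G Δ) i x v ω else - ap (PM G Δ) i y v ω) =
      (if Even i then ap (PM G Δ) i x v ω' else - ap (PM G Δ) i y v ω')
    rw [if_neg h, if_neg h, Fl_mono (Fl_ap G Δ i r y hy v) h1 ω ω' hω]

private theorem Fl_om (G : SimpleGraph V) (t : κ) (v : V) (r : ℕ) : Loc (om t v) (bl G v r) :=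
  Fl_mono (om_loc t v) (Finset.singleton_subset_iff.2 (bl_self G v r))

private theorem Fl_FF (G : SimpleGraph V) (Δ K r : ℕ) (hK : 1 ≤ K) (x y : V → (V → κ) → ℝ) (hx : ∀ v, Loc (x v) (bl G v r))
    (hy : ∀ v, Loc (y v) (bl G v r)) (t t' : κ) (v : V) : Loc (FF (PM G Δ) K x y t t' v) (bl G v (K + r)) := by
  have h1 : Loc (ap (PM G Δ) K x v) (bl G v (K + r)) := Fl_ap G Δ K r x hx v
  have h2 : Loc (AA (PM G Δ) K x y v) (bl G v (K + r)) := Fl_mono (Fl_AA G Δ K r x y hx hy v) (bl_mono G v (by omega))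
  have h3 : Loc (ap (PM G Δ) 1 (om t') v) (bl G v (K + r)) :=
    Fl_mono (Fl_ap G Δ 1 0 (om t') (fun w => Fl_om G t' w 0) v) (bl_mono G v (by omega))
  have h4 : Loc (ap (PM G Δ) 1 (fun w χ => om t' w χ * AA (PM G Δ) K y x w χ) v) (bl G v (K + r)) :=
    Fl_mono (Fl_ap G Δ 1 (K - 1 + r) _ (fun w => Fl_mul (Fl_om G t' w _) (Fl_AA G Δ K r y x hy hx w)) v)
      (bl_mono G v (by omega))
  have h5 : Loc (fun χ => ∑ w, PM G Δ v w * muu (PM G Δ) K x y t t' v w * (1 + om t' w χ)) (bl G v (K + r)) := by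
    refine Fl_sum _ _ fun w _ => ?_
    by_cases h : PM G Δ v w = 0
    · intro ω ω' _
      show PM G Δ v w * muu (PM G Δ) K x y t t' v w * (1 + om t' w ω) =
        PM G Δ v w * muu (PM G Δ) K x y t t' v w * (1 + om t' w ω')
      rw [h, zero_mul, zero_mul, zero_mul]
    · have hw : w ∈ bl G v 1 := by
        refine pm_bl G Δ 1 v w ?_
        rw [pow_one]
        exact h
      have h6 : Loc (om t' w) (bl G v (K + r)) :=
        Fl_mono (om_loc t' w) (Finset.singleton_subset_iff.2 (bl_mono G v (by omega) hw))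
      intro ω ω' hω
      show PM G Δ v w * muu (PM G Δ) K x y t t' v w * (1 + om t' w ω) =
        PM G Δ v w * muu (PM G Δ) K x y t t' v w * (1 + om t' w ω')
      rw [h6 ω ω' hω]
  intro ω ω' hω
  unfold FF
  have e1 := h1 ω ω' hω
  have e2 := h2 ω ω' hω
  have e3 := h3 ω ω' hω
  have e4 := h4 ω ω' hω
  have e5 := h5 ω ω' hω
  rw [e1, e2, e3, e4]
  exact congrArg _ e5

private theorem Fl_rs (a : V) (t : κ) (F : (V → κ) → ℝ) (S : Finset V) (h : Loc F S) : Loc (rs a t F) S := by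
  intro ω ω' hω
  unfold rs
  apply h
  intro i hi
  by_cases e : i = a
  · subst e
    simp
  · rw [Function.update_of_ne e, Function.update_of_ne e]
    exact hω i hi

theorem fd_loc (G : SimpleGraph V) (Δ K : ℕ) (hK : 1 ≤ K) (k : ℕ) (t t' : κ) (v : V) :
    Loc (fd (PM G Δ) K k t t' v) (bl G v (1 + k * K)) := by
  induction k generalizing t t' v with
  | zero =>
    have h := Fl_ap G Δ 1 0 (om t') (fun w => Fl_om G t' w 0) v
    intro ω ω' hω
    show - ap (PM G Δ) 1 (om t') v ω = - ap (PM G Δ) 1 (om t') v ω'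
    rw [h ω ω' (fun i hi => hω i (bl_mono G v (by omega) hi))]
  | succ k ih =>
    have h := Fl_FF G Δ K (1 + k * K) hK (fd (PM G Δ) K k t t') (fd (PM G Δ) K k t' t) (fun w => ih t t' w)
      (fun w => ih t' t w) t t' v
    have h1 : Loc (nx (PM G Δ) K (fd (PM G Δ) K k t t') (fd (PM G Δ) K k t' t) t t' v) (bl G v (K + (1 + k * K))) :=
      Fl_rs v t _ _ h
    refine Fl_mono h1 (bl_mono G v (le_of_eq ?_))
    ring

theorem AF_loc (G : SimpleGraph V) (Δ K : ℕ) (hK : 1 ≤ K) (k : ℕ) (t t' : κ) (v : V) :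
    Loc (AF (PM G Δ) K k t t' v) (bl G v ((k + 1) * K)) := by
  have h := Fl_AA G Δ K (1 + k * K) (fd (PM G Δ) K k t t') (fd (PM G Δ) K k t' t)
    (fun w => fd_loc G Δ K hK k t t' w) (fun w => fd_loc G Δ K hK k t' t w) v
  refine Fl_mono h (bl_mono G v (le_of_eq ?_))
  have e : (k + 1) * K = k * K + K := by ring
  rw [e]
  omega

end

end Pool.Agent.H33.LN
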