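import Pool.Agent.H33.LN.HDefs
import Pool.Agent.H64.LN.Bnm

/-!
Row LNH_Ppo: the matrix `PM G Δ` satisfies the conditions; numerics.
PROOFS. `ppo`: `PMk_nn`, `PMk_row`, `PMk_symm`, `PM` has zero diagonal (`G` is loopless), `ent`: `(PM ^ k) x y ≤ 1 / Δ` for `k ≥ 1` (proved inside `kk6'`), `far`: `kk6`, `far2`: `kk7` (`2 N^3 ≥ N^3`), `(1/√Δ)^2 = 1/Δ`,
`√x ^ 2 = x`. `card_Ty`: `Fintype.card`, `ZMod.card`. `gam_le`: `(20 m)^6 (2N^3)^2 ≤ (80 N^54)^6 4 N^6 = 4 * 80^6 N^330 ≤ N^331` since `4 * 80^6 ≤ 2^40 ≤ N`. `e_le`: squares: `N^3/(2 Δ^12) ≤ 1/Δ^7`.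
`gd_le`: `4 Gam^2 ≤ 4 N^662 ≤ Δ`.
-/

set_option autoImplicit false
set_option linter.unusedSectionVars false

namespace Pool.Agent.H33.LN

open Finset Classical
open Pool.Agent.H65.GI
open Pool.Agent.H12.LN
open Pool.Agent.H64.LN
open Pool.Agent.H2.LN

section
variable {V : Type} [Fintype V]

theorem card_Ty (N : ℕ) : Fintype.card (Ty N) = mT N := by
  unfold mT
  rw [Fintype.card_prod, Fintype.card_fun, Fintype.card_fin, ZMod.card, ZMod.card]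

theorem ppo {N Δ : ℕ} (hP : Pm N Δ) (G : SimpleGraph V) (hG : Reg G Δ) (hgap : Gap G N Δ) :
    PP (PM G Δ) (2 * N ^ 3) (1 / Real.sqrt Δ) (Real.sqrt ((N : ℝ) ^ 3 / (2 * (Δ : ℝ) ^ 12))) := by
  have hΔ0 : (0 : ℝ) < Δ := nΔ0 hP
  have hΔ : 0 < Δ := by exact_mod_cast hΔ0
  have hN0 : 0 < N := lt_of_lt_of_le (by norm_num) hP.big
  have hN3 : 1 ≤ N ^ 3 := Nat.one_le_pow _ _ hN0
  have he0 : 0 ≤ (N : ℝ) ^ 3 / (2 * (Δ : ℝ) ^ 12) := by positivity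
  have hs1 : (1 : ℝ) ≤ Real.sqrt Δ := Real.one_le_sqrt.2 (nΔ1 hP)
  have hs0 : 0 < Real.sqrt Δ := Real.sqrt_pos.2 hΔ0
  refine ⟨by omega, even_two_mul _, by positivity, ?_, Real.sqrt_nonneg _, PMk_nn G Δ, PMk_row G Δ hΔ hG,
    PMk_symm G Δ, ?_, ?_, ?_, ?_⟩
  · rw [div_le_one hs0]
    exact hs1
  · intro x
    unfold PM
    exact if_neg (G.loopless.irrefl x)
  · intro k hk x y
    obtain ⟨j, rfl⟩ : ∃ j, k = j + 1 := ⟨k - 1, by omega⟩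
    have h1 : (1 / Real.sqrt Δ) ^ 2 = 1 / (Δ : ℝ) := by
      rw [div_pow, one_pow, Real.sq_sqrt hΔ0.le]
    rw [h1, pow_succ, Matrix.mul_apply]
    calc ∑ z, (PM G Δ ^ j) x z * PM G Δ z y ≤ ∑ z, (PM G Δ ^ j) x z * (1 / Δ) := by
          refine Finset.sum_le_sum (fun z _ => mul_le_mul_of_nonneg_left ?_ (PMk_nn G Δ j x z))
          simp only [PM]
          split_ifs
          · exact le_rfl
          · positivity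
      _ = 1 / Δ := by rw [← Finset.sum_mul, PMk_row G Δ hΔ hG, one_mul]
  · intro x
    rw [Real.sq_sqrt he0]
    exact kk6 hP G hG hgap _ (by omega) x
  · intro g hg
    rw [Real.sq_sqrt he0]
    exact kk7 hP G hG hgap _ (by omega) g hg

theorem e_le {N Δ : ℕ} (hP : Pm N Δ) : Real.sqrt ((N : ℝ) ^ 3 / (2 * (Δ : ℝ) ^ 12)) ≤ (1 / Real.sqrt Δ) ^ 7 := by
  have hΔ0 : (0 : ℝ) < Δ := nΔ0 hP
  have hN1 := nN1 hP
  have hs0 : 0 < Real.sqrt Δ := Real.sqrt_pos.2 hΔ0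
  refine Real.sqrt_le_iff.2 ⟨by positivity, ?_⟩
  have h1 : ((1 / Real.sqrt Δ) ^ 7) ^ 2 = 1 / (Δ : ℝ) ^ 7 := by
    rw [← pow_mul, mul_comm 7 2, pow_mul, div_pow, one_pow, Real.sq_sqrt hΔ0.le, div_pow, one_pow]
  rw [h1, div_le_div_iff₀ (by positivity) (by positivity)]
  have h2 : (N : ℝ) ^ 3 ≤ Δ := (pow_le_pow_right₀ hN1 (by norm_num : 3 ≤ 40000)).trans (nΔN hP)
  have h3 : (N : ℝ) ^ 3 * (Δ : ℝ) ^ 7 ≤ Δ * (Δ : ℝ) ^ 7 := mul_le_mul_of_nonneg_right h2 (by positivity)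
  have h4 : (Δ : ℝ) ^ 8 ≤ (Δ : ℝ) ^ 12 := pow_le_pow_right₀ (nΔ1 hP) (by norm_num)
  have h5 : (Δ : ℝ) * (Δ : ℝ) ^ 7 = (Δ : ℝ) ^ 8 := by ring
  have h6 : 0 < (Δ : ℝ) ^ 12 := by positivity
  linarith

theorem gam_le {N Δ : ℕ} (hP : Pm N Δ) : Gam (Ty N) (2 * N ^ 3) ≤ (N : ℝ) ^ 331 := by
  unfold Gam
  rw [card_Ty]
  obtain ⟨h1, h2⟩ := nmT hP
  have hN0 := nN0 hP
  have hN := nN hP
  have h3 : (20 * (mT N : ℝ)) ^ 6 ≤ (80 * (N : ℝ) ^ 54) ^ 6 := by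
    refine pow_le_pow_left₀ (by positivity) ?_ 6
    linarith
  have h4 : ((2 * N ^ 3 : ℕ) : ℝ) ^ 2 = 4 * (N : ℝ) ^ 6 := by
    push_cast
    ring
  rw [h4]
  have h5 : (4 : ℝ) * 80 ^ 6 ≤ N := le_trans (by norm_num) hN
  calc (20 * (mT N : ℝ)) ^ 6 * (4 * (N : ℝ) ^ 6) ≤ (80 * (N : ℝ) ^ 54) ^ 6 * (4 * (N : ℝ) ^ 6) :=
        mul_le_mul_of_nonneg_right h3 (by positivity)
    _ = (4 * 80 ^ 6) * (N : ℝ) ^ 330 := by ring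
    _ ≤ N * (N : ℝ) ^ 330 := mul_le_mul_of_nonneg_right h5 (by positivity)
    _ = (N : ℝ) ^ 331 := by ring

theorem gd_le {N Δ : ℕ} (hP : Pm N Δ) : 2 * Gam (Ty N) (2 * N ^ 3) * (1 / Real.sqrt Δ) ≤ 1 := by
  have hΔ0 : (0 : ℝ) < Δ := nΔ0 hP
  have hN0 := nN0 hP
  have hN1 := nN1 hP
  have hs0 : 0 < Real.sqrt Δ := Real.sqrt_pos.2 hΔ0
  have h1 := gam_le hP
  have h2 : 2 * (N : ℝ) ^ 331 ≤ Real.sqrt Δ := by
    refine Real.le_sqrt_of_sq_le ?_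
    have h3 : (4 : ℝ) ≤ N := le_trans (by norm_num) (nN hP)
    calc (2 * (N : ℝ) ^ 331) ^ 2 = 4 * (N : ℝ) ^ 662 := by ring
      _ ≤ N * (N : ℝ) ^ 662 := mul_le_mul_of_nonneg_right h3 (by positivity)
      _ = (N : ℝ) ^ 663 := by ring
      _ ≤ (N : ℝ) ^ 40000 := pow_le_pow_right₀ hN1 (by norm_num)
      _ ≤ Δ := nΔN hP
  rw [mul_one_div, div_le_one hs0]
  linarith

end

end Pool.Agent.H33.LN
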