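import Pool.Agent.H33.LN.Nu
import Pool.Agent.H33.LN.Fl
import Pool.Agent.H33.LN.Ppo
import Pool.Agent.H33.LN.Ev

/-!
Row LNH_H6: the events of block H have small probability.   `m = card (Ty N) = mT N ≤ 4 N^54`, `K = 2 N^3`, `δ = 1/√Δ`, `g = Gam ≤ N^331`, `r = N^5`.
PROOFS. `Loc`: `fd_loc` (`1 + 6 K ≤ 14 N^3`), `AF_loc` (`6 K`), monotonicity of balls. `ppo`, `e_le`, `gd_le` give `fd_bf`, `AF_af`.
`h2_tail` for `fd 6 t t' v` (degree 7, `nm ≤ (2 g δ)^7`), `lam = Δ^(-33/10)`: base `(5 N^10 m)^7 (2gδ)^14 / lam^2 = (5 N^10 m)^7 (2g)^14 Δ^(-7 + 66/10) ≤ 20^7 N^448 2^14 N^4634 Δ^(-2/5) ≤ N^5084 N^(-16000) ≤ N^(-1000)`.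
`h2_tail` for `AF k` (degree `≤ 6`, `nm ≤ K 2 g δ`), `lam = Δ^(-9/20)/100`: base `≤ (5 N^10 m)^6 (K 2 g)^2 10^4 Δ^(-1 + 9/10) ≤ N^1100 N^(-4000) ≤ N^(-1000)`.
Union bound (`pr_ex` / `pr_or`) over `t, t'` (`m^2` pairs) and 7 events: `7 m^2 (N^(-1000))^(N^5) ≤ exp (-N^5)`.
-/

set_option autoImplicit false
set_option linter.unusedSectionVars false

namespace Pool.Agent.H33.LN

open Finset Classical
open Pool.Agent.H65.GI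
open Pool.Agent.H12.LN
open Pool.Agent.H64.LN
open Pool.Agent.H2.LN

private theorem H6_m {N m : ℝ} (hN1 : 1 ≤ N) (hm : m ≤ 4 * N ^ 54) : 5 * (N ^ 5) ^ 2 * m ≤ 20 * N ^ 64 := by
  have hN0 : 0 < N := lt_of_lt_of_le one_pos hN1
  calc 5 * (N ^ 5) ^ 2 * m ≤ 5 * (N ^ 5) ^ 2 * (4 * N ^ 54) := mul_le_mul_of_nonneg_left hm (by positivity)
    _ = 20 * N ^ 64 := by ring

private theorem H6_b {N : ℝ} (hN : (2 : ℝ) ^ 40 ≤ N) {m g t : ℝ} (hm0 : 0 ≤ m) (hm : m ≤ 4 * N ^ 54) (hg0 : 0 ≤ g)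
    (hg : g ≤ N ^ 331) (ht : N ^ 4000 ≤ t) :
    (5 * (N ^ 5) ^ 2 * m) ^ 7 * (2 * g) ^ 14 * N ^ 1000 ≤ t ^ 4 := by
  have hN1 : 1 ≤ N := le_trans (by norm_num) hN
  have hN0 : 0 < N := lt_of_lt_of_le one_pos hN1
  have h2 : (5 * (N ^ 5) ^ 2 * m) ^ 7 ≤ (20 * N ^ 64) ^ 7 := pow_le_pow_left₀ (by positivity) (H6_m hN1 hm) 7
  have h3 : (2 * g) ^ 14 ≤ (2 * N ^ 331) ^ 14 := pow_le_pow_left₀ (by positivity) (by linarith) 14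
  have h4 : (5 * (N ^ 5) ^ 2 * m) ^ 7 * (2 * g) ^ 14 ≤ (20 * N ^ 64) ^ 7 * (2 * N ^ 331) ^ 14 :=
    mul_le_mul h2 h3 (by positivity) (by positivity)
  have h5 : ((20 : ℝ) ^ 7 * 2 ^ 14) ≤ N ^ 2 :=
    le_trans (by norm_num) (pow_le_pow_left₀ (by norm_num) hN 2)
  calc (5 * (N ^ 5) ^ 2 * m) ^ 7 * (2 * g) ^ 14 * N ^ 1000 ≤ (20 * N ^ 64) ^ 7 * (2 * N ^ 331) ^ 14 * N ^ 1000 :=
        mul_le_mul_of_nonneg_right h4 (by positivity)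
    _ = (20 ^ 7 * 2 ^ 14) * N ^ 6082 := by ring
    _ ≤ N ^ 2 * N ^ 6082 := mul_le_mul_of_nonneg_right h5 (by positivity)
    _ = N ^ 6084 := by rw [← pow_add]
    _ ≤ N ^ (4000 * 4) := pow_le_pow_right₀ hN1 (by norm_num)
    _ = (N ^ 4000) ^ 4 := by rw [← pow_mul]
    _ ≤ t ^ 4 := pow_le_pow_left₀ (by positivity) ht 4

private theorem H6_a {N : ℝ} (hN : (2 : ℝ) ^ 40 ≤ N) {m g t : ℝ} (hm0 : 0 ≤ m) (hm : m ≤ 4 * N ^ 54) (hg0 : 0 ≤ g)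
    (hg : g ≤ N ^ 331) (ht : N ^ 4000 ≤ t) (k : ℕ) (hk : k < 6) :
    (5 * (N ^ 5) ^ 2 * m) ^ (k + 1) * (2 * N ^ 3 * (2 * g)) ^ 2 * 10 ^ 4 * N ^ 1000 ≤ t := by
  have hN1 : 1 ≤ N := le_trans (by norm_num) hN
  have hN0 : 0 < N := lt_of_lt_of_le one_pos hN1
  have h1 : (1 : ℝ) ≤ 20 * N ^ 64 := by
    have := one_le_pow₀ (n := 64) hN1
    linarith
  have h2 : (5 * (N ^ 5) ^ 2 * m) ^ (k + 1) ≤ (20 * N ^ 64) ^ 6 :=
    le_trans (pow_le_pow_left₀ (by positivity) (H6_m hN1 hm) (k + 1)) (pow_le_pow_right₀ h1 (by omega))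
  have h3 : (2 * N ^ 3 * (2 * g)) ^ 2 ≤ (2 * N ^ 3 * (2 * N ^ 331)) ^ 2 := by
    refine pow_le_pow_left₀ (by positivity) (mul_le_mul_of_nonneg_left (by linarith) (by positivity)) 2
  have h4 : (5 * (N ^ 5) ^ 2 * m) ^ (k + 1) * (2 * N ^ 3 * (2 * g)) ^ 2 ≤
      (20 * N ^ 64) ^ 6 * (2 * N ^ 3 * (2 * N ^ 331)) ^ 2 :=
    mul_le_mul h2 h3 (by positivity) (by positivity)
  have h5 : ((20 : ℝ) ^ 6 * 16 * 10 ^ 4) ≤ N ^ 2 :=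
    le_trans (by norm_num) (pow_le_pow_left₀ (by norm_num) hN 2)
  calc (5 * (N ^ 5) ^ 2 * m) ^ (k + 1) * (2 * N ^ 3 * (2 * g)) ^ 2 * 10 ^ 4 * N ^ 1000
      ≤ (20 * N ^ 64) ^ 6 * (2 * N ^ 3 * (2 * N ^ 331)) ^ 2 * 10 ^ 4 * N ^ 1000 :=
        mul_le_mul_of_nonneg_right (mul_le_mul_of_nonneg_right h4 (by norm_num)) (by positivity)
    _ = (20 ^ 6 * 16 * 10 ^ 4) * N ^ 2052 := by ring
    _ ≤ N ^ 2 * N ^ 2052 := mul_le_mul_of_nonneg_right h5 (by positivity)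
    _ = N ^ 2054 := by rw [← pow_add]
    _ ≤ N ^ 4000 := pow_le_pow_right₀ hN1 (by norm_num)
    _ ≤ t := ht

private theorem H6_g0 (N : ℕ) : 0 ≤ Gam (Ty N) (2 * N ^ 3) := by
  unfold Gam
  positivity

private theorem H6_base {A n B L q : ℝ} (hA : 0 ≤ A) (hn : n ≤ B) (hL : 0 < L) (h : A * B ≤ q * L) :
    A * n / L ≤ q := by
  rw [div_le_iff₀ hL]
  exact le_trans (mul_le_mul_of_nonneg_left hn hA) h

theorem tail_fd {N Δ : ℕ} (hP : Pm N Δ) {V : Type} [Fintype V] (G : SimpleGraph V) (hG : Reg G Δ) (hgap : Gap G N Δ) (v : V)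
    (t t' : Ty N) : pr (fun χ : V → Ty N => (Δ : ℝ) ^ (-(33 : ℝ) / 10) ≤ |fd (PM G Δ) (2 * N ^ 3) 6 t t' v χ|) ≤
      (1 / (N : ℝ) ^ 1000) ^ (N ^ 5) := by
  obtain ⟨x, hx0, hx10, hxN, _, _, _⟩ := ntex hP
  have hN := nN hP
  have hN1 := nN1 hP
  have hN0 := nN0 hP
  have hΔ0 := nΔ0 hP
  have hlam : (Δ : ℝ) ^ (-(33 : ℝ) / 10) = 1 / x ^ 33 := by
    rw [← hx10, ← Real.rpow_natCast x 10, ← Real.rpow_mul hx0.le, one_div, ← Real.rpow_natCast x 33,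
      ← Real.rpow_neg hx0.le]
    congr 1
    norm_num
  have hb := fd_bf (ppo hP G hG hgap) (e_le hP) (gd_le hP) 6 le_rfl t t'
  have hn := hb.n1 v
  have hr1 : 1 ≤ N ^ 5 := Nat.one_le_pow _ _ (lt_of_lt_of_le (by norm_num) hP.big)
  rw [hlam]
  have h1 := h2_tail (hb.dg v) (N ^ 5) hr1 (1 / x ^ 33) (by positivity)
  refine le_trans h1 (pow_le_pow_left₀ (by positivity) ?_ _)
  have hg0 := H6_g0 N
  have hsq : (1 / Real.sqrt Δ) ^ 2 = 1 / x ^ 10 := by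
    rw [div_pow, one_pow, Real.sq_sqrt hΔ0.le, hx10]
  have hn2 : nm (fd (PM G Δ) (2 * N ^ 3) 6 t t' v) ^ 2 ≤ (2 * Gam (Ty N) (2 * N ^ 3)) ^ 14 * (1 / x ^ 10) ^ 7 := by
    refine le_trans (pow_le_pow_left₀ (Real.sqrt_nonneg _) hn 2) (le_of_eq ?_)
    rw [← hsq]
    ring
  refine H6_base (by positivity) hn2 (by positivity) ?_
  have h5 := H6_b hN (nmT0 hP).le (nmT hP).2 hg0 (gam_le hP) hxN
  rw [card_Ty, Nat.cast_pow]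
  have e1 : (1 : ℝ) / (N : ℝ) ^ 1000 * (1 / x ^ 33) ^ 2 = x ^ 4 / ((N : ℝ) ^ 1000 * x ^ 70) := by
    field_simp
  have e2 : (5 * ((N : ℝ) ^ 5) ^ 2 * (mT N : ℝ)) ^ (6 + 1) * ((2 * Gam (Ty N) (2 * N ^ 3)) ^ 14 * (1 / x ^ 10) ^ 7) =
      ((5 * ((N : ℝ) ^ 5) ^ 2 * (mT N : ℝ)) ^ 7 * (2 * Gam (Ty N) (2 * N ^ 3)) ^ 14 * (N : ℝ) ^ 1000) /
        ((N : ℝ) ^ 1000 * x ^ 70) := by
    have e3 : ((1 : ℝ) / x ^ 10) ^ 7 = 1 / x ^ 70 := by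
      rw [div_pow, one_pow, ← pow_mul]
    rw [e3]
    have hN' : (N : ℝ) ^ 1000 ≠ 0 := (pow_pos hN0 _).ne'
    have hx' : x ^ 70 ≠ 0 := (pow_pos hx0 _).ne'
    generalize (5 * ((N : ℝ) ^ 5) ^ 2 * (mT N : ℝ)) ^ 7 = A
    generalize (2 * Gam (Ty N) (2 * N ^ 3)) ^ 14 = B
    generalize (N : ℝ) ^ 1000 = C at *
    generalize x ^ 70 = D at *
    field_simp
  rw [e1, e2]
  exact div_le_div_of_nonneg_right h5 (by positivity)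

theorem tail_AF {N Δ : ℕ} (hP : Pm N Δ) {V : Type} [Fintype V] (G : SimpleGraph V) (hG : Reg G Δ) (hgap : Gap G N Δ) (v : V)
    (t t' : Ty N) (k : ℕ) (hk : k < 6) :
    pr (fun χ : V → Ty N => (Δ : ℝ) ^ (-(9 : ℝ) / 20) / 100 ≤ |AF (PM G Δ) (2 * N ^ 3) k t t' v χ|) ≤
      (1 / (N : ℝ) ^ 1000) ^ (N ^ 5) := by
  obtain ⟨x, hx0, hx10, hxN, _, _, _⟩ := ntex hP
  have hN := nN hP
  have hN1 := nN1 hP
  have hN0 := nN0 hP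
  have hΔ0 := nΔ0 hP
  have hlam : ((Δ : ℝ) ^ (-(9 : ℝ) / 20) / 100) ^ 2 = 1 / (10 ^ 4 * x ^ 9) := by
    have e1 : ((Δ : ℝ) ^ (-(9 : ℝ) / 20)) ^ 2 = 1 / x ^ 9 := by
      rw [← Real.rpow_natCast _ 2, ← Real.rpow_mul hΔ0.le, ← hx10, ← Real.rpow_natCast x 10, ← Real.rpow_mul hx0.le,
        one_div, ← Real.rpow_natCast x 9, ← Real.rpow_neg hx0.le]
      congr 1
      norm_num
    rw [div_pow, e1]
    field_simp
    norm_num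
  have hb := AF_af (ppo hP G hG hgap) (e_le hP) (gd_le hP) k (by omega) t t'
  have hn := hb.n1 v
  have hr1 : 1 ≤ N ^ 5 := Nat.one_le_pow _ _ (lt_of_lt_of_le (by norm_num) hP.big)
  have h1 := h2_tail (hb.dg v) (N ^ 5) hr1 ((Δ : ℝ) ^ (-(9 : ℝ) / 20) / 100) (by positivity)
  refine le_trans h1 (pow_le_pow_left₀ (by positivity) ?_ _)
  have hg0 := H6_g0 N
  have hsq : (1 / Real.sqrt Δ) ^ 2 = 1 / x ^ 10 := by
    rw [div_pow, one_pow, Real.sq_sqrt hΔ0.le, hx10]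
  have hn2 : nm (AF (PM G Δ) (2 * N ^ 3) k t t' v) ^ 2 ≤
      (2 * (N : ℝ) ^ 3 * (2 * Gam (Ty N) (2 * N ^ 3))) ^ 2 * (1 / x ^ 10) := by
    refine le_trans (pow_le_pow_left₀ (Real.sqrt_nonneg _) hn 2) (le_of_eq ?_)
    rw [← hsq]
    push_cast
    ring
  rw [hlam]
  refine H6_base (by positivity) hn2 (by positivity) ?_
  have h5 := H6_a hN (nmT0 hP).le (nmT hP).2 hg0 (gam_le hP) hxN k hk
  rw [card_Ty, Nat.cast_pow]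
  have e1 : (1 : ℝ) / (N : ℝ) ^ 1000 * (1 / (10 ^ 4 * x ^ 9)) = x / (10 ^ 4 * (N : ℝ) ^ 1000 * x ^ 10) := by
    field_simp
  have e2 : (5 * ((N : ℝ) ^ 5) ^ 2 * (mT N : ℝ)) ^ (k + 1) *
      ((2 * (N : ℝ) ^ 3 * (2 * Gam (Ty N) (2 * N ^ 3))) ^ 2 * (1 / x ^ 10)) =
      ((5 * ((N : ℝ) ^ 5) ^ 2 * (mT N : ℝ)) ^ (k + 1) * (2 * (N : ℝ) ^ 3 * (2 * Gam (Ty N) (2 * N ^ 3))) ^ 2 * 10 ^ 4 *
        (N : ℝ) ^ 1000) / (10 ^ 4 * (N : ℝ) ^ 1000 * x ^ 10) := by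
    have hN' : (N : ℝ) ^ 1000 ≠ 0 := (pow_pos hN0 _).ne'
    have hx' : x ^ 10 ≠ 0 := (pow_pos hx0 _).ne'
    generalize (5 * ((N : ℝ) ^ 5) ^ 2 * (mT N : ℝ)) ^ (k + 1) = A
    generalize (2 * (N : ℝ) ^ 3 * (2 * Gam (Ty N) (2 * N ^ 3))) ^ 2 = B
    generalize (N : ℝ) ^ 1000 = C at *
    generalize x ^ 10 = D at *
    field_simp
  rw [e1, e2]
  exact div_le_div_of_nonneg_right h5 (by positivity)

private theorem H6_q {N : ℕ} (hN : (2 : ℝ) ^ 40 ≤ N) (m : ℝ) (hm0 : 0 ≤ m) (hm : m ≤ 4 * (N : ℝ) ^ 54) :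
    m * m * (7 * (1 / (N : ℝ) ^ 1000) ^ (N ^ 5)) ≤ Real.exp (-(N : ℝ) ^ 5) := by
  have hN1 : (1 : ℝ) ≤ N := le_trans (by norm_num) hN
  have hN0 : (0 : ℝ) < N := lt_of_lt_of_le one_pos hN1
  have hr : N ^ 5 ≠ 0 := pow_ne_zero _ (by rintro rfl; norm_num at hN0)
  have e1 : (1 : ℝ) / (N : ℝ) ^ 1000 = 1 / (N : ℝ) ^ 999 * (1 / N) := by
    rw [div_mul_div_comm, one_mul, ← pow_succ]
  have h1 : (1 / (N : ℝ) ^ 999) ^ (N ^ 5) ≤ 1 / (N : ℝ) ^ 999 := by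
    apply pow_le_of_le_one (by positivity) _ hr
    rw [div_le_one (by positivity)]
    exact one_le_pow₀ hN1
  have h2 : (1 : ℝ) / N ≤ Real.exp (-1) := by
    rw [Real.exp_neg, one_div]
    apply inv_anti₀ (Real.exp_pos _)
    have := Real.exp_one_lt_d9
    have h3 : (2.7182818286 : ℝ) ≤ 2 ^ 40 := by norm_num
    linarith
  have h3 : ((1 : ℝ) / N) ^ (N ^ 5) ≤ Real.exp (-(N : ℝ) ^ 5) := by
    refine le_trans (pow_le_pow_left₀ (by positivity) h2 _) (le_of_eq ?_)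
    rw [← Real.exp_nat_mul]
    congr 1
    push_cast
    ring
  have h4 : m * m * 7 ≤ (N : ℝ) ^ 999 := by
    calc m * m * 7 ≤ (4 * (N : ℝ) ^ 54) * (4 * (N : ℝ) ^ 54) * 7 :=
          mul_le_mul_of_nonneg_right (mul_le_mul hm hm hm0 (by positivity)) (by norm_num)
      _ = 112 * (N : ℝ) ^ 108 := by ring
      _ ≤ N * (N : ℝ) ^ 108 := mul_le_mul_of_nonneg_right (le_trans (by norm_num) hN) (by positivity)
      _ = (N : ℝ) ^ 109 := by ring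
      _ ≤ (N : ℝ) ^ 999 := pow_le_pow_right₀ hN1 (by norm_num)
  rw [e1, mul_pow]
  have h5 : (1 / (N : ℝ) ^ 999) ^ (N ^ 5) * ((1 : ℝ) / N) ^ (N ^ 5) ≤ 1 / (N : ℝ) ^ 999 * Real.exp (-(N : ℝ) ^ 5) :=
    mul_le_mul h1 h3 (by positivity) (by positivity)
  have h6 : m * m * 7 * (1 / (N : ℝ) ^ 999) ≤ 1 := by
    rw [mul_one_div, div_le_one (by positivity)]
    exact h4
  calc m * m * (7 * ((1 / (N : ℝ) ^ 999) ^ (N ^ 5) * ((1 : ℝ) / N) ^ (N ^ 5)))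
      = m * m * 7 * ((1 / (N : ℝ) ^ 999) ^ (N ^ 5) * ((1 : ℝ) / N) ^ (N ^ 5)) := by ring
    _ ≤ m * m * 7 * (1 / (N : ℝ) ^ 999 * Real.exp (-(N : ℝ) ^ 5)) := mul_le_mul_of_nonneg_left h5 (by positivity)
    _ = m * m * 7 * (1 / (N : ℝ) ^ 999) * Real.exp (-(N : ℝ) ^ 5) := by ring
    _ ≤ 1 * Real.exp (-(N : ℝ) ^ 5) := mul_le_mul_of_nonneg_right h6 (Real.exp_pos _).le
    _ = Real.exp (-(N : ℝ) ^ 5) := one_mul _

theorem outH : OutH := by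
  intro N Δ hP V _ G hG hgap v
  have hN := nN hP
  have hNn : 1 ≤ N := le_trans (by norm_num) hP.big
  have hN3 : 1 ≤ N ^ 3 := Nat.one_le_pow _ _ hNn
  refine ⟨?_, ?_⟩
  · have h1 : pr (fun χ : V → Ty N => ¬ HE G N Δ v χ) ≤ pr (fun χ : V → Ty N =>
        ∃ p ∈ (univ : Finset (Ty N × Ty N)), (Δ : ℝ) ^ (-(33 : ℝ) / 10) ≤ |fd (PM G Δ) (2 * N ^ 3) 6 p.1 p.2 v χ| ∨
          ∃ k ∈ range 6, (Δ : ℝ) ^ (-(9 : ℝ) / 20) / 100 ≤ |AF (PM G Δ) (2 * N ^ 3) k p.1 p.2 v χ|) := by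
      apply pr_mono
      intro χ hχ
      by_contra hc
      apply hχ
      intro t t'
      refine ⟨not_le.1 fun h => hc ⟨(t, t'), mem_univ _, Or.inl h⟩, fun k hk => not_le.1 fun h =>
        hc ⟨(t, t'), mem_univ _, Or.inr ⟨k, mem_range.2 hk, h⟩⟩⟩
    refine le_trans h1 ?_
    have h2 := pr_ex (univ : Finset (Ty N × Ty N)) (fun p (χ : V → Ty N) =>
      (Δ : ℝ) ^ (-(33 : ℝ) / 10) ≤ |fd (PM G Δ) (2 * N ^ 3) 6 p.1 p.2 v χ| ∨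
          ∃ k ∈ range 6, (Δ : ℝ) ^ (-(9 : ℝ) / 20) / 100 ≤ |AF (PM G Δ) (2 * N ^ 3) k p.1 p.2 v χ|)
      (7 * (1 / (N : ℝ) ^ 1000) ^ (N ^ 5)) (by
        intro p _
        refine le_trans (pr_or _ _) ?_
        have h3 := tail_fd hP G hG hgap v p.1 p.2
        have h4 := pr_ex (range 6) (fun k (χ : V → Ty N) =>
          (Δ : ℝ) ^ (-(9 : ℝ) / 20) / 100 ≤ |AF (PM G Δ) (2 * N ^ 3) k p.1 p.2 v χ|)
          ((1 / (N : ℝ) ^ 1000) ^ (N ^ 5)) (fun k hk => tail_AF hP G hG hgap v p.1 p.2 k (mem_range.1 hk))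
        rw [card_range] at h4
        push_cast at h4
        linarith)
    refine le_trans h2 ?_
    rw [card_univ, Fintype.card_prod, card_Ty, Nat.cast_mul]
    exact H6_q hN _ (nmT0 hP).le (nmT hP).2
  · intro χ χ' hω
    have h1 : ∀ t t', fd (PM G Δ) (2 * N ^ 3) 6 t t' v χ = fd (PM G Δ) (2 * N ^ 3) 6 t t' v χ' := fun t t' =>
      fd_loc G Δ (2 * N ^ 3) (by omega) 6 t t' v χ χ' fun i hi => hω i (bl_mono G v (by omega) hi)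
    have h2 : ∀ k < 6, ∀ t t', AF (PM G Δ) (2 * N ^ 3) k t t' v χ = AF (PM G Δ) (2 * N ^ 3) k t t' v χ' := fun k hk t t' =>
      AF_loc G Δ (2 * N ^ 3) (by omega) k t t' v χ χ' fun i hi => hω i (bl_mono G v (by
        have : (k + 1) * (2 * N ^ 3) ≤ 6 * (2 * N ^ 3) := Nat.mul_le_mul_right _ (by omega)
        omega) hi)
    unfold HE
    exact propext (forall_congr' fun t => forall_congr' fun t' => and_congr (by rw [h1]) (forall_congr' fun k =>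
      forall_congr' fun hk => by rw [h2 k hk]))

end Pool.Agent.H33.LN
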