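import Pool.Agent.H33.LN.Nu
import Pool.Agent.H33.LN.Ppo
import Pool.Agent.H33.LN.Ev

/-!
Row LNH_Wt: the weights.   `m = mT N`, `K = 2 N^3`, `P = PM G Δ`, `c0 = m d0 / Δ`, `Sg u v := 1 + ∑_(k<6) (AF k t t' u χ + AF k t' t v χ - mk k t t' u v)`.
PROOFS. `y u v := if χ u = t ∧ χ v = t' then c0 * Sg u v else if χ u = t' ∧ χ v = t then c0 * Sg v u else 0`; symmetric since `t ≠ t'`.
Sums: `χ v = t`: `∑_(u ~ v, χ u = t') y v u = (c0 Δ / m) ∑_w P v w (1 + om t' w χ) Sg v w = d0 (1 - fd 6 t t' v χ)` (`wsum` with `n = 6`; `P v w = 1/Δ` for neighbours, `1 + om t' w χ = m` or `0`; `c0 Δ / m = d0`).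
`χ v = t'`: `∑_(u ~ v, χ u = t) y v u = d0 (1 - fd 6 t' t v χ)` (`wsum` for `(t', t)`, `mk_symm` (u ≠ v as neighbours)). `|d0 fd 6| ≤ (Δ/m) Δ^(-33/10) ≤ Δ^(-23/10)`.
Bounds: `|mk k| ≤ 4 m K 2 g δ ≤ Δ^(-9/20)/100` (`mk_le`; `4 * 4 N^54 * 2 N^3 * 2 N^331 * 100 ≤ N^2000 ≤ Δ^(1/20)`), so `|Sg - 1| ≤ (18/100) Δ^(-9/20)` by `HE` at `u` and `v`; `1 - Δ^(-2/5) - m/Δ ≤ c0 ≤ 1 - Δ^(-2/5)` (floor);
`y ≤ 1 - Δ^(-2/5) + (18/100) Δ^(-9/20) ≤ 1 - Δ^(-2/5)/2`; `y ≥ 1/2`.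
-/

set_option autoImplicit false
set_option linter.unusedSectionVars false

namespace Pool.Agent.H33.LN

open Finset Classical
open Pool.Agent.H65.GI
open Pool.Agent.H12.LN
open Pool.Agent.H64.LN
open Pool.Agent.H2.LN

/-- the twentieth root of `Δ` -/
private theorem Wt_root {N Δ : ℕ} (hP : Pm N Δ) : ∃ t : ℝ, 0 < t ∧ t ^ 20 = Δ ∧ (N : ℝ) ^ 2000 ≤ t ∧
    (Δ : ℝ) ^ (-(2 : ℝ) / 5) = 1 / t ^ 8 ∧ (Δ : ℝ) ^ (-(9 : ℝ) / 20) = 1 / t ^ 9 ∧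
    (Δ : ℝ) ^ (-(33 : ℝ) / 10) = 1 / t ^ 66 ∧ (Δ : ℝ) ^ (-(23 : ℝ) / 10) = 1 / t ^ 46 ∧
    Real.sqrt Δ = t ^ 10 := by
  have hΔ0 := nΔ0 hP
  obtain ⟨t, ht⟩ : ∃ t : ℝ, t = (Δ : ℝ) ^ ((1 : ℝ) / 20) := ⟨_, rfl⟩
  have ht0 : 0 < t := by rw [ht]; exact Real.rpow_pos_of_pos hΔ0 _
  have hp : ∀ n : ℕ, t ^ n = (Δ : ℝ) ^ ((n : ℝ) / 20) := by
    intro n
    rw [ht, ← Real.rpow_natCast, ← Real.rpow_mul hΔ0.le]
    congr 1
    ring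
  have h20 : t ^ 20 = Δ := by
    rw [hp 20]
    norm_num
  refine ⟨t, ht0, h20, ?_, ?_, ?_, ?_, ?_, ?_⟩
  · refine le_of_pow_le_pow_left₀ (n := 20) (by norm_num) ht0.le ?_
    rw [h20, ← pow_mul]
    exact nΔN hP
  · rw [hp 8, one_div, ← Real.rpow_neg hΔ0.le]
    congr 1
    norm_num
  · rw [hp 9, one_div, ← Real.rpow_neg hΔ0.le]
    congr 1
    norm_num
  · rw [hp 66, one_div, ← Real.rpow_neg hΔ0.le]
    congr 1
    norm_num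
  · rw [hp 46, one_div, ← Real.rpow_neg hΔ0.le]
    congr 1
    norm_num
  · have h1 : (Δ : ℝ) = (t ^ 10) ^ 2 := by rw [← pow_mul, h20]
    rw [h1]
    exact Real.sqrt_sq (by positivity)

theorem c0_bd {N Δ : ℕ} (hP : Pm N Δ) :
    1 - (Δ : ℝ) ^ (-(2 : ℝ) / 5) - mT N / Δ ≤ mT N * d0 N Δ / Δ ∧ mT N * d0 N Δ / Δ ≤ 1 - (Δ : ℝ) ^ (-(2 : ℝ) / 5) := by
  have hΔ0 := nΔ0 hP
  have hm := nmT0 hP
  have hx : (Δ : ℝ) ^ (-(2 : ℝ) / 5) ≤ 1 :=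
    Real.rpow_le_one_of_one_le_of_nonpos (nΔ1 hP) (by norm_num)
  have h0 : 0 ≤ (Δ : ℝ) / mT N * (1 - (Δ : ℝ) ^ (-(2 : ℝ) / 5)) :=
    mul_nonneg (by positivity) (by linarith)
  have h1 : (d0 N Δ : ℝ) ≤ (Δ : ℝ) / mT N * (1 - (Δ : ℝ) ^ (-(2 : ℝ) / 5)) := Nat.floor_le h0
  have h2 : (Δ : ℝ) / mT N * (1 - (Δ : ℝ) ^ (-(2 : ℝ) / 5)) < (d0 N Δ : ℝ) + 1 := Nat.lt_floor_add_one _
  have h3 : (mT N : ℝ) / Δ * ((Δ : ℝ) / mT N * (1 - (Δ : ℝ) ^ (-(2 : ℝ) / 5))) = 1 - (Δ : ℝ) ^ (-(2 : ℝ) / 5) := by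
    field_simp
  have h4 : (mT N : ℝ) * d0 N Δ / Δ = (mT N : ℝ) / Δ * d0 N Δ := by ring
  have h5 : 0 ≤ (mT N : ℝ) / Δ := by positivity
  rw [h4]
  constructor
  · have h6 := mul_le_mul_of_nonneg_left h2.le h5
    rw [h3] at h6
    linarith
  · have h6 := mul_le_mul_of_nonneg_left h1 h5
    rw [h3] at h6
    exact h6

private theorem Wt_mk {V : Type} [Fintype V] {N Δ : ℕ} (hP : Pm N Δ) (G : SimpleGraph V) (hG : Reg G Δ)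
    (hgap : Gap G N Δ) (k : ℕ) (hk : k < 6) (t t' : Ty N) {v w : V} (h : v ≠ w) :
    |mk (PM G Δ) (2 * N ^ 3) k t t' v w| ≤ (Δ : ℝ) ^ (-(9 : ℝ) / 20) / 100 := by
  obtain ⟨u, hu0, hu20, huN, -, h9, -, -, hs⟩ := Wt_root hP
  have h1 := mk_le (κ := Ty N) (ppo hP G hG hgap) (e_le hP) (gd_le hP) k (by omega) t t' h
  refine h1.trans ?_
  rw [h9, hs, card_Ty]
  have hm := (nmT hP).2
  have hm0 := nmT0 hP
  have hgam := gam_le hP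
  have hN0 := nN0 hP
  have hN1 := nN1 hP
  have hg0 : 0 ≤ Gam (Ty N) (2 * N ^ 3) := by
    unfold Gam
    positivity
  have hu10 : 0 < u ^ 10 := by positivity
  have h2 : (4 : ℝ) * mT N * (((2 * N ^ 3 : ℕ) : ℝ) * (2 * Gam (Ty N) (2 * N ^ 3) * (1 / u ^ 10))) ≤
      4 * (4 * (N : ℝ) ^ 54) * ((2 * (N : ℝ) ^ 3) * (2 * (N : ℝ) ^ 331 * (1 / u ^ 10))) := by
    push_cast
    gcongr
  refine h2.trans ?_
  have h3 : 4 * (4 * (N : ℝ) ^ 54) * ((2 * (N : ℝ) ^ 3) * (2 * (N : ℝ) ^ 331 * (1 / u ^ 10))) =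
      (64 * (N : ℝ) ^ 388) / u ^ 10 := by
    ring
  rw [h3, div_div, div_le_div_iff₀ hu10 (by positivity), one_mul]
  have h4 : (6400 : ℝ) ≤ N := le_trans (by norm_num) (nN hP)
  have h5 : (6400 : ℝ) * (N : ℝ) ^ 388 ≤ u := by
    calc (6400 : ℝ) * (N : ℝ) ^ 388 ≤ N * (N : ℝ) ^ 388 := by gcongr
      _ = (N : ℝ) ^ 389 := by ring
      _ ≤ (N : ℝ) ^ 2000 := pow_le_pow_right₀ hN1 (by norm_num)
      _ ≤ u := huN
  calc 64 * (N : ℝ) ^ 388 * (u ^ 9 * 100) = (6400 * (N : ℝ) ^ 388) * u ^ 9 := by ring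
    _ ≤ u * u ^ 9 := by gcongr
    _ = u ^ 10 := by ring

/-- the sum `Sg` -/
private noncomputable def Wt_Sg {V : Type} [Fintype V] (G : SimpleGraph V) (N Δ : ℕ) (χ : V → Ty N) (t t' : Ty N)
    (u v : V) : ℝ :=
  1 + ∑ k ∈ range 6, (AF (PM G Δ) (2 * N ^ 3) k t t' u χ + AF (PM G Δ) (2 * N ^ 3) k t' t v χ -
    mk (PM G Δ) (2 * N ^ 3) k t t' u v)

private theorem Wt_Sg_symm {V : Type} [Fintype V] (G : SimpleGraph V) (N Δ : ℕ) (χ : V → Ty N) (t t' : Ty N)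
    {u v : V} (h : u ≠ v) : Wt_Sg G N Δ χ t t' u v = Wt_Sg G N Δ χ t' t v u := by
  unfold Wt_Sg
  refine congrArg (fun z => 1 + z) (Finset.sum_congr rfl fun k _ => ?_)
  rw [mk_symm k t t' h]
  ring

private theorem Wt_Sg_bd {V : Type} [Fintype V] {N Δ : ℕ} (hP : Pm N Δ) (G : SimpleGraph V) (hG : Reg G Δ)
    (hgap : Gap G N Δ) (χ : V → Ty N) (hH : ∀ v, HE G N Δ v χ) (t t' : Ty N) {u v : V} (h : u ≠ v) :
    |Wt_Sg G N Δ χ t t' u v - 1| ≤ 18 / 100 * (Δ : ℝ) ^ (-(9 : ℝ) / 20) := by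
  have h0 : Wt_Sg G N Δ χ t t' u v - 1 = ∑ k ∈ range 6, (AF (PM G Δ) (2 * N ^ 3) k t t' u χ +
      AF (PM G Δ) (2 * N ^ 3) k t' t v χ - mk (PM G Δ) (2 * N ^ 3) k t t' u v) := by
    unfold Wt_Sg
    ring
  rw [h0]
  refine (Finset.abs_sum_le_sum_abs _ _).trans ?_
  have h1 : ∀ k ∈ range 6, |AF (PM G Δ) (2 * N ^ 3) k t t' u χ + AF (PM G Δ) (2 * N ^ 3) k t' t v χ -
      mk (PM G Δ) (2 * N ^ 3) k t t' u v| ≤ 3 / 100 * (Δ : ℝ) ^ (-(9 : ℝ) / 20) := by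
    intro k hk
    have hk6 : k < 6 := Finset.mem_range.mp hk
    have a1 := ((hH u t t').2 k hk6).le
    have a2 := ((hH v t' t).2 k hk6).le
    have a3 := Wt_mk hP G hG hgap k hk6 t t' h
    rw [abs_le] at a1 a2 a3 ⊢
    constructor <;> linarith [a1.1, a1.2, a2.1, a2.2, a3.1, a3.2]
  refine (Finset.sum_le_sum h1).trans ?_
  rw [Finset.sum_const, Finset.card_range, nsmul_eq_mul]
  apply le_of_eq
  push_cast
  ring

private theorem Wt_sum {V : Type} [Fintype V] {N Δ : ℕ} (hP : Pm N Δ) (G : SimpleGraph V) (hG : Reg G Δ)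
    (hgap : Gap G N Δ) (χ : V → Ty N) (hH : ∀ v, HE G N Δ v χ) (t t' : Ty N) (v : V) (hv : χ v = t) :
    |(∑ u ∈ univ.filter (fun u => G.Adj v u ∧ χ u = t'), (mT N * d0 N Δ / Δ : ℝ) * Wt_Sg G N Δ χ t t' v u) - d0 N Δ| ≤
      (Δ : ℝ) ^ (-(23 : ℝ) / 10) := by
  have hΔ0 := nΔ0 hP
  have hm0 := nmT0 hP
  have h1 := wsum (κ := Ty N) (ppo hP G hG hgap) 6 t t' v χ hv
  have h2 : ∑ u ∈ univ.filter (fun u => G.Adj v u ∧ χ u = t'), (mT N * d0 N Δ / Δ : ℝ) * Wt_Sg G N Δ χ t t' v u =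
      d0 N Δ * (1 - fd (PM G Δ) (2 * N ^ 3) 6 t t' v χ) := by
    rw [← h1, Finset.mul_sum, Finset.sum_filter]
    refine Finset.sum_congr rfl fun w _ => ?_
    unfold PM om
    by_cases ha : G.Adj v w
    · by_cases hw : χ w = t'
      · rw [if_pos ⟨ha, hw⟩, if_pos ha, if_pos hw, card_Ty]
        unfold Wt_Sg PM
        ring
      · rw [if_neg (fun hc => hw hc.2), if_neg hw]
        ring
    · rw [if_neg (fun hc => ha hc.1), if_neg ha]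
      ring
  have h3 : (d0 N Δ : ℝ) * (1 - fd (PM G Δ) (2 * N ^ 3) 6 t t' v χ) - d0 N Δ =
      - (d0 N Δ * fd (PM G Δ) (2 * N ^ 3) 6 t t' v χ) := by ring
  rw [h2, h3, abs_neg, abs_mul, abs_of_nonneg (Nat.cast_nonneg _)]
  have h4 := ((hH v t t').1).le
  obtain ⟨x, hx0, hx20, hxN, h8, h9, h66, h46, hs⟩ := Wt_root hP
  have hD : (d0 N Δ : ℝ) ≤ Δ := by
    have h5 := (c0_bd hP).2
    have h6 : 0 < (Δ : ℝ) ^ (-(2 : ℝ) / 5) := Real.rpow_pos_of_pos hΔ0 _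
    have h7 : (mT N : ℝ) * d0 N Δ / Δ ≤ 1 := by linarith
    rw [div_le_one hΔ0] at h7
    have h10 : (1 : ℝ) ≤ mT N := le_trans (one_le_pow₀ (nN1 hP)) (nmT hP).1
    nlinarith [Nat.cast_nonneg (α := ℝ) (d0 N Δ)]
  calc (d0 N Δ : ℝ) * |fd (PM G Δ) (2 * N ^ 3) 6 t t' v χ| ≤ Δ * (Δ : ℝ) ^ (-(33 : ℝ) / 10) :=
        mul_le_mul hD h4 (abs_nonneg _) hΔ0.le
    _ = (Δ : ℝ) ^ (-(23 : ℝ) / 10) := by
        rw [h66, h46, ← hx20]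
        field_simp

theorem outW : OutW := by
  intro N Δ hP V _ G hG hgap χ hH t t' hne
  have hΔ0 := nΔ0 hP
  have hm0 := nmT0 hP
  obtain ⟨x, hx0, hx20, hxN, h8, h9, h66, h46, hs⟩ := Wt_root hP
  have hN1 := nN1 hP
  have hx1 : (2 : ℝ) ^ 40 ≤ x := by
    calc (2 : ℝ) ^ 40 ≤ N := nN hP
      _ = (N : ℝ) ^ 1 := (pow_one _).symm
      _ ≤ (N : ℝ) ^ 2000 := pow_le_pow_right₀ hN1 (by norm_num)
      _ ≤ x := hxN
  have hx2 : (1 : ℝ) ≤ x := le_trans (by norm_num) hx1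
  obtain ⟨hc1, hc2⟩ := c0_bd hP
  have hc0 : 0 ≤ (mT N * d0 N Δ / Δ : ℝ) := by positivity
  refine ⟨fun u v => if χ u = t ∧ χ v = t' then (mT N * d0 N Δ / Δ : ℝ) * Wt_Sg G N Δ χ t t' u v
    else if χ u = t' ∧ χ v = t then (mT N * d0 N Δ / Δ : ℝ) * Wt_Sg G N Δ χ t t' v u else 0, ?_, ?_, ?_, ?_⟩
  · intro u v
    by_cases h1 : χ u = t ∧ χ v = t'
    · have h2 : ¬ (χ v = t ∧ χ u = t') := fun hc => hne (h1.1.symm.trans hc.2)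
      simp only [if_pos h1, if_neg h2, if_pos (And.intro h1.2 h1.1)]
    · by_cases h2 : χ u = t' ∧ χ v = t
      · simp only [if_neg h1, if_pos h2, if_pos (And.intro h2.2 h2.1)]
      · have h3 : ¬ (χ v = t ∧ χ u = t') := fun hc => h2 ⟨hc.2, hc.1⟩
        have h4 : ¬ (χ v = t' ∧ χ u = t) := fun hc => h1 ⟨hc.2, hc.1⟩
        simp only [if_neg h1, if_neg h2, if_neg h3, if_neg h4]
  · intro u v ha hu hv
    have huv : u ≠ v := G.ne_of_adj ha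
    simp only [if_pos (And.intro hu hv)]
    have hb := Wt_Sg_bd hP G hG hgap χ hH t t' huv
    rw [abs_le] at hb
    have e1 : 1 / x ^ 9 ≤ 1 / x ^ 8 := by
      apply one_div_le_one_div_of_le (by positivity)
      exact pow_le_pow_right₀ hx2 (by norm_num)
    have e2 : 1 / x ^ 8 ≤ 1 / 8 := by
      apply one_div_le_one_div_of_le (by norm_num)
      calc (8 : ℝ) ≤ 2 ^ 40 := by norm_num
        _ ≤ x := hx1
        _ = x ^ 1 := (pow_one _).symm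
        _ ≤ x ^ 8 := pow_le_pow_right₀ hx2 (by norm_num)
    have e3 : (mT N : ℝ) / Δ ≤ 1 / 8 := by
      rw [div_le_div_iff₀ hΔ0 (by norm_num), one_mul]
      have e4 : (mT N : ℝ) ≤ 4 * (N : ℝ) ^ 54 := (nmT hP).2
      have e5 : (32 : ℝ) ≤ N := le_trans (by norm_num) (nN hP)
      calc (mT N : ℝ) * 8 ≤ 4 * (N : ℝ) ^ 54 * 8 := by gcongr
        _ = 32 * (N : ℝ) ^ 54 := by ring
        _ ≤ N * (N : ℝ) ^ 54 := by gcongr
        _ = (N : ℝ) ^ 55 := by ring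
        _ ≤ (N : ℝ) ^ 2000 := pow_le_pow_right₀ hN1 (by norm_num)
        _ ≤ x := hxN
        _ = x ^ 1 := (pow_one _).symm
        _ ≤ x ^ 20 := pow_le_pow_right₀ hx2 (by norm_num)
        _ = Δ := hx20
    have e6 : 0 < 1 / x ^ 9 := by positivity
    rw [h8] at hc1 hc2 ⊢
    rw [h9] at hb
    constructor
    · have f1 : (3 / 4 : ℝ) ≤ mT N * d0 N Δ / Δ := by linarith
      have f2 : (82 / 100 : ℝ) ≤ Wt_Sg G N Δ χ t t' u v := by linarith [hb.1]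
      nlinarith
    · have f1 : Wt_Sg G N Δ χ t t' u v ≤ 1 + 18 / 100 * (1 / x ^ 9) := by linarith [hb.2]
      have f2 : 0 ≤ Wt_Sg G N Δ χ t t' u v := by linarith [hb.1]
      calc (mT N * d0 N Δ / Δ : ℝ) * Wt_Sg G N Δ χ t t' u v ≤
            (1 - 1 / x ^ 8) * (1 + 18 / 100 * (1 / x ^ 9)) :=
              mul_le_mul hc2 f1 f2 (by linarith)
        _ ≤ 1 - 1 / x ^ 8 + 18 / 100 * (1 / x ^ 9) := by
              have f3 : 0 ≤ (1 / x ^ 8) * (1 / x ^ 9) := by positivity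
              nlinarith
        _ ≤ 1 - 1 / x ^ 8 / 2 := by linarith
  · intro v hv
    have h1 := Wt_sum hP G hG hgap χ hH t t' v hv
    have h2 : ∑ u ∈ univ.filter (fun u => G.Adj v u ∧ χ u = t'),
        (if χ v = t ∧ χ u = t' then (mT N * d0 N Δ / Δ : ℝ) * Wt_Sg G N Δ χ t t' v u
          else if χ v = t' ∧ χ u = t then (mT N * d0 N Δ / Δ : ℝ) * Wt_Sg G N Δ χ t t' u v else 0) =
        ∑ u ∈ univ.filter (fun u => G.Adj v u ∧ χ u = t'), (mT N * d0 N Δ / Δ : ℝ) * Wt_Sg G N Δ χ t t' v u := by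
      refine Finset.sum_congr rfl fun u hu => ?_
      rw [if_pos (And.intro hv (Finset.mem_filter.mp hu).2.2)]
    rw [h2]
    exact h1
  · intro v hv
    have h1 := Wt_sum hP G hG hgap χ hH t' t v hv
    have h2 : ∑ u ∈ univ.filter (fun u => G.Adj v u ∧ χ u = t),
        (if χ v = t ∧ χ u = t' then (mT N * d0 N Δ / Δ : ℝ) * Wt_Sg G N Δ χ t t' v u
          else if χ v = t' ∧ χ u = t then (mT N * d0 N Δ / Δ : ℝ) * Wt_Sg G N Δ χ t t' u v else 0) =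
        ∑ u ∈ univ.filter (fun u => G.Adj v u ∧ χ u = t), (mT N * d0 N Δ / Δ : ℝ) * Wt_Sg G N Δ χ t' t v u := by
      refine Finset.sum_congr rfl fun u hu => ?_
      have hu2 := (Finset.mem_filter.mp hu).2
      have h3 : ¬ (χ v = t ∧ χ u = t') := fun hc => hne (hc.1.symm.trans hv)
      rw [if_neg h3, if_pos (And.intro hv hu2.2), Wt_Sg_symm G N Δ χ t t' (G.ne_of_adj hu2.1.symm)]
    rw [h2]
    exact h1

end Pool.Agent.H33.LN
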