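import Pool.Agent.H33.LN.Op

/-!
Row LNH_Dg: functions of degree at most `d`.
PROOFS. `Submodule.span_induction` (or `Submodule.span_le`, `Submodule.map`): for a generator `F`, `Loc F S`, `S.card ≤ d`. `av a F` is `Loc` on `S.erase a`.
`rs a t F` is `Loc` on `S.erase a`. `Dg_rs_Dv`: if `a ∉ S` then `Dv a F = 0`; if `a ∈ S`, `rs a t (Dv a F)` is `Loc` on `S.erase a` of size `≤ d`.
`Dg_zero`: `S = ∅`, so `F` is constant. `Dg_mul`: the product of functions on `S`, `S'` lives on `S ∪ S'`.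
-/

set_option autoImplicit false
set_option linter.unusedSectionVars false

namespace Pool.Agent.H33.LN

open Finset Classical
open Pool.Agent.H65.GI
open Pool.Agent.H12.LN

section
variable {I κ : Type} [Fintype I] [Fintype κ] [Nonempty κ]

theorem Dg_mono {d d' : ℕ} (h : d ≤ d') {F : (I → κ) → ℝ} (hF : F ∈ Dg I κ d) : F ∈ Dg I κ d' := by
  unfold Dg at *
  exact Submodule.span_mono (fun G hG => by
    obtain ⟨S, hS, hL⟩ := hG
    exact ⟨S, hS.trans h, hL⟩) hF

theorem Dg_loc {d : ℕ} {F : (I → κ) → ℝ} (S : Finset I) (hS : S.card ≤ d) (h : Loc F S) : F ∈ Dg I κ d :=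
  Submodule.subset_span ⟨S, hS, h⟩

private theorem DgF_ind {d : ℕ} (p : ((I → κ) → ℝ) → Prop)
    (hg : ∀ (F : (I → κ) → ℝ) (S : Finset I), S.card ≤ d → Loc F S → p F)
    (h0 : p 0) (ha : ∀ F G, p F → p G → p (F + G)) (hs : ∀ (c : ℝ) F, p F → p (c • F))
    {F : (I → κ) → ℝ} (hF : F ∈ Dg I κ d) : p F := by
  unfold Dg at hF
  induction hF using Submodule.span_induction with
  | mem x hx =>
    obtain ⟨S, hS, hL⟩ := hx
    exact hg x S hS hL
  | zero => exact h0
  | add x y _ _ hx hy => exact ha x y hx hy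
  | smul c x _ hx => exact hs c x hx

private theorem DgF_av0 (a : I) : av a (0 : (I → κ) → ℝ) = 0 := by
  have h := av_smul (I := I) (κ := κ) a (0 : ℝ) 0
  rw [zero_smul] at h
  rw [h, zero_smul]

private theorem DgF_Dv0 (a : I) : Dv a (0 : (I → κ) → ℝ) = 0 := by
  have h := Dv_smul (I := I) (κ := κ) a (0 : ℝ) 0
  rw [zero_smul] at h
  rw [h, zero_smul]

theorem Dg_av {d : ℕ} (a : I) {F : (I → κ) → ℝ} (hF : F ∈ Dg I κ d) : av a F ∈ Dg I κ d := by
  refine DgF_ind (fun F => av a F ∈ Dg I κ d) ?_ ?_ ?_ ?_ hF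
  · intro F S hS hL
    exact Dg_loc (S.erase a) ((Finset.card_le_card (Finset.erase_subset a S)).trans hS) (loc_av a F S hL)
  · show av a 0 ∈ _
    rw [DgF_av0]; exact Submodule.zero_mem _
  · intro F G hF hG
    show av a (F + G) ∈ _
    rw [av_add]; exact Submodule.add_mem _ hF hG
  · intro c F hF
    show av a (c • F) ∈ _
    rw [av_smul]; exact Submodule.smul_mem _ c hF

private theorem DgF_Dv_eq (a : I) (F : (I → κ) → ℝ) : Dv a F = F - av a F := rfl

theorem Dg_Dv {d : ℕ} (a : I) {F : (I → κ) → ℝ} (hF : F ∈ Dg I κ d) : Dv a F ∈ Dg I κ d := by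
  rw [DgF_Dv_eq]
  exact Submodule.sub_mem _ hF (Dg_av a hF)

private theorem DgF_rs_add (a : I) (t : κ) (F G : (I → κ) → ℝ) : rs a t (F + G) = rs a t F + rs a t G := rfl

private theorem DgF_rs_smul (a : I) (t : κ) (c : ℝ) (F : (I → κ) → ℝ) : rs a t (c • F) = c • rs a t F := rfl

private theorem DgF_rs0 (a : I) (t : κ) : rs a t (0 : (I → κ) → ℝ) = 0 := rfl

private theorem DgF_rs_loc (a : I) (t : κ) (F : (I → κ) → ℝ) (S : Finset I) (h : Loc F S) :
    Loc (rs a t F) (S.erase a) := by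
  intro ω ω' hω
  unfold rs
  apply h
  intro i hi
  by_cases e : i = a
  · subst e
    simp
  · rw [Function.update_of_ne e, Function.update_of_ne e]
    exact hω i (Finset.mem_erase.mpr ⟨e, hi⟩)

theorem Dg_rs {d : ℕ} (a : I) (t : κ) {F : (I → κ) → ℝ} (hF : F ∈ Dg I κ d) : rs a t F ∈ Dg I κ d := by
  refine DgF_ind (fun F => rs a t F ∈ Dg I κ d) ?_ ?_ ?_ ?_ hF
  · intro F S hS hL
    exact Dg_loc (S.erase a) ((Finset.card_le_card (Finset.erase_subset a S)).trans hS) (DgF_rs_loc a t F S hL)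
  · show rs a t 0 ∈ _
    rw [DgF_rs0]; exact Submodule.zero_mem _
  · intro F G hF hG
    show rs a t (F + G) ∈ _
    rw [DgF_rs_add]; exact Submodule.add_mem _ hF hG
  · intro c F hF
    show rs a t (c • F) ∈ _
    rw [DgF_rs_smul]; exact Submodule.smul_mem _ c hF

private theorem DgF_loc_Dv (a : I) (F : (I → κ) → ℝ) (S : Finset I) (h : Loc F S) : Loc (Dv a F) S := by
  have h2 := loc_av a F S h
  intro ω ω' hω
  unfold Dv
  rw [h ω ω' hω, h2 ω ω' (fun i hi => hω i (Finset.mem_of_mem_erase hi))]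

theorem Dg_rs_Dv {d : ℕ} (a : I) (t : κ) {F : (I → κ) → ℝ} (hF : F ∈ Dg I κ (d + 1)) : rs a t (Dv a F) ∈ Dg I κ d := by
  refine DgF_ind (fun F => rs a t (Dv a F) ∈ Dg I κ d) ?_ ?_ ?_ ?_ hF
  · intro F S hS hL
    by_cases ha : a ∈ S
    · refine Dg_loc (S.erase a) ?_ (DgF_rs_loc a t _ S (DgF_loc_Dv a F S hL))
      rw [Finset.card_erase_of_mem ha]
      omega
    · show rs a t (Dv a F) ∈ _
      rw [Dv_loc a F S hL ha, DgF_rs0]
      exact Submodule.zero_mem _
  · show rs a t (Dv a 0) ∈ _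
    rw [DgF_Dv0, DgF_rs0]; exact Submodule.zero_mem _
  · intro F G hF hG
    show rs a t (Dv a (F + G)) ∈ _
    rw [Dv_add, DgF_rs_add]; exact Submodule.add_mem _ hF hG
  · intro c F hF
    show rs a t (Dv a (c • F)) ∈ _
    rw [Dv_smul, DgF_rs_smul]; exact Submodule.smul_mem _ c hF

theorem Dg_zero {F : (I → κ) → ℝ} (hF : F ∈ Dg I κ 0) (ω ω' : I → κ) : F ω = F ω' := by
  refine DgF_ind (fun F => F ω = F ω') ?_ ?_ ?_ ?_ hF
  · intro F S hS hL
    have : S = ∅ := Finset.card_eq_zero.mp (Nat.le_zero.mp hS)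
    subst this
    exact hL ω ω' (fun i hi => absurd hi (Finset.notMem_empty i))
  · rfl
  · intro F G hF hG
    show F ω + G ω = F ω' + G ω'
    rw [hF, hG]
  · intro c F hF
    show c * F ω = c * F ω'
    rw [hF]

theorem Dg_mul {d d' : ℕ} {F G : (I → κ) → ℝ} (hF : F ∈ Dg I κ d) (hG : G ∈ Dg I κ d') : F * G ∈ Dg I κ (d + d') := by
  refine DgF_ind (fun F => F * G ∈ Dg I κ (d + d')) ?_ ?_ ?_ ?_ hF
  · intro F S hS hL
    refine DgF_ind (fun G => F * G ∈ Dg I κ (d + d')) ?_ ?_ ?_ ?_ hG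
    · intro G S' hS' hL'
      refine Dg_loc (S ∪ S') ((Finset.card_union_le S S').trans (Nat.add_le_add hS hS')) ?_
      intro ω ω' hω
      show F ω * G ω = F ω' * G ω'
      rw [hL ω ω' (fun i hi => hω i (Finset.mem_union_left _ hi)),
        hL' ω ω' (fun i hi => hω i (Finset.mem_union_right _ hi))]
    · show F * 0 ∈ _
      rw [mul_zero]; exact Submodule.zero_mem _
    · intro G G' hG hG'
      show F * (G + G') ∈ _
      rw [mul_add]; exact Submodule.add_mem _ hG hG'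
    · intro c G hG
      show F * (c • G) ∈ _
      rw [mul_smul_comm]; exact Submodule.smul_mem _ c hG
  · show 0 * G ∈ _
    rw [zero_mul]; exact Submodule.zero_mem _
  · intro F F' hF hF'
    show (F + F') * G ∈ _
    rw [add_mul]; exact Submodule.add_mem _ hF hF'
  · intro c F hF
    show (c • F) * G ∈ _
    rw [smul_mul_assoc]; exact Submodule.smul_mem _ c hF

theorem Dg_const (d : ℕ) (c : ℝ) : (fun _ => c : (I → κ) → ℝ) ∈ Dg I κ d :=
  Dg_loc ∅ (by simp) (fun _ _ _ => rfl)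

end

end Pool.Agent.H33.LN
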