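import Pool.Agent.H33.LN.EH
import Pool.Agent.H33.LN.H6
import Pool.Agent.H33.LN.Wt
import Pool.Agent.H2.LN.H.OutE

/-!
Blocks E + H of LN: `EHP` is proved.
-/

set_option autoImplicit false

namespace Pool.Agent.H33.LN

theorem ehp_main : Pool.Agent.H2.LN.Top.EHP := ehp Pool.Agent.H2.LN.HH.outE outH outW

end Pool.Agent.H33.LN
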