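import Pool.Agent.H33.LN.H3

/-!
Row LNH_Fb: the operators `ap P k` and `AA P K` on fields; the basic identity.
PROOFS. `ap_eq`, `AA_eq`: unfold, `funext`. `AA_id`: `K` even; `ap P 1 (ap P i y) = ap P (i+1) y` (`ap_ap`), so
`AA x y + P AA y x = ∑_(i<K even) P^i x - ∑_(i<K odd) P^i y + ∑_(i<K even) P^(i+1) y - ∑_(i<K odd) P^(i+1) x = x - P^K x`: by induction on `n` with `K = 2 n`
(`K = 2n+2` adds `P^(2n) x - P^(2n+1) y + P^(2n+1) y - P^(2n+2) x`).
`FF_id`: `∑_w P v w (1 + om_w)(A v + B w - μ) = A v (1 + P om) + P B + P (om B) - ∑ P μ (1 + om)` and `A v + P B = x v - P^K x v` (`AA_id`).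
`Dv_ap`, `ex_ap`, `nm_ap_le`: linearity of `Dv`, `ex`, triangle inequality. `nm_AA_le`: triangle inequality.
-/

set_option autoImplicit false
set_option linter.unusedSectionVars false

namespace Pool.Agent.H33.LN

open Finset Classical
open Pool.Agent.H65.GI
open Pool.Agent.H12.LN

section
variable {V κ : Type} [Fintype V] [Fintype κ] [Nonempty κ] {P : Matrix V V ℝ} {K : ℕ} {δ e : ℝ}

theorem ap_eq (k : ℕ) (x : V → (V → κ) → ℝ) (v : V) : ap P k x v = ∑ u, (P ^ k) v u • x u := by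
  funext χ
  rw [Finset.sum_apply]
  rfl

theorem AA_eq (x y : V → (V → κ) → ℝ) (v : V) :
    AA P K x y v = ∑ i ∈ range K, if Even i then ap P i x v else - ap P i y v := by
  funext χ
  rw [Finset.sum_apply]
  show (∑ i ∈ range K, if Even i then ap P i x v χ else - ap P i y v χ) = _
  refine Finset.sum_congr rfl fun i _ => ?_
  by_cases h : Even i
  · rw [if_pos h, if_pos h]
  · rw [if_neg h, if_neg h]
    rfl

theorem ap_zero (x : V → (V → κ) → ℝ) (v : V) : ap P 0 x v = x v := by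
  funext χ
  show ∑ u, (P ^ 0) v u * x u χ = x v χ
  rw [pow_zero, Finset.sum_eq_single v]
  · rw [Matrix.one_apply_eq, one_mul]
  · intro u _ hu
    rw [Matrix.one_apply_ne (Ne.symm hu), zero_mul]
  · intro h
    exact absurd (Finset.mem_univ v) h

theorem ap_ap (i j : ℕ) (x : V → (V → κ) → ℝ) (v : V) : ap P i (ap P j x) v = ap P (i + j) x v := by
  funext χ
  show ∑ u, (P ^ i) v u * ∑ w, (P ^ j) u w * x w χ = ∑ w, (P ^ (i + j)) v w * x w χ
  have h1 : ∀ u, (P ^ i) v u * ∑ w, (P ^ j) u w * x w χ = ∑ w, (P ^ i) v u * (P ^ j) u w * x w χ := by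
    intro u
    rw [Finset.mul_sum]
    exact Finset.sum_congr rfl fun w _ => by ring
  rw [Finset.sum_congr rfl fun u _ => h1 u, Finset.sum_comm]
  refine Finset.sum_congr rfl fun w _ => ?_
  rw [← Finset.sum_mul, pow_add, Matrix.mul_apply]

private theorem Fb_two (n : ℕ) (x y : V → (V → κ) → ℝ) (v : V) (χ : V → κ) :
    AA P (n + n + 2) x y v χ = AA P (n + n) x y v χ + ap P (n + n) x v χ - ap P (n + n + 1) y v χ := by
  have he : Even (n + n) := ⟨n, rfl⟩
  have ho : ¬ Even (n + n + 1) := by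
    rw [Nat.not_even_iff_odd]
    exact he.add_one
  show (∑ i ∈ range (n + n + 2), if Even i then ap P i x v χ else - ap P i y v χ) = _
  rw [Finset.sum_range_succ, Finset.sum_range_succ, if_pos he, if_neg ho, ← sub_eq_add_neg]
  rfl

private theorem Fb_id (n : ℕ) (x y : V → (V → κ) → ℝ) (v : V) (χ : V → κ) :
    AA P (n + n) x y v χ + ap P 1 (AA P (n + n) y x) v χ = x v χ - ap P (n + n) x v χ := by
  induction n with
  | zero =>
    have h1 : ∀ (x y : V → (V → κ) → ℝ) (v : V), AA P (0 + 0) x y v χ = 0 := fun x y v => Finset.sum_range_zero _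
    have h2 : ap P 1 (AA P (0 + 0) y x) v χ = 0 := by
      show ∑ u, (P ^ 1) v u * AA P (0 + 0) y x u χ = 0
      refine Finset.sum_eq_zero fun u _ => ?_
      rw [h1, mul_zero]
    have h3 : ap P (0 + 0) x v χ = x v χ := congrFun (ap_zero x v) χ
    rw [h1, h2, h3]
    ring
  | succ n ih =>
    have e : n + 1 + (n + 1) = n + n + 2 := by ring
    rw [e, Fb_two]
    have h4 : ap P 1 (AA P (n + n + 2) y x) v χ =
        ap P 1 (AA P (n + n) y x) v χ + ap P (n + n + 1) y v χ - ap P (n + n + 2) x v χ := by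
      have h5 : ap P 1 (ap P (n + n) y) v χ = ap P (n + n + 1) y v χ := by
        rw [ap_ap, add_comm 1 (n + n)]
      have h6 : ap P 1 (ap P (n + n + 1) x) v χ = ap P (n + n + 2) x v χ := by
        rw [ap_ap, add_comm 1 (n + n + 1)]
      rw [← h5, ← h6]
      show ∑ u, (P ^ 1) v u * AA P (n + n + 2) y x u χ =
        ∑ u, (P ^ 1) v u * AA P (n + n) y x u χ + ∑ u, (P ^ 1) v u * ap P (n + n) y u χ -
          ∑ u, (P ^ 1) v u * ap P (n + n + 1) x u χ
      rw [← Finset.sum_add_distrib, ← Finset.sum_sub_distrib]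
      refine Finset.sum_congr rfl fun u _ => ?_
      rw [Fb_two]
      ring
    rw [h4]
    linarith

theorem AA_id (hK : Even K) (x y : V → (V → κ) → ℝ) (v : V) (χ : V → κ) :
    AA P K x y v χ + ap P 1 (AA P K y x) v χ = x v χ - ap P K x v χ := by
  obtain ⟨n, rfl⟩ := hK
  exact Fb_id n x y v χ

/-- the basic identity -/
theorem FF_id (hP : PP P K δ e) (x y : V → (V → κ) → ℝ) (t t' : κ) (v : V) (χ : V → κ) :
    FF P K x y t t' v χ = x v χ -
      ∑ w, P v w * ((1 + om t' w χ) * (AA P K x y v χ + AA P K y x w χ - muu P K x y t t' v w)) := by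
  have h1 := AA_id (P := P) hP.Kev x y v χ
  have h2 : ∑ w, P v w = 1 := by
    have h := hP.row 1 v
    rwa [pow_one] at h
  have h3 : ∀ F : V → (V → κ) → ℝ, ap P 1 F v χ = ∑ w, P v w * F w χ := by
    intro F
    show ∑ u, (P ^ 1) v u * F u χ = _
    rw [pow_one]
  have h4 : ∑ w, P v w * ((1 + om t' w χ) * (AA P K x y v χ + AA P K y x w χ - muu P K x y t t' v w)) =
      AA P K x y v χ * ∑ w, P v w + ∑ w, P v w * AA P K y x w χ + AA P K x y v χ * ∑ w, P v w * om t' w χ +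
        ∑ w, P v w * (om t' w χ * AA P K y x w χ) - ∑ w, P v w * muu P K x y t t' v w * (1 + om t' w χ) := by
    rw [Finset.mul_sum, Finset.mul_sum, ← Finset.sum_add_distrib, ← Finset.sum_add_distrib, ← Finset.sum_add_distrib,
      ← Finset.sum_sub_distrib]
    refine Finset.sum_congr rfl fun w _ => ?_
    ring
  rw [h4, h2]
  rw [h3] at h1
  show ap P K x v χ - AA P K x y v χ * ap P 1 (om t') v χ - ap P 1 (fun w χ => om t' w χ * AA P K y x w χ) v χ +
    ∑ w, P v w * muu P K x y t t' v w * (1 + om t' w χ) = _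
  rw [h3, h3]
  linarith

theorem Dv_ap (a : V) (k : ℕ) (x : V → (V → κ) → ℝ) (v : V) : Dv a (ap P k x v) = ap P k (fun u => Dv a (x u)) v := by
  rw [ap_eq, ap_eq, Dv_sum]
  exact Finset.sum_congr rfl fun u _ => Dv_smul a _ _

private theorem Fb_neg (a : V) (F : (V → κ) → ℝ) : Dv a (-F) = -Dv a F := by
  have h := Dv_smul a (-1) F
  rwa [neg_one_smul, neg_one_smul] at h

theorem Dv_AA (a : V) (x y : V → (V → κ) → ℝ) (v : V) :
    Dv a (AA P K x y v) = AA P K (fun u => Dv a (x u)) (fun u => Dv a (y u)) v := by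
  rw [AA_eq, AA_eq, Dv_sum]
  refine Finset.sum_congr rfl fun i _ => ?_
  by_cases h : Even i
  · rw [if_pos h, if_pos h, Dv_ap]
  · rw [if_neg h, if_neg h, Fb_neg, Dv_ap]

theorem ex_ap (k : ℕ) (x : V → (V → κ) → ℝ) (v : V) : ex (ap P k x v) = ∑ u, (P ^ k) v u * ex (x u) := by
  show (∑ χ, ∑ u, (P ^ k) v u * x u χ) / (Fintype.card (V → κ) : ℝ) =
    ∑ u, (P ^ k) v u * ((∑ χ, x u χ) / (Fintype.card (V → κ) : ℝ))
  rw [Finset.sum_comm, Finset.sum_div]
  refine Finset.sum_congr rfl fun u _ => ?_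
  rw [← Finset.mul_sum, mul_div_assoc]

theorem ex_AA_zero (x y : V → (V → κ) → ℝ) (v : V) (hx : ∀ u, ex (x u) = 0) (hy : ∀ u, ex (y u) = 0) :
    ex (AA P K x y v) = 0 := by
  have h1 : ∀ i, ex (ap P i x v) = 0 := by
    intro i
    rw [ex_ap]
    exact Finset.sum_eq_zero fun u _ => by rw [hx u, mul_zero]
  have h2 : ∀ i, ex (ap P i y v) = 0 := by
    intro i
    rw [ex_ap]
    exact Finset.sum_eq_zero fun u _ => by rw [hy u, mul_zero]
  have h3 : ∀ i, (∑ χ, if Even i then ap P i x v χ else - ap P i y v χ) / (Fintype.card (V → κ) : ℝ) = 0 := by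
    intro i
    by_cases h : Even i
    · simp only [if_pos h]
      exact h1 i
    · simp only [if_neg h]
      rw [Finset.sum_neg_distrib, neg_div, neg_eq_zero]
      exact h2 i
  show (∑ χ, ∑ i ∈ range K, if Even i then ap P i x v χ else - ap P i y v χ) / (Fintype.card (V → κ) : ℝ) = 0
  rw [Finset.sum_comm, Finset.sum_div]
  exact Finset.sum_eq_zero fun i _ => h3 i

theorem Dg_ap {d : ℕ} (k : ℕ) (x : V → (V → κ) → ℝ) (v : V) (hx : ∀ u, x u ∈ Dg V κ d) : ap P k x v ∈ Dg V κ d := by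
  rw [ap_eq]
  exact Submodule.sum_mem _ fun u _ => Submodule.smul_mem _ _ (hx u)

theorem Dg_AA {d : ℕ} (x y : V → (V → κ) → ℝ) (v : V) (hx : ∀ u, x u ∈ Dg V κ d) (hy : ∀ u, y u ∈ Dg V κ d) :
    AA P K x y v ∈ Dg V κ d := by
  rw [AA_eq]
  refine Submodule.sum_mem _ fun i _ => ?_
  by_cases h : Even i
  · rw [if_pos h]
    exact Dg_ap i x v hx
  · rw [if_neg h]
    exact Submodule.neg_mem _ (Dg_ap i y v hy)

theorem nm_ap_le (hP : PP P K δ e) (k : ℕ) (x : V → (V → κ) → ℝ) (v : V) :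
    nm (ap P k x v) ≤ ∑ u, (P ^ k) v u * nm (x u) := by
  rw [ap_eq]
  refine (nm_sum_le _ _).trans (le_of_eq ?_)
  refine Finset.sum_congr rfl fun u _ => ?_
  rw [nm_smul, abs_of_nonneg (hP.nn k v u)]

theorem nm_AA_le (hP : PP P K δ e) (x y : V → (V → κ) → ℝ) (v : V) :
    nm (AA P K x y v) ≤ ∑ i ∈ range K, if Even i then nm (ap P i x v) else nm (ap P i y v) := by
  rw [AA_eq]
  refine (nm_sum_le _ _).trans (le_of_eq ?_)
  refine Finset.sum_congr rfl fun i _ => ?_
  by_cases h : Even i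
  · rw [if_pos h, if_pos h]
  · rw [if_neg h, if_neg h, nm_neg]

end

end Pool.Agent.H33.LN
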