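import Pool.Agent.H33.LN.Fb

/-!
Row LNH_Fm: the new field is independent of its own coordinate and centred; the telescoping identity; symmetry of the corrections.
PROOFS. `nx_own`: `rs_rs`. `nx_mean`: by `FF_id`, `nx = rs v t (x v) - ∑_w P v w * rs v t ((1 + om t' w) * (A v + B w - μ))`; `ex (rs v t (x v)) = ex (x v) = 0` (`hown`);
`w = v` has `P v v = 0`; for `w ≠ v`: `ce_om` gives `ce (A v) + ce (B w) - μ = 0` by the definition of `muu` (`ce` is additive, `ce 1 = 1`).
`wsum`: by `FF_id` for `k < 6`: if `χ v = t` then `fd (k+1) t t' v χ = FF .. v χ` (`Function.update_eq_self`), so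
`∑_w P v w (1 + om t' w χ)(A_k v + B_k w - μ_k) = fd k - fd (k+1)`; sum over `k`, and `∑_w P v w (1 + om t' w χ) = 1 - fd 0 t t' v χ` (row sums, `pow_one`).
`mk_symm`: `ce_symm`.
-/

set_option autoImplicit false
set_option linter.unusedSectionVars false

namespace Pool.Agent.H33.LN

open Finset Classical
open Pool.Agent.H65.GI
open Pool.Agent.H12.LN

section
variable {V κ : Type} [Fintype V] [Fintype κ] [Nonempty κ] {P : Matrix V V ℝ} {K : ℕ} {δ e : ℝ}

theorem nx_own (x y : V → (V → κ) → ℝ) (t t' : κ) (v : V) (s : κ) : rs v s (nx P K x y t t' v) = nx P K x y t t' v := by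
  unfold nx
  exact rs_rs v s t _

theorem nx_mean (hP : PP P K δ e) (x y : V → (V → κ) → ℝ) (t t' : κ) (v : V) (hown : ∀ s, rs v s (x v) = x v)
    (hmean : ex (x v) = 0) : ex (nx P K x y t t' v) = 0 := by
  have e1 : nx P K x y t t' v = fun χ => x v χ + ∑ w, (- P v w) *
      rs v t (fun χ => (1 + om t' w χ) * (AA P K x y v χ + AA P K y x w χ - muu P K x y t t' v w)) χ := by
    funext χ
    have h1 : nx P K x y t t' v χ = FF P K x y t t' v (Function.update χ v t) := rfl
    rw [h1, FF_id hP]
    have h2 : x v (Function.update χ v t) = x v χ := congrFun (hown t) χ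
    rw [h2, sub_eq_add_neg, ← Finset.sum_neg_distrib]
    refine congrArg₂ _ rfl (Finset.sum_congr rfl fun w _ => ?_)
    rw [neg_mul]
    rfl
  have e2 : ∀ w, (- P v w) *
      ex (rs v t (fun χ => (1 + om t' w χ) * (AA P K x y v χ + AA P K y x w χ - muu P K x y t t' v w))) = 0 := by
    intro w
    by_cases hw : v = w
    · rw [← hw, hP.diag v, neg_zero, zero_mul]
    · have h3 := ce_om hw t t' (fun χ => AA P K x y v χ + AA P K y x w χ - muu P K x y t t' v w)
      have h4 : ce v w t t' (fun χ => AA P K x y v χ + AA P K y x w χ - muu P K x y t t' v w) = 0 := by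
        have h5 : ce v w t t' (fun χ => AA P K x y v χ + AA P K y x w χ - muu P K x y t t' v w) =
            ce v w t t' (AA P K x y v) + ce v w t t' (AA P K y x w) + (- muu P K x y t t' v w) := by
          unfold ce rs
          rw [← ex_const (Ω := V → κ) (- muu P K x y t t' v w), ← ex_add, ← ex_add]
          rfl
        rw [h5]
        unfold muu
        ring
      rw [h4] at h3
      rw [h3, mul_zero]
  rw [e1, ex_add, hmean, zero_add, ex_sum]
  refine Finset.sum_eq_zero fun w _ => ?_
  rw [ex_smul]
  exact e2 w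

theorem mk_symm (k : ℕ) (t t' : κ) {v w : V} (h : v ≠ w) : mk P K k t t' v w = mk P K k t' t w v := by
  unfold mk muu
  rw [ce_symm h t t', ce_symm h t t', add_comm]

/-- the telescoping identity -/
theorem wsum (hP : PP P K δ e) (n : ℕ) (t t' : κ) (v : V) (χ : V → κ) (hv : χ v = t) :
    ∑ w, P v w * ((1 + om t' w χ) * (1 + ∑ k ∈ range n, (AF P K k t t' v χ + AF P K k t' t w χ - mk P K k t t' v w))) =
      1 - fd P K n t t' v χ := by
  induction n with
  | zero =>
    have h1 : fd P K 0 t t' v χ = - ∑ w, (P ^ 1) v w * om t' w χ := rfl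
    have h2 := hP.row 1 v
    have h5 : ∑ w, P v w * ((1 + om t' w χ) *
        (1 + ∑ k ∈ range 0, (AF P K k t t' v χ + AF P K k t' t w χ - mk P K k t t' v w))) =
        ∑ w, ((P ^ 1) v w + (P ^ 1) v w * om t' w χ) := by
      refine Finset.sum_congr rfl fun w _ => ?_
      rw [pow_one, Finset.range_zero, Finset.sum_empty]
      ring
    rw [h5, h1, sub_neg_eq_add, Finset.sum_add_distrib, h2]
  | succ n ih =>
    have h1 : fd P K (n + 1) t t' v χ = FF P K (fd P K n t t') (fd P K n t' t) t t' v (Function.update χ v t) := rfl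
    have h2 : Function.update χ v t = χ := by
      rw [← hv]
      exact Function.update_eq_self v χ
    have h3 : ∑ w, P v w * ((1 + om t' w χ) * (AF P K n t t' v χ + AF P K n t' t w χ - mk P K n t t' v w)) =
        fd P K n t t' v χ - fd P K (n + 1) t t' v χ := by
      rw [h1, h2, FF_id hP, sub_sub_cancel]
      rfl
    have h4 : (1 - fd P K (n + 1) t t' v χ) = (1 - fd P K n t t' v χ) + (fd P K n t t' v χ - fd P K (n + 1) t t' v χ) := by
      ring
    rw [h4, ← ih, ← h3, ← Finset.sum_add_distrib]
    refine Finset.sum_congr rfl fun w _ => ?_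
    rw [Finset.sum_range_succ]
    ring

end

end Pool.Agent.H33.LN
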