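import Pool.Agent.H33.LN.DgF

/-!
Row LNH_H1: the two consequences of orthogonality.
PROOFS. `h1a`: for every finset `S` of coordinates and every `d`, `F`: `∑ a ∈ S, nm (Dv a F) ^ 2 ≤ d * nm F ^ 2`; induction on `S` (for all `d`, `F`).
Step `insert b S`. If `d = 0`, `F` is constant (`Dg_zero`) and every `Dv a F = 0`. If `d = d' + 1`: `F0 := av b F`, `F1 := Dv b F`; for `a ∈ S`:
`nm (Dv a F) ^ 2 = nm (Dv a F0) ^ 2 + nm (Dv a F1) ^ 2` (`nm_pyth b` for `Dv a F`, `Dv_av`, `Dv_comm`); induction hypothesis for `F0` (degree `d`):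
`∑ nm (Dv a F0) ^ 2 ≤ d * nm F0 ^ 2`; for `F1`: `card κ * nm (Dv a F1) ^ 2 = ∑ t, nm (rs b t (Dv a F1)) ^ 2 = ∑ t, nm (Dv a (rs b t F1)) ^ 2`
(`a ≠ b`), and `rs b t F1` has degree `d'` (`Dg_rs_Dv`), so `∑ a ∈ S, nm (Dv a F1) ^ 2 ≤ d' * nm F1 ^ 2`. Add `nm (Dv b F) ^ 2 = nm F1 ^ 2`.
`h1b`: for a list `l` of coordinates (`avl`, H12/LN/Mcd): `|ex (F * G) - ex (avl F l * avl G l)| ≤ ∑ over l of nm (Dv a F) * nm (Dv a G)`:
`ex (U * W) = ex (av a U * av a W) + ex (Dv a U * Dv a W)`, `|ex (Dv a U * Dv a W)| ≤ nm (Dv a U) * nm (Dv a W)` with `U = avl F l`, and `Dv a` commutes with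
`avl`, which does not increase `nm`. Take `l = univ.toList`: `avl F l` is the constant `ex F = 0` (`avl_const`, `ex_avl`).
-/

set_option autoImplicit false
set_option linter.unusedSectionVars false

namespace Pool.Agent.H33.LN

open Finset Classical
open Pool.Agent.H65.GI
open Pool.Agent.H12.LN

section
variable {I κ : Type} [Fintype I] [Fintype κ] [Nonempty κ]

private theorem H1_a (S : Finset I) : ∀ (d : ℕ) (F : (I → κ) → ℝ), F ∈ Dg I κ d →
    ∑ a ∈ S, nm (Dv a F) ^ 2 ≤ d * nm F ^ 2 := by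
  induction S using Finset.induction_on with
  | empty =>
    intro d F _
    rw [sum_empty]
    positivity
  | insert b S hb ih =>
    intro d F hF
    cases d with
    | zero =>
      have h0 : ∀ a, nm (Dv a F) ^ 2 = 0 := by
        intro a
        rw [Dv_loc a F ∅ (fun ω ω' _ => Dg_zero hF ω ω') (notMem_empty a), nm_zero]
        norm_num
      rw [sum_congr rfl fun a _ => h0 a, sum_const_zero, Nat.cast_zero, zero_mul]
    | succ d =>
      have hK : (0 : ℝ) < Fintype.card κ := by exact_mod_cast Fintype.card_pos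
      have e1 : ∀ a, nm (Dv a F) ^ 2 = nm (Dv a (av b F)) ^ 2 + nm (Dv a (Dv b F)) ^ 2 := by
        intro a
        rw [nm_pyth b (Dv a F), Dv_av, Dv_comm b a]
      have e2 := ih (d + 1) (av b F) (Dg_av b hF)
      have e3 : ∑ a ∈ S, nm (Dv a (Dv b F)) ^ 2 ≤ d * nm (Dv b F) ^ 2 := by
        have f1 : ∀ t : κ, ∑ a ∈ S, nm (rs b t (Dv a (Dv b F))) ^ 2 ≤ d * nm (rs b t (Dv b F)) ^ 2 := by
          intro t
          refine le_trans (le_of_eq ?_) (ih d (rs b t (Dv b F)) (Dg_rs_Dv b t hF))
          refine sum_congr rfl fun a ha => ?_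
          have hab : a ≠ b := fun h => hb (by rw [← h]; exact ha)
          rw [Dv_rs hab]
        have f2 := sum_le_sum fun t (_ : t ∈ (univ : Finset κ)) => f1 t
        rw [← mul_sum, nm_rs_sum, sum_comm, sum_congr rfl fun a _ => nm_rs_sum b (Dv a (Dv b F)), ← mul_sum] at f2
        have f3 : (Fintype.card κ : ℝ) * ∑ a ∈ S, nm (Dv a (Dv b F)) ^ 2 ≤
            (Fintype.card κ : ℝ) * (d * nm (Dv b F) ^ 2) := by
          refine f2.trans (le_of_eq ?_)
          ring
        exact le_of_mul_le_mul_left f3 hK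
      rw [sum_insert hb, sum_congr rfl fun a _ => e1 a, sum_add_distrib, nm_pyth b F]
      push_cast at e2 ⊢
      nlinarith

theorem h1a {d : ℕ} {F : (I → κ) → ℝ} (hF : F ∈ Dg I κ d) : ∑ a, nm (Dv a F) ^ 2 ≤ d * nm F ^ 2 :=
  H1_a univ d F hF

private theorem H1_dv (a : I) (F : (I → κ) → ℝ) (l : List I) : nm (Dv a (avl F l)) ≤ nm (Dv a F) := by
  induction l with
  | nil => exact le_refl _
  | cons b l ih =>
    show nm (Dv a (av b (avl F l))) ≤ nm (Dv a F)
    rw [Dv_av]
    exact (nm_av_le b _).trans ih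

private theorem H1_sub (U W : (I → κ) → ℝ) : ex (U - W) = ex U - ex W := by
  have h := ex_add (fun ω => (U - W) ω) W
  have e : (fun ω => (U - W) ω + W ω) = U := by
    funext ω
    show U ω - W ω + W ω = U ω
    ring
  rw [e] at h
  rw [h]
  show ex (U - W) = ex (U - W) + ex W - ex W
  ring

private theorem H1_split (a : I) (U W : (I → κ) → ℝ) :
    ex (U * W) = ex (av a U * av a W) + ex (Dv a U * Dv a W) := by
  have h1 : ex (av a W * Dv a U) = 0 := by
    rw [ex_av_mul a W (Dv a U), av_Dv_self, mul_zero]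
    unfold ex
    simp
  have h2 : ex (av a U * W) = ex (av a U * av a W) := ex_av_mul a U W
  have e : Dv a U * Dv a W = U * W - av a U * W - av a W * Dv a U := by
    funext ω
    show (U ω - av a U ω) * (W ω - av a W ω) = U ω * W ω - av a U ω * W ω - av a W ω * (U ω - av a U ω)
    ring
  rw [e, H1_sub, H1_sub, h1, h2]
  ring

private theorem H1_b (F G : (I → κ) → ℝ) (l : List I) :
    |ex (F * G) - ex (avl F l * avl G l)| ≤ (l.map fun a => nm (Dv a F) * nm (Dv a G)).sum := by
  induction l with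
  | nil =>
    show |ex (F * G) - ex (F * G)| ≤ 0
    rw [sub_self, abs_zero]
  | cons a l ih =>
    have h1 := H1_split a (avl F l) (avl G l)
    have h2 : |ex (Dv a (avl F l) * Dv a (avl G l))| ≤ nm (Dv a F) * nm (Dv a G) :=
      (ex_mul_le _ _).trans (mul_le_mul (H1_dv a F l) (H1_dv a G l) (nm_nonneg _) (nm_nonneg _))
    rw [List.map_cons, List.sum_cons]
    show |ex (F * G) - ex (av a (avl F l) * av a (avl G l))| ≤ _
    have e : ex (F * G) - ex (av a (avl F l) * av a (avl G l)) =
        (ex (F * G) - ex (avl F l * avl G l)) + ex (Dv a (avl F l) * Dv a (avl G l)) := by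
      rw [h1]
      ring
    rw [e]
    refine (abs_add_le _ _).trans ?_
    linarith

private theorem H1_loc (F : (I → κ) → ℝ) (l : List I) : Loc (avl F l) (univ.filter fun a => a ∉ l) := by
  induction l with
  | nil =>
    intro ω ω' h
    have : ω = ω' := by
      funext i
      exact h i (by simp)
    rw [this]
  | cons a l ih =>
    have h := loc_av a (avl F l) _ ih
    have e : ((univ : Finset I).filter fun b => b ∉ l).erase a = univ.filter fun b => b ∉ a :: l := by
      ext b
      simp only [mem_erase, mem_filter, mem_univ, true_and, List.mem_cons, not_or]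
    rw [e] at h
    exact h

theorem h1b (F G : (I → κ) → ℝ) (hF : ex F = 0) : |ex (F * G)| ≤ ∑ a, nm (Dv a F) * nm (Dv a G) := by
  obtain ⟨l, hl⟩ : ∃ l, l = (univ : Finset I).toList := ⟨_, rfl⟩
  have h1 := H1_b F G l
  have h2 : avl F l = 0 := by
    have hc : ∀ ω ω', avl F l ω = avl F l ω' := by
      intro ω ω'
      refine H1_loc F l ω ω' fun i hi => ?_
      have h3 := (mem_filter.1 hi).2
      rw [hl] at h3
      exact absurd (mem_toList.2 (mem_univ i)) h3
    funext ω
    have h4 : avl F l = fun _ => avl F l ω := funext fun ω' => hc ω' ω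
    have h5 := ex_avl F l
    rw [h4, ex_const, hF] at h5
    exact h5
  have h3 : ex (avl F l * avl G l) = 0 := by
    rw [h2, zero_mul]
    unfold ex
    simp
  rw [h3, sub_zero, hl, Finset.sum_map_toList] at h1
  exact h1

end

end Pool.Agent.H33.LN
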