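import Pool.Agent.H33.LN.DgF

/-!
Row LNH_H2: hypercontractivity for functions of degree at most `d` on a product of uniform spaces with `m = card κ` points.
PROOFS. `bin_le`: for real `x, y ≥ 0`, `A = x ^ 2`, `B = y ^ 2`: `(x + y) ^ (2 r) - 2 r x ^ (2 r - 1) y ≤ (x ^ 2 + 5 r ^ 2 y ^ 2) ^ r`. Binomial theorem; for
odd `k = 2 j + 1 ≥ 3`: `x ^ (2r-k) y ^ k ≤ (x ^ (2r-2j) y ^ (2j) + x ^ (2r-2j-2) y ^ (2j+2)) / 2`. So the coefficient of `x ^ (2r-2j) y ^ (2j)`, `j ≥ 1`, is at most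
`C(2r,2j) + (C(2r,2j-1) [j ≥ 2] + C(2r,2j+1)) / 2`, and `C(2r,2j) ≤ (2r) ^ j C(r,j)`, `C(2r,2j±1) ≤ 2 r C(2r,2j)`: at most `(2r) ^ j (1 + 2 r) C(r,j) ≤ (5 r ^ 2) ^ j C(r,j)`
(for `j = 1` use `(2r)(1+r) ≤ 5 r ^ 2` since the neighbour `k = 1` is absent; for `j ≥ 2`: `(1 + 2r) ≤ (5r/2) ^ j`). [Any other proof is fine: e.g. induction on `r`, or
the pointwise inequality `(x+y)^(2r) - 2r x^(2r-1) y ≤ (x^2+5r^2y^2)^r` for REAL `x, y` by calculus.]
`mom_step`: `F0, F1` random variables, `ex (F0 ^ (2r-1) * F1) = 0`, `ex (F0 ^ (2r)) ≤ A ^ r`, `ex (F1 ^ (2r)) ≤ B ^ r`, `A, B ≥ 0`: `ex ((F0 + F1) ^ (2r)) ≤ (A + 5 r ^ 2 B) ^ r`: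
expand; `|ex (F0 ^ (2r-k) F1 ^ k)| ≤ (A ^ r) ^ ((2r-k)/2r) (B ^ r) ^ (k/2r)` (Hölder) `= sqrt A ^ (2r-k) * sqrt B ^ k`; then `bin_le` with `x = sqrt A`, `y = sqrt B`. (To avoid Hölder: if the
pointwise real inequality holds for all real `x, y`, apply it as follows: for `A, B > 0` put `F0 = sqrt A u`, `F1 = sqrt B w` with `ex u^(2r) ≤ 1`, `ex w^(2r) ≤ 1`; then
`|ex (u^(2r-k) w^k)| ≤ ex ((2r-k)/(2r) u^(2r) + k/(2r) w^(2r)) ≤ 1` by weighted AM-GM (`Real.inner_le_nnorm_mul_nnorm` not needed).)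
`h2`: induction on a finset `S` with `Loc F S`: `F0 = av b F`, `F1 = Dv b F` as in `H1.lean`: `F0` lives on `S.erase b`, `rs b t F1` has degree `d - 1` and lives on
`S.erase b`; `ex (F1 ^ (2r)) = (1/m) ∑ t, ex ((rs b t F1) ^ (2r)) ≤ (1/m) ∑ t, ((5r^2m)^(d-1) nm (rs b t F1)^2)^r ≤ ((5r^2m)^(d-1) ∑ t, nm (rs b t F1)^2)^r = ((5r^2m)^(d-1) m nm F1^2)^r`.
Base: `F` constant.
-/

set_option autoImplicit false
set_option linter.unusedSectionVars false

namespace Pool.Agent.H33.LN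

open Finset Classical
open Pool.Agent.H65.GI
open Pool.Agent.H12.LN

/-! ### The pointwise inequality -/

private theorem H2_unit (r : ℕ) (hr : 1 ≤ r) (y : ℝ) (hy : 0 ≤ y) :
    (1 + y) ^ (2 * r) - 2 * r * y ≤ (1 + 5 * r ^ 2 * y ^ 2) ^ r := by
  have hr1 : (1 : ℝ) ≤ r := by exact_mod_cast hr
  have hr2 : (1 : ℝ) ≤ (r : ℝ) ^ 2 := one_le_pow₀ hr1
  rcases le_or_gt 2 ((5 * (r : ℝ) ^ 2 - 1) * y) with h | h
  · have h1 : (1 + y) ^ 2 ≤ 1 + 5 * (r : ℝ) ^ 2 * y ^ 2 := by nlinarith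
    have h2 : (1 + y) ^ (2 * r) ≤ (1 + 5 * (r : ℝ) ^ 2 * y ^ 2) ^ r := by
      rw [pow_mul]
      exact pow_le_pow_left₀ (sq_nonneg _) h1 r
    have h3 : 0 ≤ 2 * (r : ℝ) * y := by positivity
    linarith
  · have hz : 2 * (r : ℝ) * y ≤ 1 := by
      have h4 : 4 * (r : ℝ) * y ≤ (5 * (r : ℝ) ^ 2 - 1) * y := by
        refine mul_le_mul_of_nonneg_right ?_ hy
        nlinarith
      linarith
    have hz0 : 0 ≤ 2 * (r : ℝ) * y := by positivity
    have h1 : (1 + y) ^ (2 * r) ≤ Real.exp (2 * r * y) := by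
      have h5 : 1 + y ≤ Real.exp y := by
        rw [add_comm]
        exact Real.add_one_le_exp y
      have h6 : (1 + y) ^ (2 * r) ≤ Real.exp y ^ (2 * r) := pow_le_pow_left₀ (by linarith) h5 _
      rw [← Real.exp_nat_mul] at h6
      have h7 : ((2 * r : ℕ) : ℝ) * y = 2 * r * y := by
        push_cast
        ring
      rwa [h7] at h6
    have h2 : Real.exp (2 * r * y) ≤ 1 + 2 * r * y + (2 * r * y) ^ 2 := by
      have h8 := Real.abs_exp_sub_one_sub_id_le (x := 2 * (r : ℝ) * y) (by rw [abs_of_nonneg hz0]; exact hz)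
      have h9 := (abs_le.1 h8).2
      linarith
    have h3 : 1 + (r : ℝ) * (5 * r ^ 2 * y ^ 2) ≤ (1 + 5 * (r : ℝ) ^ 2 * y ^ 2) ^ r :=
      one_add_mul_le_pow (by have : 0 ≤ 5 * (r : ℝ) ^ 2 * y ^ 2 := by positivity
                             linarith) r
    have h4 : (2 * (r : ℝ) * y) ^ 2 ≤ (r : ℝ) * (5 * r ^ 2 * y ^ 2) := by
      have h10 : 0 ≤ (r : ℝ) ^ 2 * y ^ 2 := by positivity
      nlinarith
    linarith

theorem bin_le (r : ℕ) (hr : 1 ≤ r) (x y : ℝ) (hx : 0 ≤ x) (hy : 0 ≤ y) :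
    (x + y) ^ (2 * r) - 2 * r * x ^ (2 * r - 1) * y ≤ (x ^ 2 + 5 * r ^ 2 * y ^ 2) ^ r := by
  have hr1 : (1 : ℝ) ≤ r := by exact_mod_cast hr
  rcases hx.eq_or_lt with h | h
  · have h0 : 2 * r - 1 ≠ 0 := by omega
    rw [← h, zero_pow h0, zero_pow two_ne_zero, zero_add, zero_add, mul_zero, zero_mul, sub_zero, pow_mul]
    refine pow_le_pow_left₀ (sq_nonneg _) ?_ r
    have h1 : (1 : ℝ) ≤ (r : ℝ) ^ 2 := one_le_pow₀ hr1
    have h2 : 0 ≤ y ^ 2 := sq_nonneg y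
    nlinarith
  · have h1 := H2_unit r hr (y / x) (div_nonneg hy hx)
    have h2 : (0 : ℝ) ≤ (x ^ 2) ^ r := by positivity
    have h3 := mul_le_mul_of_nonneg_left h1 h2
    have e1 : (x ^ 2) ^ r * ((1 + y / x) ^ (2 * r)) = (x + y) ^ (2 * r) := by
      rw [← pow_mul, ← mul_pow]
      congr 1
      field_simp
    have e2 : (x ^ 2) ^ r * (2 * r * (y / x)) = 2 * r * x ^ (2 * r - 1) * y := by
      have e3 : (x ^ 2) ^ r = x ^ (2 * r - 1) * x := by
        rw [← pow_mul, ← pow_succ]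
        congr 1
        omega
      rw [e3]
      field_simp
    have e4 : (x ^ 2) ^ r * (1 + 5 * (r : ℝ) ^ 2 * (y / x) ^ 2) ^ r = (x ^ 2 + 5 * r ^ 2 * y ^ 2) ^ r := by
      rw [← mul_pow]
      congr 1
      field_simp
    rw [mul_sub, e1, e2, e4] at h3
    exact h3

/-- The odd part of `(x + s) ^ n`. -/
private theorem H2_odd (x s : ℝ) (hx : 0 ≤ x) (hs : 0 ≤ s) (n : ℕ) :
    2 * x ^ n ≤ (x + s) ^ n + (x - s) ^ n ∧ 2 * (n : ℝ) * x ^ (n - 1) * s ≤ (x + s) ^ n - (x - s) ^ n := by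
  induction n with
  | zero =>
    constructor
    · norm_num
    · norm_num
  | succ n ih =>
    obtain ⟨h1, h2⟩ := ih
    have h3 : (x + s) ^ (n + 1) + (x - s) ^ (n + 1) =
        x * ((x + s) ^ n + (x - s) ^ n) + s * ((x + s) ^ n - (x - s) ^ n) := by
      rw [pow_succ, pow_succ]
      ring
    have h4 : (x + s) ^ (n + 1) - (x - s) ^ (n + 1) =
        x * ((x + s) ^ n - (x - s) ^ n) + s * ((x + s) ^ n + (x - s) ^ n) := by
      rw [pow_succ, pow_succ]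
      ring
    have h5 : 0 ≤ 2 * (n : ℝ) * x ^ (n - 1) * s := by positivity
    have h6 : x * (2 * x ^ n) ≤ x * ((x + s) ^ n + (x - s) ^ n) := mul_le_mul_of_nonneg_left h1 hx
    have h7 : s * (2 * x ^ n) ≤ s * ((x + s) ^ n + (x - s) ^ n) := mul_le_mul_of_nonneg_left h1 hs
    have h8 : x * (2 * (n : ℝ) * x ^ (n - 1) * s) ≤ x * ((x + s) ^ n - (x - s) ^ n) := mul_le_mul_of_nonneg_left h2 hx
    have h9 : 0 ≤ s * ((x + s) ^ n - (x - s) ^ n) := mul_nonneg hs (h5.trans h2)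
    constructor
    · rw [h3, pow_succ]
      linarith
    · rw [h4, Nat.add_sub_cancel]
      have h10 : x * (2 * (n : ℝ) * x ^ (n - 1) * s) = 2 * (n : ℝ) * x ^ n * s := by
        rcases Nat.eq_zero_or_pos n with h | h
        · subst h
          norm_num
        · have h11 : x ^ n = x ^ (n - 1) * x := by
            rw [← pow_succ]
            congr 1
            omega
          rw [h11]
          ring
      rw [h10] at h8
      push_cast
      linarith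

private theorem H2_nonneg (r : ℕ) (hr : 1 ≤ r) (x y : ℝ) (hx : 0 ≤ x) :
    (x + y) ^ (2 * r) - 2 * r * (x ^ (2 * r - 1) * y) ≤ (x ^ 2 + 5 * r ^ 2 * y ^ 2) ^ r := by
  rcases le_total 0 y with hy | hy
  · have h := bin_le r hr x y hx hy
    rw [← mul_assoc]
    exact h
  · have h := bin_le r hr x (-y) hx (by linarith)
    have h2 := (H2_odd x (-y) hx (by linarith) (2 * r)).2
    rw [neg_sq] at h
    push_cast at h2
    have e : x - -y = x + y := by ring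
    rw [e] at h2
    nlinarith

private theorem H2_real (r : ℕ) (hr : 1 ≤ r) (x y : ℝ) :
    (x + y) ^ (2 * r) ≤ 2 * r * (x ^ (2 * r - 1) * y) + (x ^ 2 + 5 * r ^ 2 * y ^ 2) ^ r := by
  rcases le_total 0 x with hx | hx
  · have h := H2_nonneg r hr x y hx
    linarith
  · have h := H2_nonneg r hr (-x) (-y) (by linarith)
    have e1 : (-x + -y) ^ (2 * r) = (x + y) ^ (2 * r) := by
      rw [pow_mul, pow_mul]
      congr 1
      ring
    have e2 : (-x) ^ (2 * r - 1) * -y = x ^ (2 * r - 1) * y := by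
      have ho : Odd (2 * r - 1) := ⟨r - 1, by omega⟩
      rw [ho.neg_pow]
      ring
    rw [e1, e2, neg_sq, neg_sq] at h
    linarith

/-! ### Minkowski -/

private theorem H2_mink {Ω : Type} [Fintype Ω] (r : ℕ) (hr : 1 ≤ r) (f g : Ω → ℝ) (A B : ℝ) (hA : 0 ≤ A) (hB : 0 ≤ B)
    (hf : ∀ ω, 0 ≤ f ω) (hg : ∀ ω, 0 ≤ g ω) (hf1 : ex (fun ω => f ω ^ r) ≤ A ^ r) (hg1 : ex (fun ω => g ω ^ r) ≤ B ^ r) :
    ex (fun ω => (f ω + g ω) ^ r) ≤ (A + B) ^ r := by
  have hr0 : r ≠ 0 := by omega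
  rcases Nat.eq_zero_or_pos (Fintype.card Ω) with h | h
  · unfold ex
    rw [h, Nat.cast_zero, div_zero]
    positivity
  · have hn : (0 : ℝ) < Fintype.card Ω := by exact_mod_cast h
    set n : ℝ := (Fintype.card Ω : ℝ) with hn'
    unfold ex at hf1 hg1 ⊢
    rw [div_le_iff₀ hn] at hf1 hg1 ⊢
    have hM := Real.Lp_add_le_of_nonneg Finset.univ (f := f) (g := g) (p := (r : ℝ)) (by exact_mod_cast hr)
      (fun i _ => hf i) (fun i _ => hg i)
    simp only [Real.rpow_natCast, one_div] at hM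
    have hu : ∀ (C : ℝ), 0 ≤ C → ∀ S : ℝ, 0 ≤ S → S ≤ C ^ r * n → S ^ ((r : ℝ)⁻¹) ≤ C * n ^ ((r : ℝ)⁻¹) := by
      intro C hC S hS hle
      have h1 : S ^ ((r : ℝ)⁻¹) ≤ (C ^ r * n) ^ ((r : ℝ)⁻¹) :=
        Real.rpow_le_rpow hS hle (by positivity)
      rw [Real.mul_rpow (by positivity) hn.le, Real.pow_rpow_inv_natCast hC hr0] at h1
      exact h1
    have h1 := hu A hA _ (Finset.sum_nonneg fun i _ => pow_nonneg (hf i) r) hf1
    have h2 := hu B hB _ (Finset.sum_nonneg fun i _ => pow_nonneg (hg i) r) hg1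
    have hS0 : 0 ≤ ∑ i, (f i + g i) ^ r := Finset.sum_nonneg fun i _ => pow_nonneg (add_nonneg (hf i) (hg i)) r
    have h3 : (∑ i, (f i + g i) ^ r) ^ ((r : ℝ)⁻¹) ≤ (A + B) * n ^ ((r : ℝ)⁻¹) := by
      rw [add_mul]
      exact hM.trans (add_le_add h1 h2)
    have h4 := pow_le_pow_left₀ (Real.rpow_nonneg hS0 _) h3 r
    rw [Real.rpow_inv_natCast_pow hS0 hr0, mul_pow, Real.rpow_inv_natCast_pow hn.le hr0] at h4
    exact h4

theorem mom_step {Ω : Type} [Fintype Ω] (r : ℕ) (hr : 1 ≤ r) (F0 F1 : Ω → ℝ) (A B : ℝ) (hA : 0 ≤ A) (hB : 0 ≤ B)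
    (h0 : ex (fun ω => F0 ω ^ (2 * r - 1) * F1 ω) = 0) (hF0 : ex (fun ω => F0 ω ^ (2 * r)) ≤ A ^ r)
    (hF1 : ex (fun ω => F1 ω ^ (2 * r)) ≤ B ^ r) :
    ex (fun ω => (F0 ω + F1 ω) ^ (2 * r)) ≤ (A + 5 * r ^ 2 * B) ^ r := by
  have h1 : ex (fun ω => (F0 ω + F1 ω) ^ (2 * r)) ≤
      ex (fun ω => 2 * r * (F0 ω ^ (2 * r - 1) * F1 ω) + (F0 ω ^ 2 + 5 * r ^ 2 * F1 ω ^ 2) ^ r) :=
    ex_mono fun ω => H2_real r hr _ _
  have h2 : ex (fun ω => 2 * r * (F0 ω ^ (2 * r - 1) * F1 ω) + (F0 ω ^ 2 + 5 * r ^ 2 * F1 ω ^ 2) ^ r) =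
      2 * r * ex (fun ω => F0 ω ^ (2 * r - 1) * F1 ω) + ex (fun ω => (F0 ω ^ 2 + 5 * r ^ 2 * F1 ω ^ 2) ^ r) := by
    unfold ex
    rw [Finset.sum_add_distrib, ← Finset.mul_sum]
    ring
  rw [h2, h0, mul_zero, zero_add] at h1
  refine h1.trans (H2_mink r hr _ _ A (5 * r ^ 2 * B) hA (by positivity) (fun ω => sq_nonneg _)
    (fun ω => by positivity) ?_ ?_)
  · have e : (fun ω => (F0 ω ^ 2) ^ r) = fun ω => F0 ω ^ (2 * r) := by
      funext ω
      rw [pow_mul]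
    rw [e]
    exact hF0
  · have e : ex (fun ω => (5 * (r : ℝ) ^ 2 * F1 ω ^ 2) ^ r) = (5 * (r : ℝ) ^ 2) ^ r * ex (fun ω => F1 ω ^ (2 * r)) := by
      unfold ex
      rw [← mul_div_assoc, Finset.mul_sum]
      congr 1
      refine Finset.sum_congr rfl fun ω _ => ?_
      show (5 * (r : ℝ) ^ 2 * F1 ω ^ 2) ^ r = (5 * (r : ℝ) ^ 2) ^ r * F1 ω ^ (2 * r)
      rw [mul_pow (5 * (r : ℝ) ^ 2) (F1 ω ^ 2) r, ← pow_mul (F1 ω)]
    rw [e, mul_pow (5 * (r : ℝ) ^ 2) B r]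
    exact mul_le_mul_of_nonneg_left hF1 (by positivity)

section
variable {I κ : Type} [Fintype I] [Fintype κ] [Nonempty κ]

private theorem H2_pow_sum (r : ℕ) (hr : 1 ≤ r) (a : κ → ℝ) (ha : ∀ t, 0 ≤ a t) :
    ∑ t, a t ^ r ≤ (∑ t, a t) ^ r := by
  have hS : 0 ≤ ∑ t, a t := Finset.sum_nonneg fun t _ => ha t
  obtain ⟨k, rfl⟩ : ∃ k, r = k + 1 := ⟨r - 1, by omega⟩
  rw [pow_succ (∑ t, a t) k, Finset.mul_sum]
  refine Finset.sum_le_sum fun t _ => ?_
  rw [pow_succ]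
  refine mul_le_mul_of_nonneg_right (pow_le_pow_left₀ (ha t) ?_ k) (ha t)
  exact Finset.single_le_sum (f := a) (fun i _ => ha i) (Finset.mem_univ t)

private theorem H2_loc_rs (b : I) (t : κ) {F : (I → κ) → ℝ} {S : Finset I} (h : Loc F (insert b S)) :
    Loc (rs b t (Dv b F)) S := by
  intro ω ω' hω
  have h1 : ∀ (s : κ), F (Function.update ω b s) = F (Function.update ω' b s) := by
    intro s
    refine h _ _ fun i hi => ?_
    by_cases hib : i = b
    · subst hib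
      rw [Function.update_self, Function.update_self]
    · rw [Function.update_of_ne hib, Function.update_of_ne hib]
      exact hω i ((Finset.mem_insert.1 hi).resolve_left hib)
  unfold rs Dv av
  rw [h1]
  congr 2
  refine Finset.sum_congr rfl fun s _ => ?_
  rw [Function.update_idem, Function.update_idem, h1]

private theorem H2_claim (r : ℕ) (hr : 1 ≤ r) (S : Finset I) : ∀ (d : ℕ) (F : (I → κ) → ℝ), F ∈ Dg I κ d → Loc F S →
    ex (fun ω => F ω ^ (2 * r)) ≤ ((5 * (r : ℝ) ^ 2 * Fintype.card κ) ^ d * nm F ^ 2) ^ r := by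
  have hr1 : (1 : ℝ) ≤ r := by exact_mod_cast hr
  have hm : (1 : ℝ) ≤ Fintype.card κ := by
    have : 1 ≤ Fintype.card κ := Fintype.card_pos
    exact_mod_cast this
  have hc1 : (1 : ℝ) ≤ 5 * (r : ℝ) ^ 2 * Fintype.card κ := by
    have h2 : (1 : ℝ) ≤ (r : ℝ) ^ 2 := one_le_pow₀ hr1
    nlinarith
  have hconst : ∀ (d : ℕ) (F : (I → κ) → ℝ), (∀ ω ω', F ω = F ω') →
      ex (fun ω => F ω ^ (2 * r)) ≤ ((5 * (r : ℝ) ^ 2 * Fintype.card κ) ^ d * nm F ^ 2) ^ r := by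
    intro d F hF
    obtain ⟨ω₀⟩ : Nonempty (I → κ) := inferInstance
    have e1 : (fun ω => F ω ^ (2 * r)) = fun _ => F ω₀ ^ (2 * r) := by
      funext ω
      rw [hF ω ω₀]
    have e2 : nm F ^ 2 = F ω₀ ^ 2 := by
      rw [nm_sq]
      have e3 : (fun ω => F ω ^ 2) = fun _ => F ω₀ ^ 2 := by
        funext ω
        rw [hF ω ω₀]
      rw [e3, ex_const]
    rw [e1, ex_const, e2, pow_mul]
    refine pow_le_pow_left₀ (sq_nonneg _) ?_ r
    have h4 : (1 : ℝ) ≤ (5 * (r : ℝ) ^ 2 * Fintype.card κ) ^ d := one_le_pow₀ hc1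
    have h5 := sq_nonneg (F ω₀)
    nlinarith
  induction S using Finset.induction_on with
  | empty =>
    intro d F _ hL
    exact hconst d F fun ω ω' => hL ω ω' fun i hi => absurd hi (Finset.notMem_empty i)
  | insert b S hb ih =>
    intro d F hF hL
    rcases Nat.eq_zero_or_pos d with h | h
    · subst h
      exact hconst 0 F (Dg_zero hF)
    · obtain ⟨d', rfl⟩ : ∃ d', d = d' + 1 := ⟨d - 1, by omega⟩
      set c : ℝ := 5 * (r : ℝ) ^ 2 * Fintype.card κ with hc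
      have hL0 : Loc (av b F) S := by
        have h1 := loc_av b F (insert b S) hL
        rwa [Finset.erase_insert hb] at h1
      have hA := ih (d' + 1) (av b F) (Dg_av b hF) hL0
      have hB1 : ∀ t : κ, ex (fun ω => rs b t (Dv b F) ω ^ (2 * r)) ≤ (c ^ d' * nm (rs b t (Dv b F)) ^ 2) ^ r :=
        fun t => ih d' _ (Dg_rs_Dv b t hF) (H2_loc_rs b t hL)
      have hB : ex (fun ω => Dv b F ω ^ (2 * r)) ≤ (c ^ d' * (Fintype.card κ * nm (Dv b F) ^ 2)) ^ r := by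
        have h1 := ex_rs_sum b (fun ω => Dv b F ω ^ (2 * r))
        have h2 : ∑ t : κ, ex (rs b t (fun ω => Dv b F ω ^ (2 * r))) ≤
            (c ^ d' * (Fintype.card κ * nm (Dv b F) ^ 2)) ^ r := by
          calc ∑ t : κ, ex (rs b t (fun ω => Dv b F ω ^ (2 * r)))
              ≤ ∑ t : κ, (c ^ d' * nm (rs b t (Dv b F)) ^ 2) ^ r := Finset.sum_le_sum fun t _ => hB1 t
            _ ≤ (∑ t : κ, c ^ d' * nm (rs b t (Dv b F)) ^ 2) ^ r := H2_pow_sum r hr _ fun t => by positivity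
            _ = (c ^ d' * (Fintype.card κ * nm (Dv b F) ^ 2)) ^ r := by
                rw [← Finset.mul_sum, nm_rs_sum]
        rw [h1] at h2
        have h3 : 0 ≤ ex (fun ω => Dv b F ω ^ (2 * r)) := by
          unfold ex
          refine div_nonneg (Finset.sum_nonneg fun ω _ => ?_) (Nat.cast_nonneg _)
          rw [pow_mul]
          positivity
        nlinarith
      have h0 : ex (fun ω => av b F ω ^ (2 * r - 1) * Dv b F ω) = 0 := by
        have hg : av b (fun ω => av b F ω ^ (2 * r - 1)) = fun ω => av b F ω ^ (2 * r - 1) := by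
          funext ω
          have h1 : ∀ t : κ, av b F (Function.update ω b t) = av b F ω := by
            intro t
            have h2 := congrFun (rs_av_self b t F) ω
            exact h2
          unfold av at h1 ⊢
          simp only [h1]
          rw [Finset.sum_const, Finset.card_univ, nsmul_eq_mul, mul_div_assoc, mul_comm, div_mul_cancel₀]
          have : (0 : ℝ) < Fintype.card κ := by linarith
          exact this.ne'
        have h3 : av b ((fun ω => av b F ω ^ (2 * r - 1)) * Dv b F) = 0 := by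
          rw [av_mul_loc b _ _ hg, av_Dv_self, mul_zero]
        have h4 := ex_av b ((fun ω => av b F ω ^ (2 * r - 1)) * Dv b F)
        rw [h3] at h4
        have h5 : ex (0 : (I → κ) → ℝ) = 0 := by
          unfold ex
          simp
        rw [h5] at h4
        exact h4.symm
      have hsum : (fun ω => F ω ^ (2 * r)) = fun ω => (av b F ω + Dv b F ω) ^ (2 * r) := by
        funext ω
        unfold Dv
        congr 1
        ring
      rw [hsum]
      have hms := mom_step r hr (av b F) (Dv b F) (c ^ (d' + 1) * nm (av b F) ^ 2)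
        (c ^ d' * (Fintype.card κ * nm (Dv b F) ^ 2)) (by positivity) (by positivity) h0 hA hB
      refine hms.trans (le_of_eq ?_)
      congr 1
      rw [nm_pyth b F, pow_succ, hc]
      ring

theorem h2 {d : ℕ} {F : (I → κ) → ℝ} (hF : F ∈ Dg I κ d) (r : ℕ) (hr : 1 ≤ r) :
    ex (fun ω => F ω ^ (2 * r)) ≤ ((5 * (r : ℝ) ^ 2 * Fintype.card κ) ^ d * nm F ^ 2) ^ r :=
  H2_claim r hr Finset.univ d F hF fun ω ω' h => by
    congr 1
    funext i
    exact h i (Finset.mem_univ i)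

end

end Pool.Agent.H33.LN
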