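import Pool.Agent.H33.LN.H2

/-!
Row LNH_H2c: consequences of hypercontractivity (`h2`, with `r = 2`: `5 * 4 * m = 20 m`).
PROOFS. `h2_mul`: `ex (F^2 G^2) ^ 2 ≤ ex (F^4) ex (G^4) ≤ ((20m)^d nm F^2)^2 ((20m)^d' nm G^2)^2`, so `nm (F*G)^2 ≤ (20m)^(d+d') (nm F nm G)^2 ≤ ((20m)^4 nm F nm G)^2`.
`h2_Dmul`: `F = f0 + f1`, `f0 = av a F`, `f1 = Dv a F`, same for `G`: `Dv a (F*G) = f0 g1 + f1 g0 + Dv a (f1 g1)` (`Dv_mul_loc`, `Dv a (f0 g0) = 0`), `nm (Dv a (f1 g1)) ≤ nm (f1 g1)`;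
`h2_mul` three times (degrees of `av a F`, `Dv a F`: `Dg_av`, `Dg_Dv`), `nm g1 ≤ nm G`, `nm f0 ≤ nm F`.
`h2_tail`: Markov for `F^(2r)`.
-/

set_option autoImplicit false
set_option linter.unusedSectionVars false

namespace Pool.Agent.H33.LN

open Finset Classical
open Pool.Agent.H65.GI
open Pool.Agent.H12.LN

section
variable {I κ : Type} [Fintype I] [Fintype κ] [Nonempty κ]

/-- The L2 norm of the square. -/
theorem H2c_sq {d : ℕ} {F : (I → κ) → ℝ} (hF : F ∈ Dg I κ d) :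
    nm (fun ω => F ω ^ 2) ≤ (20 * (Fintype.card κ : ℝ)) ^ d * nm F ^ 2 := by
  have h1 := h2 hF 2 (by norm_num)
  have h3 : nm (fun ω => F ω ^ 2) ^ 2 ≤ ((20 * (Fintype.card κ : ℝ)) ^ d * nm F ^ 2) ^ 2 := by
    rw [nm_sq]
    have e1 : (fun ω => (F ω ^ 2) ^ 2) = fun ω => F ω ^ (2 * 2) := by
      funext ω
      ring
    have e2 : (5 * ((2 : ℕ) : ℝ) ^ 2 * (Fintype.card κ : ℝ)) = 20 * (Fintype.card κ : ℝ) := by
      push_cast
      ring
    rw [e1]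
    rw [e2] at h1
    exact h1
  exact (le_abs_self _).trans (abs_le_of_sq_le_sq h3 (by positivity))

theorem h2_mul {d d' : ℕ} (h : d + d' ≤ 8) {F G : (I → κ) → ℝ} (hF : F ∈ Dg I κ d) (hG : G ∈ Dg I κ d') :
    nm (F * G) ≤ (20 * (Fintype.card κ : ℝ)) ^ 4 * (nm F * nm G) := by
  have hm : (1 : ℝ) ≤ 20 * (Fintype.card κ : ℝ) := by
    have : (1 : ℝ) ≤ (Fintype.card κ : ℝ) := by exact_mod_cast Fintype.card_pos (α := κ)
    linarith
  have hm0 : (0 : ℝ) ≤ 20 * (Fintype.card κ : ℝ) := by linarith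
  have h1 := H2c_sq hF
  have h2 := H2c_sq hG
  have h3 : nm (F * G) ^ 2 ≤ nm (fun ω => F ω ^ 2) * nm (fun ω => G ω ^ 2) := by
    rw [nm_sq]
    have h4 : (fun ω => (F * G) ω ^ 2) = (fun ω => F ω ^ 2) * (fun ω => G ω ^ 2) := by
      funext ω
      simp only [Pi.mul_apply]
      ring
    rw [h4]
    exact (le_abs_self _).trans (ex_mul_le _ _)
  have h5 : nm (F * G) ^ 2 ≤ ((20 * (Fintype.card κ : ℝ)) ^ 4 * (nm F * nm G)) ^ 2 := by
    calc nm (F * G) ^ 2 ≤ nm (fun ω => F ω ^ 2) * nm (fun ω => G ω ^ 2) := h3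
      _ ≤ ((20 * (Fintype.card κ : ℝ)) ^ d * nm F ^ 2) * ((20 * (Fintype.card κ : ℝ)) ^ d' * nm G ^ 2) :=
          mul_le_mul h1 h2 (nm_nonneg _) (by positivity)
      _ = (20 * (Fintype.card κ : ℝ)) ^ (d + d') * (nm F * nm G) ^ 2 := by ring
      _ ≤ (20 * (Fintype.card κ : ℝ)) ^ 8 * (nm F * nm G) ^ 2 :=
          mul_le_mul_of_nonneg_right (pow_le_pow_right₀ hm h) (by positivity)
      _ = ((20 * (Fintype.card κ : ℝ)) ^ 4 * (nm F * nm G)) ^ 2 := by ring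
  exact (le_abs_self _).trans (abs_le_of_sq_le_sq h5 (mul_nonneg (by positivity) (mul_nonneg (nm_nonneg _) (nm_nonneg _))))

theorem h2_Dmul {d d' : ℕ} (h : d + d' ≤ 8) {F G : (I → κ) → ℝ} (hF : F ∈ Dg I κ d) (hG : G ∈ Dg I κ d') (a : I) :
    nm (Dv a (F * G)) ≤ 2 * (20 * (Fintype.card κ : ℝ)) ^ 4 * (nm (Dv a F) * nm G + nm F * nm (Dv a G)) := by
  have e0 : ∀ F : (I → κ) → ℝ, F = av a F + Dv a F := by
    intro F
    funext ω
    simp only [Pi.add_apply, Dv]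
    ring
  have e1 : F * G = av a F * av a G + av a F * Dv a G + (Dv a F * av a G + Dv a F * Dv a G) := by
    conv_lhs => rw [e0 F, e0 G]
    ring
  have e2 : Dv a (av a F * av a G) = 0 := by
    rw [Dv_mul_loc a _ _ (av_idem a F), Dv_av_self, mul_zero]
  have e3 : Dv a (F * G) = Dv a (av a F * Dv a G) + (Dv a (Dv a F * av a G) + Dv a (Dv a F * Dv a G)) := by
    rw [e1, Dv_add, Dv_add, Dv_add, e2, zero_add]
  have c1 : nm (Dv a (F * G)) ≤ nm (av a F * Dv a G) + (nm (Dv a F * av a G) + nm (Dv a F * Dv a G)) := by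
    rw [e3]
    refine (nm_add_le _ _).trans (add_le_add (nm_Dv_le a _) ((nm_add_le _ _).trans (add_le_add (nm_Dv_le a _) (nm_Dv_le a _))))
  have m1 := h2_mul h (Dg_av a hF) (Dg_Dv a hG)
  have m2 := h2_mul h (Dg_Dv a hF) (Dg_av a hG)
  have m3 := h2_mul h (Dg_Dv a hF) (Dg_Dv a hG)
  have n1 := nm_av_le a F
  have n2 := nm_av_le a G
  have n3 := nm_Dv_le a G
  have n4 := nm_Dv_le a F
  have p1 := nm_nonneg (Dv a F)
  have p2 := nm_nonneg (Dv a G)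
  have p3 := nm_nonneg F
  have p4 := nm_nonneg G
  have q1 : nm (av a F) * nm (Dv a G) ≤ nm F * nm (Dv a G) := mul_le_mul_of_nonneg_right n1 p2
  have q2 : nm (Dv a F) * nm (av a G) ≤ nm (Dv a F) * nm G := mul_le_mul_of_nonneg_left n2 p1
  have q3 : nm (Dv a F) * nm (Dv a G) ≤ nm (Dv a F) * nm G := mul_le_mul_of_nonneg_left n3 p1
  have q4 : 0 ≤ nm F * nm (Dv a G) := mul_nonneg p3 p2
  have hC : (0 : ℝ) ≤ (20 * (Fintype.card κ : ℝ)) ^ 4 := by positivity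
  calc nm (Dv a (F * G)) ≤ _ := c1
    _ ≤ (20 * (Fintype.card κ : ℝ)) ^ 4 * (nm (av a F) * nm (Dv a G)) +
        ((20 * (Fintype.card κ : ℝ)) ^ 4 * (nm (Dv a F) * nm (av a G)) +
          (20 * (Fintype.card κ : ℝ)) ^ 4 * (nm (Dv a F) * nm (Dv a G))) := add_le_add m1 (add_le_add m2 m3)
    _ = (20 * (Fintype.card κ : ℝ)) ^ 4 * (nm (av a F) * nm (Dv a G) + (nm (Dv a F) * nm (av a G) +
          nm (Dv a F) * nm (Dv a G))) := by ring
    _ ≤ (20 * (Fintype.card κ : ℝ)) ^ 4 * (2 * (nm (Dv a F) * nm G + nm F * nm (Dv a G))) :=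
        mul_le_mul_of_nonneg_left (by linarith) hC
    _ = 2 * (20 * (Fintype.card κ : ℝ)) ^ 4 * (nm (Dv a F) * nm G + nm F * nm (Dv a G)) := by ring

theorem h2_tail {d : ℕ} {F : (I → κ) → ℝ} (hF : F ∈ Dg I κ d) (r : ℕ) (hr : 1 ≤ r) (lam : ℝ) (hlam : 0 < lam) :
    pr (fun ω => lam ≤ |F ω|) ≤ ((5 * (r : ℝ) ^ 2 * Fintype.card κ) ^ d * nm F ^ 2 / lam ^ 2) ^ r := by
  have h1 := h2 hF r hr
  have hc : (0 : ℝ) < Fintype.card (I → κ) := by exact_mod_cast Fintype.card_pos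
  have h2' : pr (fun ω => lam ≤ |F ω|) * (lam ^ 2) ^ r ≤ ex (fun ω => F ω ^ (2 * r)) := by
    unfold pr ex
    rw [div_mul_eq_mul_div]
    apply div_le_div_of_nonneg_right _ hc.le
    rw [← nsmul_eq_mul, ← Finset.sum_const]
    refine (Finset.sum_le_sum (g := fun ω => F ω ^ (2 * r)) fun ω hω => ?_).trans
      (Finset.sum_le_sum_of_subset_of_nonneg (Finset.filter_subset _ _) fun ω _ _ => ?_)
    · have h3 : lam ≤ |F ω| := (Finset.mem_filter.1 hω).2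
      show (lam ^ 2) ^ r ≤ F ω ^ (2 * r)
      rw [pow_mul, ← sq_abs (F ω)]
      exact pow_le_pow_left₀ (by positivity) (pow_le_pow_left₀ hlam.le h3 2) r
    · show 0 ≤ F ω ^ (2 * r)
      rw [pow_mul]
      positivity
  have hl : (0 : ℝ) < (lam ^ 2) ^ r := by positivity
  rw [div_pow, le_div_iff₀ hl]
  exact h2'.trans h1

end

end Pool.Agent.H33.LN
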