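import Pool.Agent.H33.LN.DgF

/-!
Row LNH_H3: cross terms, conditional means.
PROOFS. `h3`: write `F = F11 + F10 + F01 + F00` with `F11 = Dv u (Dv v F)`, `F10 = Dv u (av v F)`, `F01 = av u (Dv v F)`, `F00 = av u (av v F)`; `G` likewise. In
`ex (ou * ov * (F * G))`: `F11 * G` is bounded by `m^2 nm F11 nm G`; for `F10`: `ex (ou * ov * F10 * av v G) = 0` (average over `v`: only `ov` depends on `v`, `av v ov = 0`), rest
`F10 * Dv v G`; for `F01`: only `F01 * Dv u G` remains; for `F00`: `F00 * (av u G) ..`: only `F00 * Dv u (Dv v G)` remains. `nm F10 ≤ nm (Dv u F)` etc. (`nm_av_le`, `Dv_av`).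
`av u ou` is the constant `ex ou = 0` since `ou` depends only on `u` (hypotheses `hou : av u ou = 0`, `∀ a ≠ u, av a ou = ou`).
`ce_le`: `F = av w F + Dv w F`; `|ex (rs v t (rs w t' (Dv w F)))| ≤ nm ≤ (m * (m * nm (Dv w F)^2))^(1/2) = m nm (Dv w F)` (`nm_rs_sq` twice);
`rs w t' (av w F) = av w F`, and `av w F = av v (av w F) + Dv v (av w F)`, `ex (rs v t (av v (av w F))) = ex F = 0`, `|ex (rs v t (Dv v (av w F)))| ≤ (m nm (Dv v (av w F))^2)^(1/2) ≤ m nm (Dv v F)`.
`om_abs`: `card κ ≥ 1`.
-/

set_option autoImplicit false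
set_option linter.unusedSectionVars false

namespace Pool.Agent.H33.LN

open Finset Classical
open Pool.Agent.H65.GI
open Pool.Agent.H12.LN

section
variable {V κ : Type} [Fintype V] [Fintype κ] [Nonempty κ]

private theorem H3_card : (1 : ℝ) ≤ Fintype.card κ := by
  exact_mod_cast Nat.one_le_iff_ne_zero.2 Fintype.card_ne_zero

private theorem H3_ex_add {Ω : Type} [Fintype Ω] (F G : Ω → ℝ) : ex (F + G) = ex F + ex G := by
  unfold ex
  rw [← add_div, ← sum_add_distrib]
  rfl

private theorem H3_ex_zero {Ω : Type} [Fintype Ω] : ex (0 : Ω → ℝ) = 0 := by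
  unfold ex
  rw [show (∑ ω : Ω, (0 : Ω → ℝ) ω) = 0 from sum_eq_zero fun _ _ => rfl, zero_div]

private theorem H3_split (a : V) (F : (V → κ) → ℝ) : F = av a F + Dv a F := by
  funext ω
  show F ω = av a F ω + (F ω - av a F ω)
  ring

theorem om_abs (t : κ) (v : V) (χ : V → κ) : |om t v χ| ≤ Fintype.card κ := by
  have h := H3_card (κ := κ)
  unfold om
  split_ifs
  · rw [abs_of_nonneg (by linarith)]
    linarith
  · rw [zero_sub, abs_neg, abs_one]
    exact h

theorem om_loc (t : κ) (v : V) : Loc (om t v) ({v} : Finset V) := by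
  intro ω ω' h
  have h1 := h v (mem_singleton_self v)
  unfold om
  rw [h1]

theorem av_om (t : κ) (v : V) : av v (om t v) = 0 := by
  funext ω
  show (∑ k, om t v (Function.update ω v k)) / Fintype.card κ = 0
  have h : ∑ k, om t v (Function.update ω v k) = 0 := by
    unfold om
    have h1 : ∀ k : κ, ((if Function.update ω v k v = t then (Fintype.card κ : ℝ) else 0) - 1) =
        (if k = t then (Fintype.card κ : ℝ) else 0) - 1 := by
      intro k
      rw [Function.update_self]
    rw [sum_congr rfl fun k _ => h1 k, sum_sub_distrib, sum_ite_eq' univ t, if_pos (mem_univ t), sum_const,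
      card_univ, nsmul_eq_mul, mul_one, sub_self]
  rw [h, zero_div]

theorem av_om_ne (t : κ) {v a : V} (h : a ≠ v) : av a (om t v) = om t v :=
  av_loc a (om t v) {v} (om_loc t v) fun h1 => h (mem_singleton.1 h1)

theorem nm_om (t : κ) (v : V) : nm (om t v) ≤ Fintype.card κ :=
  nm_le_of (om t v) _ fun χ => om_abs t v χ

theorem Dv_om (t : κ) (v : V) : Dv v (om t v) = om t v := by
  funext ω
  show om t v ω - av v (om t v) ω = om t v ω
  rw [av_om]
  exact sub_zero _

theorem Dv_om_ne (t : κ) {v a : V} (h : a ≠ v) : Dv a (om t v) = 0 :=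
  Dv_loc a (om t v) {v} (om_loc t v) fun h1 => h (mem_singleton.1 h1)

private theorem H3_kill (u : V) (X g : (V → κ) → ℝ) (hX : av u X = X) (hg : av u g = 0) : ex (X * g) = 0 := by
  rw [← ex_av u, av_mul_loc u X g hX, hg, mul_zero]
  exact H3_ex_zero

private theorem H3_killu {u v : V} (huv : u ≠ v) (t t' : κ) (X : (V → κ) → ℝ) (hX : av u X = X) :
    ex (om t u * om t' v * X) = 0 := by
  have h1 : av u (om t' v * X) = om t' v * X := by
    rw [av_mul_loc u (om t' v) X (av_om_ne t' huv), hX]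
  have h2 : om t u * om t' v * X = om t' v * X * om t u := by ring
  rw [h2]
  exact H3_kill u _ _ h1 (av_om t u)

private theorem H3_killv {u v : V} (huv : u ≠ v) (t t' : κ) (X : (V → κ) → ℝ) (hX : av v X = X) :
    ex (om t u * om t' v * X) = 0 := by
  have h1 : av v (om t u * X) = om t u * X := by
    rw [av_mul_loc v (om t u) X (av_om_ne t huv.symm), hX]
  have h2 : om t u * om t' v * X = om t u * X * om t' v := by ring
  rw [h2]
  exact H3_kill v _ _ h1 (av_om t' v)

private theorem H3_inv (u : V) (A B : (V → κ) → ℝ) (hA : av u A = A) (hB : av u B = B) : av u (A * B) = A * B := by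
  rw [av_mul_loc u A B hA, hB]

private theorem H3_bd (u v : V) (t t' : κ) (A B : (V → κ) → ℝ) :
    |ex (om t u * om t' v * (A * B))| ≤ (Fintype.card κ : ℝ) ^ 2 * (nm A * nm B) := by
  have h1 : om t u * om t' v * (A * B) = om t u * om t' v * A * B := by ring
  rw [h1]
  refine (ex_mul_le _ _).trans ?_
  have h2 : nm (om t u * om t' v * A) ≤ (Fintype.card κ : ℝ) ^ 2 * nm A := by
    refine nm_mul_le_of (om t u * om t' v) A _ (by positivity) fun ω => ?_
    show |om t u ω * om t' v ω| ≤ _
    rw [abs_mul, sq]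
    exact mul_le_mul (om_abs t u ω) (om_abs t' v ω) (abs_nonneg _) (Nat.cast_nonneg _)
  calc nm (om t u * om t' v * A) * nm B ≤ (Fintype.card κ : ℝ) ^ 2 * nm A * nm B :=
        mul_le_mul_of_nonneg_right h2 (nm_nonneg B)
    _ = (Fintype.card κ : ℝ) ^ 2 * (nm A * nm B) := by ring

theorem h3 {u v : V} (huv : u ≠ v) (t t' : κ) (F G : (V → κ) → ℝ) :
    |ex (om t u * om t' v * (F * G))| ≤ (Fintype.card κ : ℝ) ^ 2 *
      (nm (Dv u (Dv v F)) * nm G + nm (Dv u F) * nm (Dv v G) + nm (Dv v F) * nm (Dv u G) + nm F * nm (Dv u (Dv v G))) := by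
  have hm0 : (0 : ℝ) ≤ (Fintype.card κ : ℝ) ^ 2 := by positivity
  obtain ⟨o, ho⟩ : ∃ o, o = om t u * om t' v := ⟨_, rfl⟩
  -- the decompositions
  have hF1 : F = av v F + Dv v F := H3_split v F
  have hF2 : av v F = av u (av v F) + Dv u (av v F) := H3_split u _
  have hF3 : Dv v F = av u (Dv v F) + Dv u (Dv v F) := H3_split u _
  have hG1 : G = av v G + Dv v G := H3_split v G
  have hG2 : Dv v G = av u (Dv v G) + Dv u (Dv v G) := H3_split u _
  have hG3 : G = av u G + Dv u G := H3_split u G
  have e1 : F = av u (av v F) + Dv u (av v F) + (av u (Dv v F) + Dv u (Dv v F)) := by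
    rw [← hF2, ← hF3, ← hF1]
  have e2 : G = av v G + (av u (Dv v G) + Dv u (Dv v G)) := by
    rw [← hG2, ← hG1]
  have key : o * (F * G) = o * (Dv u (Dv v F) * G) + (o * (Dv u (av v F) * Dv v G) + o * (Dv u (av v F) * av v G)) +
      (o * (av u (Dv v F) * Dv u G) + o * (av u (Dv v F) * av u G)) +
      (o * (av u (av v F) * Dv u (Dv v G)) + o * (av u (av v F) * av v G) + o * (av u (av v F) * av u (Dv v G))) := by
    have k1 : o * (F * G) = o * (Dv u (Dv v F) * G) + o * (Dv u (av v F) * G) + o * (av u (Dv v F) * G) +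
        o * (av u (av v F) * G) := by
      have := congrArg (fun X => o * (X * G)) e1
      rw [this]
      ring
    have k2 : o * (Dv u (av v F) * G) = o * (Dv u (av v F) * Dv v G) + o * (Dv u (av v F) * av v G) := by
      have := congrArg (fun X => o * (Dv u (av v F) * X)) hG1
      rw [this]
      ring
    have k3 : o * (av u (Dv v F) * G) = o * (av u (Dv v F) * Dv u G) + o * (av u (Dv v F) * av u G) := by
      have := congrArg (fun X => o * (av u (Dv v F) * X)) hG3
      rw [this]
      ring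
    have k4 : o * (av u (av v F) * G) = o * (av u (av v F) * Dv u (Dv v G)) + o * (av u (av v F) * av v G) +
        o * (av u (av v F) * av u (Dv v G)) := by
      have := congrArg (fun X => o * (av u (av v F) * X)) e2
      rw [this]
      ring
    rw [k1, k2, k3, k4]
  have z1 : ex (o * (Dv u (av v F) * av v G)) = 0 := by
    rw [ho]
    refine H3_killv huv t t' _ (H3_inv v _ _ ?_ (av_idem v G))
    rw [Dv_av, av_idem]
  have z2 : ex (o * (av u (Dv v F) * av u G)) = 0 := by
    rw [ho]
    exact H3_killu huv t t' _ (H3_inv u _ _ (av_idem u _) (av_idem u G))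
  have z3 : ex (o * (av u (av v F) * av v G)) = 0 := by
    rw [ho]
    refine H3_killv huv t t' _ (H3_inv v _ _ ?_ (av_idem v G))
    rw [av_comm u v, av_idem]
  have z4 : ex (o * (av u (av v F) * av u (Dv v G))) = 0 := by
    rw [ho]
    exact H3_killu huv t t' _ (H3_inv u _ _ (av_idem u _) (av_idem u _))
  have b1 := H3_bd u v t t' (Dv u (Dv v F)) G
  have b2 := H3_bd u v t t' (Dv u (av v F)) (Dv v G)
  have b3 := H3_bd u v t t' (av u (Dv v F)) (Dv u G)
  have b4 := H3_bd u v t t' (av u (av v F)) (Dv u (Dv v G))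
  rw [← ho] at b1 b2 b3 b4 ⊢
  have n2 : nm (Dv u (av v F)) ≤ nm (Dv u F) := by
    rw [Dv_av]
    exact nm_av_le v _
  have n3 : nm (av u (Dv v F)) ≤ nm (Dv v F) := nm_av_le u _
  have n4 : nm (av u (av v F)) ≤ nm F := (nm_av_le u _).trans (nm_av_le v F)
  have c2 := mul_le_mul_of_nonneg_left (mul_le_mul_of_nonneg_right n2 (nm_nonneg (Dv v G))) hm0
  have c3 := mul_le_mul_of_nonneg_left (mul_le_mul_of_nonneg_right n3 (nm_nonneg (Dv u G))) hm0
  have c4 := mul_le_mul_of_nonneg_left (mul_le_mul_of_nonneg_right n4 (nm_nonneg (Dv u (Dv v G)))) hm0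
  rw [key]
  simp only [H3_ex_add]
  rw [z1, z2, z3, z4]
  rw [abs_le] at b1 b2 b3 b4 ⊢
  constructor <;> nlinarith [b1.1, b1.2, b2.1, b2.2, b3.1, b3.2, b4.1, b4.2]

private theorem H3_rs2 (v w : V) (t t' : κ) (F : (V → κ) → ℝ) :
    nm (rs v t (rs w t' F)) ≤ Fintype.card κ * nm F := by
  have h1 := nm_rs_sq v t (rs w t' F)
  have h2 := nm_rs_sq w t' F
  have h3 : (0 : ℝ) ≤ Fintype.card κ := Nat.cast_nonneg _
  refine abs_le_of_sq_le_sq' ?_ (mul_nonneg h3 (nm_nonneg F)) |>.2
  calc nm (rs v t (rs w t' F)) ^ 2 ≤ Fintype.card κ * nm (rs w t' F) ^ 2 := h1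
    _ ≤ Fintype.card κ * (Fintype.card κ * nm F ^ 2) := mul_le_mul_of_nonneg_left h2 h3
    _ = (Fintype.card κ * nm F) ^ 2 := by ring

theorem ce_le {v w : V} (h : v ≠ w) (t t' : κ) (F : (V → κ) → ℝ) (hF : ex F = 0) :
    |ce v w t t' F| ≤ Fintype.card κ * (nm (Dv v F) + nm (Dv w F)) := by
  have hm0 : (0 : ℝ) ≤ Fintype.card κ := Nat.cast_nonneg _
  have h1 : ce v w t t' F = ex (rs v t (av w F)) + ex (rs v t (rs w t' (Dv w F))) := by
    rw [← H3_ex_add]
    have h2 : rs v t (rs w t' F) = rs v t (rs w t' (av w F)) + rs v t (rs w t' (Dv w F)) := by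
      have := congrArg (fun X => rs v t (rs w t' X)) (H3_split w F)
      exact this
    unfold ce
    rw [h2, rs_av_self]
  have h2 : ex (rs v t (av w F)) = ex (rs v t (Dv v (av w F))) := by
    have h3 : rs v t (av w F) = rs v t (av v (av w F)) + rs v t (Dv v (av w F)) := by
      have := congrArg (fun X => rs v t X) (H3_split v (av w F))
      exact this
    rw [h3, H3_ex_add, rs_av_self, ex_av, ex_av, hF, zero_add]
  have h3 : |ex (rs v t (Dv v (av w F)))| ≤ Fintype.card κ * nm (Dv v F) := by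
    refine (ex_abs_le_nm _).trans ((nm_rs_le v t _).trans (mul_le_mul_of_nonneg_left ?_ hm0))
    rw [Dv_av]
    exact nm_av_le w _
  have h4 : |ex (rs v t (rs w t' (Dv w F)))| ≤ Fintype.card κ * nm (Dv w F) :=
    (ex_abs_le_nm _).trans (H3_rs2 v w t t' _)
  rw [h1, h2, mul_add]
  exact (abs_add_le _ _).trans (add_le_add h3 h4)

theorem ce_symm {v w : V} (h : v ≠ w) (t t' : κ) (F : (V → κ) → ℝ) : ce v w t t' F = ce w v t' t F := by
  unfold ce
  rw [rs_comm h]

/-- the conditional mean as a mean: `m 1[χ w = t'] = 1 + om t' w` -/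
theorem ce_om {v w : V} (h : v ≠ w) (t t' : κ) (F : (V → κ) → ℝ) :
    ex (rs v t (fun χ => (1 + om t' w χ) * F χ)) = ce v w t t' F := by
  have hm : (Fintype.card κ : ℝ) ≠ 0 := by exact_mod_cast Fintype.card_ne_zero
  have h1 : rs v t (fun χ => (1 + om t' w χ) * F χ) =
      fun χ => (if χ w = t' then (Fintype.card κ : ℝ) else 0) * rs v t F χ := by
    funext χ
    show (1 + ((if Function.update χ v t w = t' then (Fintype.card κ : ℝ) else 0) - 1)) *
      F (Function.update χ v t) = _
    rw [Function.update_of_ne h.symm]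
    show _ = (if χ w = t' then (Fintype.card κ : ℝ) else 0) * F (Function.update χ v t)
    ring
  rw [h1]
  have h2 : ∀ Y : (V → κ) → ℝ, ex (fun χ => (if χ w = t' then (Fintype.card κ : ℝ) else 0) * Y χ) =
      ex (rs w t' Y) := by
    intro Y
    have h3 := ex_rs_sum w (fun χ => (if χ w = t' then (Fintype.card κ : ℝ) else 0) * Y χ)
    have h4 : ∀ s : κ, ex (rs w s (fun χ => (if χ w = t' then (Fintype.card κ : ℝ) else 0) * Y χ)) =
        if s = t' then (Fintype.card κ : ℝ) * ex (rs w s Y) else 0 := by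
      intro s
      have h5 : rs w s (fun χ => (if χ w = t' then (Fintype.card κ : ℝ) else 0) * Y χ) =
          fun χ => (if s = t' then (Fintype.card κ : ℝ) else 0) * rs w s Y χ := by
        funext χ
        show (if Function.update χ w s w = t' then (Fintype.card κ : ℝ) else 0) * Y (Function.update χ w s) = _
        rw [Function.update_self]
        rfl
      rw [h5]
      split_ifs with hs
      · unfold ex
        rw [← mul_sum, mul_div_assoc]
      · unfold ex
        rw [show (∑ ω, (0 : ℝ) * rs w s Y ω) = 0 from sum_eq_zero fun _ _ => zero_mul _, zero_div]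
    rw [sum_congr rfl fun s _ => h4 s, sum_ite_eq' univ t', if_pos (mem_univ t')] at h3
    exact (mul_left_cancel₀ hm h3).symm
  rw [h2]
  unfold ce
  rw [rs_comm h]

end

end Pool.Agent.H33.LN
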