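import Pool.Agent.H12.LN.Tools
import Pool.Agent.H64.LN.K6

/-!
MP_b8729f, project LN, blocks E + H (helper33): definitions.

`av a F`: average over the coordinate `a` (H12/LN/Mcd).  `Dv a F = F - av a F`.  `nm F`: the L2 norm.  `rs a t F`: the coordinate
`a` is set to `t`.  `Dg d`: functions of degree at most `d`.
Fields are functions `x : V → (V → κ) → ℝ`; `x v` is a random variable.  `P` is a symmetric stochastic matrix.
-/

set_option autoImplicit false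

namespace Pool.Agent.H33.LN

open Finset Classical
open Pool.Agent.H65.GI
open Pool.Agent.H12.LN

noncomputable section

section ops
variable {I κ : Type} [Fintype I] [Fintype κ]

/-- The difference operator of the coordinate `a`. -/
def Dv (a : I) (F : (I → κ) → ℝ) : (I → κ) → ℝ := fun ω => F ω - av a F ω

/-- The L2 norm. -/
def nm {Ω : Type} [Fintype Ω] (F : Ω → ℝ) : ℝ := Real.sqrt (ex fun ω => F ω ^ 2)

/-- The coordinate `a` is set to `t`. -/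
def rs (a : I) (t : κ) (F : (I → κ) → ℝ) : (I → κ) → ℝ := fun ω => F (Function.update ω a t)

/-- Functions of degree at most `d`. -/
def Dg (I κ : Type) (d : ℕ) : Submodule ℝ ((I → κ) → ℝ) :=
  Submodule.span ℝ {F | ∃ S : Finset I, S.card ≤ d ∧ Loc F S}

end ops

section fields
variable {V κ : Type} [Fintype V] [Fintype κ]

/-- The centred indicator of `χ v = t`. -/
def om (t : κ) (v : V) : (V → κ) → ℝ := fun χ => (if χ v = t then (Fintype.card κ : ℝ) else 0) - 1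

/-- `P ^ k` applied to a field. -/
def ap (P : Matrix V V ℝ) (k : ℕ) (x : V → (V → κ) → ℝ) (v : V) : (V → κ) → ℝ := fun χ => ∑ u, (P ^ k) v u * x u χ

/-- The alternating sum `x - P y + P^2 x - ..` with `K` terms. -/
def AA (P : Matrix V V ℝ) (K : ℕ) (x y : V → (V → κ) → ℝ) (v : V) : (V → κ) → ℝ :=
  fun χ => ∑ i ∈ range K, if Even i then ap P i x v χ else - ap P i y v χ

/-- The conditional mean for `χ v = t`, `χ w = t'`. -/
def ce (v w : V) (t t' : κ) (F : (V → κ) → ℝ) : ℝ := ex (rs v t (rs w t' F))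

/-- The correction `μ (v, w)`. -/
def muu (P : Matrix V V ℝ) (K : ℕ) (x y : V → (V → κ) → ℝ) (t t' : κ) (v w : V) : ℝ :=
  ce v w t t' (AA P K x y v) + ce v w t t' (AA P K y x w)

/-- The error field. -/
def FF (P : Matrix V V ℝ) (K : ℕ) (x y : V → (V → κ) → ℝ) (t t' : κ) (v : V) : (V → κ) → ℝ := fun χ =>
  ap P K x v χ - AA P K x y v χ * ap P 1 (om t') v χ - ap P 1 (fun w χ => om t' w χ * AA P K y x w χ) v χ +
    ∑ w, P v w * muu P K x y t t' v w * (1 + om t' w χ)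

/-- The new field: `FF` with `χ v = t`. -/
def nx (P : Matrix V V ℝ) (K : ℕ) (x y : V → (V → κ) → ℝ) (t t' : κ) (v : V) : (V → κ) → ℝ := rs v t (FF P K x y t t' v)

/-- The sequence of the fields. -/
def fd (P : Matrix V V ℝ) (K : ℕ) : ℕ → κ → κ → V → (V → κ) → ℝ
  | 0, _, t' => fun v χ => - ap P 1 (om t') v χ
  | k + 1, t, t' => nx P K (fd P K k t t') (fd P K k t' t) t t'

/-- The fields `A_k` (for `t, t'`); `B_k` is `AF k t' t`. -/
def AF (P : Matrix V V ℝ) (K k : ℕ) (t t' : κ) : V → (V → κ) → ℝ := AA P K (fd P K k t t') (fd P K k t' t)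

/-- The corrections `μ_k`. -/
def mk (P : Matrix V V ℝ) (K k : ℕ) (t t' : κ) (v w : V) : ℝ := muu P K (fd P K k t t') (fd P K k t' t) t t' v w

/-- The conditions on the matrix: `δ = Δ ^ (-1/2)`, `e` the norm of the rows of `P ^ K`. -/
structure PP (P : Matrix V V ℝ) (K : ℕ) (δ e : ℝ) : Prop where
  K1 : 1 ≤ K
  Kev : Even K
  d0 : 0 ≤ δ
  d1 : δ ≤ 1
  e0 : 0 ≤ e
  nn : ∀ k x y, 0 ≤ (P ^ k) x y
  row : ∀ k x, ∑ y, (P ^ k) x y = 1
  sym : ∀ k x y, (P ^ k) x y = (P ^ k) y x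
  diag : ∀ x, P x x = 0
  ent : ∀ k, 1 ≤ k → ∀ x y, (P ^ k) x y ≤ δ ^ 2
  far : ∀ x, ∑ y, ((P ^ K) x y) ^ 2 ≤ e ^ 2
  far2 : ∀ g : V → ℝ, (∀ y, 0 ≤ g y) → ∑ x, (∑ y, (P ^ K) x y * g y) ^ 2 ≤ e ^ 2 * (∑ y, g y) ^ 2

/-- A centred field of degree `d`, independent of its own coordinate, with norm bounds `ν` and influence sums `σ`. -/
structure Bf (d : ℕ) (ν σ : ℝ) (x : V → (V → κ) → ℝ) : Prop where
  own : ∀ v s, rs v s (x v) = x v
  mean : ∀ v, ex (x v) = 0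
  dg : ∀ v, x v ∈ Dg V κ d
  n1 : ∀ v, nm (x v) ≤ ν
  n2 : ∀ a, ∑ v, nm (Dv a (x v)) ^ 2 ≤ ν ^ 2
  s1 : ∀ v, ∑ a, nm (Dv a (x v)) ≤ σ
  s2 : ∀ a, ∑ v, nm (Dv a (x v)) ≤ σ

/-- The bounds for the alternating sums (`ν`, `σ` include the factor `K`). -/
structure Af (d : ℕ) (δ ν σ : ℝ) (A : V → (V → κ) → ℝ) : Prop where
  mean : ∀ v, ex (A v) = 0
  dg : ∀ v, A v ∈ Dg V κ d
  n1 : ∀ v, nm (A v) ≤ ν
  n2 : ∀ a, ∑ v, nm (Dv a (A v)) ^ 2 ≤ ν ^ 2
  o1 : ∀ v, nm (Dv v (A v)) ≤ ν * δ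
  o2 : ∀ a, ∑ w, nm (Dv w (Dv a (A w))) ^ 2 ≤ 7 * (ν * δ) ^ 2
  s1 : ∀ v, ∑ a, nm (Dv a (A v)) ≤ σ
  s2 : ∀ a, ∑ v, nm (Dv a (A v)) ≤ σ

/-- The bounds for the terms of the new field: norm, influences, sums. -/
structure Tf (ν σ : ℝ) (T : V → (V → κ) → ℝ) : Prop where
  n1 : ∀ v, nm (T v) ≤ ν
  n2 : ∀ a, ∑ v, nm (Dv a (T v)) ^ 2 ≤ ν ^ 2
  s1 : ∀ v, ∑ a, nm (Dv a (T v)) ≤ σ
  s2 : ∀ a, ∑ v, nm (Dv a (T v)) ≤ σ

/-- The growth factor. -/
def Gam (κ : Type) [Fintype κ] (K : ℕ) : ℝ := (20 * (Fintype.card κ : ℝ)) ^ 6 * (K : ℝ) ^ 2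

end fields

end

end Pool.Agent.H33.LN
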