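import Pool.Agent.H33.LN.Fb
import Pool.Agent.H33.LN.H1

/-!
Row LNH_Ha: bounds for the alternating sums.
PROOFS. `A = AA P K x y`; every term `± P^i x` or `± P^i y`, `i < K`; put `z = x` or `y`. `n1`: `nm (P^i z v) ≤ ∑ P^i nm (z u) ≤ ν`. `n2`: for every `i`: `nm (Dv a (P^i z v)) ≤ ∑_u (P^i) v u nm (Dv a (z u))`,
square, Jensen (`∑_u p_u g_u)^2 ≤ ∑_u p_u g_u^2` for `∑ p = 1`), sum over `v`, column sums 1 (`sym`, `row`): `∑_v (..)^2 ≤ ν^2`; then `(∑_(i<K) c_i)^2 ≤ K ∑ c_i^2`: `≤ K^2 ν^2`.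
`o1`: `Dv v` of the term `i = 0` vanishes (`own`: `x v` does not depend on `χ v`, so `Dv v (x v) = 0`); for `i ≥ 1`: `nm (Dv v (P^i z v)) ≤ ∑_u (P^i) v u nm (Dv v (z u)) ≤ (∑_u ((P^i) v u)^2)^(1/2) ν ≤ δ ν`
(`∑_u ((P^i) v u)^2 ≤ δ^2` by `ent` and `row`). `o2`: the term `i = 0`: `Dv w (Dv a (z w)) = Dv a (Dv w (z w)) = 0`; `i ≥ 1`: `nm (Dv w (Dv a (P^i z w))) ≤ ∑_u (P^i) w u nm (Dv w (Dv a (z u)))`, the square is
`≤ δ^2 ∑_u nm (Dv w (Dv a (z u)))^2`; sum over `w`: `≤ δ^2 ∑_u 7 nm (Dv a (z u))^2 ≤ 7 δ^2 ν^2` (`h1a` for `Dv a (z u)` of degree `d ≤ 7`); `(∑_i c_i)^2 ≤ K ∑ c_i^2`. `s1`, `s2`: triangle inequality (`s1`: `∑_a ∑_u (P^i) v u nm (Dv a (z u)) ≤ σ`;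
`s2`: column sums of `P^i`). `mean`: `ex_AA_zero`. `dg`: `Dg_AA`.
-/

set_option autoImplicit false
set_option linter.unusedSectionVars false

namespace Pool.Agent.H33.LN

open Finset Classical
open Pool.Agent.H65.GI
open Pool.Agent.H12.LN

section
variable {V κ : Type} [Fintype V] [Fintype κ] [Nonempty κ] {P : Matrix V V ℝ} {K : ℕ} {δ e : ℝ}

theorem own_Dv {x : V → (V → κ) → ℝ} (v : V) (h : ∀ s, rs v s (x v) = x v) : Dv v (x v) = 0 := by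
  obtain ⟨s⟩ := (inferInstance : Nonempty κ)
  rw [← h s]
  exact Dv_rs_self v s (x v)

/-- weighted sums with the row of a power -/
private theorem Ha_f1 (hP : PP P K δ e) {ν : ℝ} {Z : V → (V → κ) → ℝ} (h : ∀ v, nm (Z v) ≤ ν) (i : ℕ) (v : V) :
    nm (ap P i Z v) ≤ ν := by
  refine (nm_ap_le hP i Z v).trans ?_
  calc ∑ u, (P ^ i) v u * nm (Z u) ≤ ∑ u, (P ^ i) v u * ν :=
        Finset.sum_le_sum (fun u _ => mul_le_mul_of_nonneg_left (h u) (hP.nn i v u))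
    _ = ν := by rw [← Finset.sum_mul, hP.row, one_mul]

private theorem Ha_jen (hP : PP P K δ e) (i : ℕ) (v : V) (g : V → ℝ) :
    (∑ u, (P ^ i) v u * g u) ^ 2 ≤ ∑ u, (P ^ i) v u * g u ^ 2 := by
  have h1 : (∑ u, (P ^ i) v u * g u) ^ 2 ≤ (∑ u, (P ^ i) v u) * ∑ u, (P ^ i) v u * g u ^ 2 := by
    refine Finset.sum_sq_le_sum_mul_sum_of_sq_eq_mul univ (fun u _ => hP.nn i v u)
      (fun u _ => mul_nonneg (hP.nn i v u) (sq_nonneg _)) (fun u _ => ?_)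
    ring
  rw [hP.row, one_mul] at h1
  exact h1

private theorem Ha_f2 (hP : PP P K δ e) {ν : ℝ} {Z : V → (V → κ) → ℝ} (a : V)
    (h : ∑ v, nm (Dv a (Z v)) ^ 2 ≤ ν ^ 2) (i : ℕ) :
    ∑ v, nm (ap P i (fun u => Dv a (Z u)) v) ^ 2 ≤ ν ^ 2 := by
  refine le_trans ?_ h
  calc ∑ v, nm (ap P i (fun u => Dv a (Z u)) v) ^ 2
      ≤ ∑ v, ∑ u, (P ^ i) v u * nm (Dv a (Z u)) ^ 2 := by
        refine Finset.sum_le_sum (fun v _ => ?_)
        refine le_trans ?_ (Ha_jen hP i v (fun u => nm (Dv a (Z u))))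
        exact pow_le_pow_left₀ (nm_nonneg _) (nm_ap_le hP i _ v) 2
    _ = ∑ u, nm (Dv a (Z u)) ^ 2 := by
        rw [Finset.sum_comm]
        refine Finset.sum_congr rfl (fun u _ => ?_)
        rw [← Finset.sum_mul]
        have : ∑ v, (P ^ i) v u = 1 := by
          rw [← hP.row i u]
          exact Finset.sum_congr rfl (fun v _ => hP.sym i v u)
        rw [this, one_mul]

/-- the square of a weighted sum for `i ≥ 1` -/
private theorem Ha_cs (hP : PP P K δ e) {i : ℕ} (hi : 1 ≤ i) (v : V) (g : V → ℝ) :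
    (∑ u, (P ^ i) v u * g u) ^ 2 ≤ δ ^ 2 * ∑ u, g u ^ 2 := by
  have h1 : (∑ u, (P ^ i) v u * g u) ^ 2 ≤ (∑ u, (P ^ i) v u ^ 2) * ∑ u, g u ^ 2 :=
    Finset.sum_mul_sq_le_sq_mul_sq univ _ _
  have h2 : ∑ u, (P ^ i) v u ^ 2 ≤ δ ^ 2 := by
    calc ∑ u, (P ^ i) v u ^ 2 ≤ ∑ u, δ ^ 2 * (P ^ i) v u := by
          refine Finset.sum_le_sum (fun u _ => ?_)
          rw [sq]
          exact mul_le_mul_of_nonneg_right (hP.ent i hi v u) (hP.nn i v u)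
      _ = δ ^ 2 := by rw [← Finset.mul_sum, hP.row, mul_one]
  exact h1.trans (mul_le_mul_of_nonneg_right h2 (Finset.sum_nonneg (fun u _ => sq_nonneg _)))

private theorem Ha_nm0 (i : ℕ) (v : V) : nm (ap P i (fun _ => (0 : (V → κ) → ℝ)) v) = 0 := by
  rw [ap_eq]
  simp only [smul_zero, Finset.sum_const_zero]
  exact nm_zero

private theorem Ha_f3 (hP : PP P K δ e) {d : ℕ} {ν σ : ℝ} (hν : 0 ≤ ν) {Z : V → (V → κ) → ℝ} (hZ : Bf d ν σ Z)
    (i : ℕ) (v : V) : nm (ap P i (fun u => Dv v (Z u)) v) ≤ ν * δ := by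
  rcases Nat.eq_zero_or_pos i with hi | hi
  · subst hi
    rw [ap_zero, own_Dv v (hZ.own v), nm_zero]
    exact mul_nonneg hν hP.d0
  · refine (nm_ap_le hP i _ v).trans ?_
    refine abs_le_of_sq_le_sq' ?_ (mul_nonneg hν hP.d0) |>.2
    refine (Ha_cs hP hi v _).trans ?_
    calc δ ^ 2 * ∑ u, nm (Dv v (Z u)) ^ 2 ≤ δ ^ 2 * ν ^ 2 :=
          mul_le_mul_of_nonneg_left (hZ.n2 v) (sq_nonneg _)
      _ = (ν * δ) ^ 2 := by ring

private theorem Ha_f4 (hP : PP P K δ e) {d : ℕ} (hd : d ≤ 7) {ν σ : ℝ} {Z : V → (V → κ) → ℝ} (hZ : Bf d ν σ Z)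
    (i : ℕ) (a : V) : ∑ w, nm (ap P i (fun u => Dv w (Dv a (Z u))) w) ^ 2 ≤ 7 * (ν * δ) ^ 2 := by
  rcases Nat.eq_zero_or_pos i with hi | hi
  · subst hi
    have h0 : ∀ w, nm (ap P 0 (fun u => Dv w (Dv a (Z u))) w) ^ 2 = 0 := by
      intro w
      rw [ap_zero, Dv_comm, own_Dv w (hZ.own w)]
      have : Dv a (0 : (V → κ) → ℝ) = 0 := by
        have h := Dv_smul (I := V) (κ := κ) a (0 : ℝ) 0
        rw [zero_smul] at h
        rw [h, zero_smul]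
      rw [this, nm_zero]
      ring
    rw [Finset.sum_congr rfl (fun w _ => h0 w), Finset.sum_const_zero]
    positivity
  · calc ∑ w, nm (ap P i (fun u => Dv w (Dv a (Z u))) w) ^ 2
        ≤ ∑ w, δ ^ 2 * ∑ u, nm (Dv w (Dv a (Z u))) ^ 2 := by
          refine Finset.sum_le_sum (fun w _ => ?_)
          refine le_trans ?_ (Ha_cs hP hi w (fun u => nm (Dv w (Dv a (Z u)))))
          exact pow_le_pow_left₀ (nm_nonneg _) (nm_ap_le hP i _ w) 2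
      _ = δ ^ 2 * ∑ u, ∑ w, nm (Dv w (Dv a (Z u))) ^ 2 := by
          rw [← Finset.mul_sum, Finset.sum_comm]
      _ ≤ δ ^ 2 * ∑ u, 7 * nm (Dv a (Z u)) ^ 2 := by
          refine mul_le_mul_of_nonneg_left ?_ (sq_nonneg _)
          refine Finset.sum_le_sum (fun u _ => ?_)
          refine (h1a (Dg_Dv a (hZ.dg u))).trans ?_
          refine mul_le_mul_of_nonneg_right ?_ (sq_nonneg _)
          exact_mod_cast hd
      _ = 7 * δ ^ 2 * ∑ u, nm (Dv a (Z u)) ^ 2 := by rw [← Finset.mul_sum]; ring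
      _ ≤ 7 * δ ^ 2 * ν ^ 2 := mul_le_mul_of_nonneg_left (hZ.n2 a) (by positivity)
      _ = 7 * (ν * δ) ^ 2 := by ring

private theorem Ha_f5 (hP : PP P K δ e) {σ : ℝ} {Z : V → (V → κ) → ℝ} (h : ∀ v, ∑ a, nm (Dv a (Z v)) ≤ σ)
    (i : ℕ) (v : V) : ∑ a, nm (ap P i (fun u => Dv a (Z u)) v) ≤ σ := by
  calc ∑ a, nm (ap P i (fun u => Dv a (Z u)) v) ≤ ∑ a, ∑ u, (P ^ i) v u * nm (Dv a (Z u)) :=
        Finset.sum_le_sum (fun a _ => nm_ap_le hP i _ v)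
    _ = ∑ u, (P ^ i) v u * ∑ a, nm (Dv a (Z u)) := by
        rw [Finset.sum_comm]
        exact Finset.sum_congr rfl (fun u _ => by rw [Finset.mul_sum])
    _ ≤ ∑ u, (P ^ i) v u * σ :=
        Finset.sum_le_sum (fun u _ => mul_le_mul_of_nonneg_left (h u) (hP.nn i v u))
    _ = σ := by rw [← Finset.sum_mul, hP.row, one_mul]

private theorem Ha_f6 (hP : PP P K δ e) {σ : ℝ} {Z : V → (V → κ) → ℝ} (a : V) (h : ∑ v, nm (Dv a (Z v)) ≤ σ)
    (i : ℕ) : ∑ v, nm (ap P i (fun u => Dv a (Z u)) v) ≤ σ := by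
  refine le_trans ?_ h
  calc ∑ v, nm (ap P i (fun u => Dv a (Z u)) v) ≤ ∑ v, ∑ u, (P ^ i) v u * nm (Dv a (Z u)) :=
        Finset.sum_le_sum (fun v _ => nm_ap_le hP i _ v)
    _ = ∑ u, nm (Dv a (Z u)) := by
        rw [Finset.sum_comm]
        refine Finset.sum_congr rfl (fun u _ => ?_)
        rw [← Finset.sum_mul]
        have : ∑ v, (P ^ i) v u = 1 := by
          rw [← hP.row i u]
          exact Finset.sum_congr rfl (fun v _ => hP.sym i v u)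
        rw [this, one_mul]

/-- the field used in the term `i` -/
private def Ha_z (x y : V → (V → κ) → ℝ) (i : ℕ) : V → (V → κ) → ℝ := if Even i then x else y

private theorem Ha_Bf {d : ℕ} {ν σ : ℝ} {x y : V → (V → κ) → ℝ} (hx : Bf d ν σ x) (hy : Bf d ν σ y) (i : ℕ) :
    Bf d ν σ (Ha_z x y i) := by
  unfold Ha_z
  split_ifs
  · exact hx
  · exact hy

private theorem Ha_L0 (hP : PP P K δ e) (x y : V → (V → κ) → ℝ) (v : V) :
    nm (AA P K x y v) ≤ ∑ i ∈ range K, nm (ap P i (Ha_z x y i) v) := by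
  refine (nm_AA_le hP x y v).trans (le_of_eq ?_)
  refine Finset.sum_congr rfl (fun i _ => ?_)
  unfold Ha_z
  split_ifs <;> rfl

private theorem Ha_L1 (hP : PP P K δ e) (x y : V → (V → κ) → ℝ) (a v : V) :
    nm (Dv a (AA P K x y v)) ≤ ∑ i ∈ range K, nm (ap P i (fun u => Dv a (Ha_z x y i u)) v) := by
  rw [Dv_AA]
  refine (Ha_L0 hP _ _ v).trans (le_of_eq ?_)
  refine Finset.sum_congr rfl (fun i _ => ?_)
  unfold Ha_z
  split_ifs <;> rfl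

private theorem Ha_L2 (hP : PP P K δ e) (x y : V → (V → κ) → ℝ) (a w v : V) :
    nm (Dv w (Dv a (AA P K x y v))) ≤ ∑ i ∈ range K, nm (ap P i (fun u => Dv w (Dv a (Ha_z x y i u))) v) := by
  rw [Dv_AA]
  refine (Ha_L1 hP _ _ w v).trans (le_of_eq ?_)
  refine Finset.sum_congr rfl (fun i _ => ?_)
  unfold Ha_z
  split_ifs <;> rfl

private theorem Ha_G1 (K : ℕ) (c : ℕ → ℝ) (B : ℝ) (h : ∀ i, c i ≤ B) : ∑ i ∈ range K, c i ≤ K * B := by
  refine (Finset.sum_le_sum (fun i _ => h i)).trans (le_of_eq ?_)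
  rw [Finset.sum_const, Finset.card_range, nsmul_eq_mul]

private theorem Ha_G2 (K : ℕ) (N : V → ℝ) (c : ℕ → V → ℝ) (B : ℝ) (h0 : ∀ w, 0 ≤ N w)
    (h1 : ∀ w, N w ≤ ∑ i ∈ range K, c i w) (h : ∀ i, ∑ w, c i w ^ 2 ≤ B) :
    ∑ w, N w ^ 2 ≤ (K : ℝ) ^ 2 * B := by
  calc ∑ w, N w ^ 2 ≤ ∑ w, (K : ℝ) * ∑ i ∈ range K, c i w ^ 2 := by
        refine Finset.sum_le_sum (fun w _ => ?_)
        refine (pow_le_pow_left₀ (h0 w) (h1 w) 2).trans ?_
        have h2 := sq_sum_le_card_mul_sum_sq (s := range K) (f := fun i => c i w)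
        rw [Finset.card_range] at h2
        exact h2
    _ = (K : ℝ) * ∑ i ∈ range K, ∑ w, c i w ^ 2 := by
        rw [← Finset.mul_sum, Finset.sum_comm]
    _ ≤ (K : ℝ) * (K * B) := mul_le_mul_of_nonneg_left (Ha_G1 K _ B h) (Nat.cast_nonneg K)
    _ = (K : ℝ) ^ 2 * B := by ring

theorem ha (hP : PP P K δ e) {d : ℕ} (hd : d ≤ 7) {ν σ : ℝ} (hν : 0 ≤ ν) (hσ : 0 ≤ σ) {x y : V → (V → κ) → ℝ}
    (hx : Bf d ν σ x) (hy : Bf d ν σ y) : Af d δ (K * ν) (K * σ) (AA P K x y) := by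
  have hz := Ha_Bf hx hy
  refine ⟨?_, ?_, ?_, ?_, ?_, ?_, ?_, ?_⟩
  · intro v
    exact ex_AA_zero x y v hx.mean hy.mean
  · intro v
    exact Dg_AA x y v hx.dg hy.dg
  · intro v
    exact (Ha_L0 hP x y v).trans (Ha_G1 K _ ν (fun i => Ha_f1 hP (hz i).n1 i v))
  · intro a
    refine (Ha_G2 K (fun v => nm (Dv a (AA P K x y v))) (fun i v => nm (ap P i (fun u => Dv a (Ha_z x y i u)) v))
      (ν ^ 2) (fun w => nm_nonneg _) (fun w => Ha_L1 hP x y a w) (fun i => Ha_f2 hP a ((hz i).n2 a) i)).trans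
      (le_of_eq (by ring))
  · intro v
    refine (Ha_L1 hP x y v v).trans ((Ha_G1 K _ (ν * δ) (fun i => Ha_f3 hP hν (hz i) i v)).trans
      (le_of_eq (by ring)))
  · intro a
    refine (Ha_G2 K (fun w => nm (Dv w (Dv a (AA P K x y w))))
      (fun i w => nm (ap P i (fun u => Dv w (Dv a (Ha_z x y i u))) w))
      (7 * (ν * δ) ^ 2) (fun w => nm_nonneg _) (fun w => Ha_L2 hP x y a w w)
      (fun i => Ha_f4 hP hd (hz i) i a)).trans (le_of_eq (by ring))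
  · intro v
    calc ∑ a, nm (Dv a (AA P K x y v))
        ≤ ∑ a, ∑ i ∈ range K, nm (ap P i (fun u => Dv a (Ha_z x y i u)) v) :=
          Finset.sum_le_sum (fun a _ => Ha_L1 hP x y a v)
      _ = ∑ i ∈ range K, ∑ a, nm (ap P i (fun u => Dv a (Ha_z x y i u)) v) := Finset.sum_comm
      _ ≤ K * σ := Ha_G1 K _ σ (fun i => Ha_f5 hP (hz i).s1 i v)
  · intro a
    calc ∑ v, nm (Dv a (AA P K x y v))
        ≤ ∑ v, ∑ i ∈ range K, nm (ap P i (fun u => Dv a (Ha_z x y i u)) v) :=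
          Finset.sum_le_sum (fun v _ => Ha_L1 hP x y a v)
      _ = ∑ i ∈ range K, ∑ v, nm (ap P i (fun u => Dv a (Ha_z x y i u)) v) := Finset.sum_comm
      _ ≤ K * σ := Ha_G1 K _ σ (fun i => Ha_f6 hP a ((hz i).s2 a) i)

end

end Pool.Agent.H33.LN
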