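import Pool.Agent.H33.LN.Nx

/-!
Row LNH_Nu: bounds for the fields `fd k`, `AF k` and the corrections `mk k`.
PROOFS. `g := Gam κ K ≥ 1` (`card κ ≥ 1`, `K ≥ 1`), `g ≥ card κ`. `Bf_mono`: larger bounds. `fd_bf`: induction on `k` for all `t, t'`: `k = 0`: `Pom` for `- ap P 1 (om t')` (norms do not see the sign), `m δ ≤ 2 g δ`, `m ≤ 2 g`.
Step: `nx_bf` with `ν = (2gδ)^(k+1)`, `σ = (2g)^(k+1)`: `g (ν δ + e σ) = g (2g)^(k+1) (δ^(k+2) + e) ≤ (2g)^(k+2) δ^(k+2)` since `e ≤ δ^7 ≤ δ^(k+2)`; `g (σ + ν) ≤ 2 g σ` since `ν ≤ σ`.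
`AF_af`: `ha` and `(2gδ)^(k+1) ≤ 2gδ`. `mk_le`: `muu` is `ce (A v) + ce (B w)`: `c_le` of T4.lean.
-/

set_option autoImplicit false
set_option linter.unusedSectionVars false

namespace Pool.Agent.H33.LN

open Finset Classical
open Pool.Agent.H65.GI
open Pool.Agent.H12.LN

section
variable {V κ : Type} [Fintype V] [Fintype κ] [Nonempty κ] {P : Matrix V V ℝ} {K : ℕ} {δ e : ℝ}

private theorem Nu_g1 (κ : Type) [Fintype κ] [Nonempty κ] {K : ℕ} (hK : 1 ≤ K) : 1 ≤ Gam κ K ∧ (Fintype.card κ : ℝ) ≤ Gam κ K := by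
  have hm : (1 : ℝ) ≤ Fintype.card κ := by exact_mod_cast Fintype.card_pos
  have hK1 : (1 : ℝ) ≤ K := by exact_mod_cast hK
  have h1 : (Fintype.card κ : ℝ) ≤ (20 * (Fintype.card κ : ℝ)) ^ 6 := by
    have h2 : (1 : ℝ) ≤ 20 * (Fintype.card κ : ℝ) := by linarith
    have h3 : 20 * (Fintype.card κ : ℝ) ≤ (20 * (Fintype.card κ : ℝ)) ^ 6 := le_self_pow₀ h2 (by norm_num)
    linarith
  have h2 : (1 : ℝ) ≤ (K : ℝ) ^ 2 := one_le_pow₀ hK1
  have h3 : (Fintype.card κ : ℝ) ≤ Gam κ K := by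
    unfold Gam
    calc (Fintype.card κ : ℝ) = Fintype.card κ * 1 := by ring
      _ ≤ (20 * (Fintype.card κ : ℝ)) ^ 6 * (K : ℝ) ^ 2 := mul_le_mul h1 h2 zero_le_one (by positivity)
  exact ⟨hm.trans h3, h3⟩

private theorem Nu_neg {d : ℕ} {ν σ : ℝ} {x : V → (V → κ) → ℝ} (h : Bf d ν σ x) :
    Bf d ν σ (fun v χ => - x v χ) := by
  have hD : ∀ a v, Dv a (fun χ => - x v χ) = - Dv a (x v) := by
    intro a v
    have h1 := Dv_smul a (-1) (x v)
    rw [neg_one_smul, neg_one_smul] at h1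
    exact h1
  have hnD : ∀ a v, nm (Dv a (fun χ => - x v χ)) = nm (Dv a (x v)) := by
    intro a v
    rw [hD, nm_neg]
  refine ⟨?_, ?_, ?_, ?_, ?_, ?_, ?_⟩
  · intro v s
    funext χ
    have h1 := congrFun (h.own v s) χ
    show - rs v s (x v) χ = - x v χ
    rw [h1]
  · intro v
    have h1 := ex_smul (-1) (x v)
    rw [h.mean v, mul_zero] at h1
    have h2 : (fun ω => (-1 : ℝ) * x v ω) = fun χ => - x v χ := by
      funext ω
      ring
    rw [h2] at h1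
    exact h1
  · intro v
    exact Submodule.neg_mem _ (h.dg v)
  · intro v
    exact (le_of_eq (nm_neg (x v))).trans (h.n1 v)
  · intro a
    refine le_trans (le_of_eq ?_) (h.n2 a)
    exact Finset.sum_congr rfl fun v _ => by rw [hnD]
  · intro v
    refine le_trans (le_of_eq ?_) (h.s1 v)
    exact Finset.sum_congr rfl fun a _ => hnD a v
  · intro a
    refine le_trans (le_of_eq ?_) (h.s2 a)
    exact Finset.sum_congr rfl fun v _ => hnD a v

private theorem Nu_mono {d : ℕ} {ν σ ν' σ' : ℝ} {x : V → (V → κ) → ℝ} (h : Bf d ν σ x) (h0 : 0 ≤ ν) (h1 : ν ≤ ν')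
    (h2 : σ ≤ σ') : Bf d ν' σ' x :=
  ⟨h.own, h.mean, h.dg, fun v => (h.n1 v).trans h1, fun a => (h.n2 a).trans (pow_le_pow_left₀ h0 h1 2),
    fun v => (h.s1 v).trans h2, fun a => (h.s2 a).trans h2⟩

theorem fd_bf (hP : PP P K δ e) (he : e ≤ δ ^ 7) (hG : 2 * Gam κ K * δ ≤ 1) (k : ℕ) (hk : k ≤ 6) (t t' : κ) :
    Bf (k + 1) ((2 * Gam κ K * δ) ^ (k + 1)) ((2 * Gam κ K) ^ (k + 1)) (fd P K k t t') := by
  obtain ⟨hg1, hgm⟩ := Nu_g1 κ hP.K1
  have hd0 := hP.d0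
  have hd1 := hP.d1
  have he0 := hP.e0
  have hm : (0 : ℝ) ≤ Fintype.card κ := Nat.cast_nonneg _
  obtain ⟨g, hg⟩ : ∃ g, g = Gam κ K := ⟨_, rfl⟩
  rw [← hg] at hg1 hgm ⊢
  have hg0 : 0 ≤ g := by linarith
  induction k generalizing t t' with
  | zero =>
    have h1 := Nu_neg (Pom (κ := κ) hP t')
    refine Nu_mono h1 (mul_nonneg hm hd0) ?_ ?_
    · rw [zero_add, pow_one]
      exact mul_le_mul_of_nonneg_right (by linarith) hd0
    · rw [zero_add, pow_one]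
      linarith
  | succ k ih =>
    have hx := ih (by omega) t t'
    have hy := ih (by omega) t' t
    have hν : 0 ≤ (2 * g * δ) ^ (k + 1) := by positivity
    have hσ : 0 ≤ (2 * g) ^ (k + 1) := by positivity
    have h1 := nx_bf hP (d := k + 1) (by omega) hν hσ hx hy t t'
    rw [← hg] at h1
    have hδ : e ≤ δ ^ (k + 2) := he.trans (pow_le_pow_of_le_one hd0 hd1 (by omega))
    have hs : 0 ≤ δ ^ (k + 2) := by positivity
    refine Nu_mono h1 (by positivity) ?_ ?_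
    · have e1 : (2 * g * δ) ^ (k + 1) * δ = (2 * g) ^ (k + 1) * δ ^ (k + 2) := by
        rw [mul_pow, pow_succ δ (k + 1)]
        ring
      have e2 : (2 * g * δ) ^ (k + 1 + 1) = g * (2 * ((2 * g) ^ (k + 1) * δ ^ (k + 2))) := by
        rw [mul_pow, pow_succ (2 * g) (k + 1)]
        ring
      rw [e1, e2]
      refine mul_le_mul_of_nonneg_left ?_ hg0
      have e3 : e * (2 * g) ^ (k + 1) ≤ (2 * g) ^ (k + 1) * δ ^ (k + 2) := by
        rw [mul_comm]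
        exact mul_le_mul_of_nonneg_left hδ hσ
      linarith
    · have e1 : (2 * g * δ) ^ (k + 1) ≤ (2 * g) ^ (k + 1) := by
        refine pow_le_pow_left₀ (by positivity) ?_ _
        have : 2 * g * δ ≤ 2 * g * 1 := mul_le_mul_of_nonneg_left hd1 (by linarith)
        linarith
      have e2 : (2 * g) ^ (k + 1 + 1) = g * (2 * (2 * g) ^ (k + 1)) := by
        rw [pow_succ]
        ring
      rw [e2]
      refine mul_le_mul_of_nonneg_left ?_ hg0
      linarith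

theorem AF_af (hP : PP P K δ e) (he : e ≤ δ ^ 7) (hG : 2 * Gam κ K * δ ≤ 1) (k : ℕ) (hk : k ≤ 5) (t t' : κ) :
    Af (k + 1) δ (K * (2 * Gam κ K * δ)) (K * (2 * Gam κ K) ^ (k + 1)) (AF P K k t t') := by
  obtain ⟨hg1, _⟩ := Nu_g1 κ hP.K1
  have hd0 := hP.d0
  have hq : 0 ≤ 2 * Gam κ K * δ := mul_nonneg (by linarith) hd0
  have hν : 0 ≤ (2 * Gam κ K * δ) ^ (k + 1) := pow_nonneg hq _
  have hσ : 0 ≤ (2 * Gam κ K) ^ (k + 1) := pow_nonneg (by linarith) _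
  have hx := fd_bf hP he hG k (by omega) t t'
  have hy := fd_bf hP he hG k (by omega) t' t
  have h := ha hP (d := k + 1) (by omega) hν hσ hx hy
  have hK : (0 : ℝ) ≤ K := Nat.cast_nonneg _
  have h1 : (K : ℝ) * (2 * Gam κ K * δ) ^ (k + 1) ≤ K * (2 * Gam κ K * δ) := by
    refine mul_le_mul_of_nonneg_left ?_ hK
    exact pow_le_of_le_one hq hG (by omega)
  have h0 : 0 ≤ (K : ℝ) * (2 * Gam κ K * δ) ^ (k + 1) := mul_nonneg hK hν
  have h2 : (K : ℝ) * (2 * Gam κ K * δ) ^ (k + 1) * δ ≤ K * (2 * Gam κ K * δ) * δ :=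
    mul_le_mul_of_nonneg_right h1 hd0
  have h3 : 0 ≤ (K : ℝ) * (2 * Gam κ K * δ) ^ (k + 1) * δ := mul_nonneg h0 hd0
  have h4 := pow_le_pow_left₀ h0 h1 2
  have h5 := pow_le_pow_left₀ h3 h2 2
  exact ⟨h.mean, h.dg, fun v => (h.n1 v).trans h1, fun a => (h.n2 a).trans h4, fun v => (h.o1 v).trans h2,
    fun a => (h.o2 a).trans (by linarith), h.s1, h.s2⟩

theorem mk_le (hP : PP P K δ e) (he : e ≤ δ ^ 7) (hG : 2 * Gam κ K * δ ≤ 1) (k : ℕ) (hk : k ≤ 5) (t t' : κ) {v w : V}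
    (h : v ≠ w) : |mk P K k t t' v w| ≤ 4 * Fintype.card κ * (K * (2 * Gam κ K * δ)) := by
  have h1 := AF_af hP he hG k hk t t'
  have h2 := AF_af hP he hG k hk t' t
  have h3 := c_le h1 h2 t t' h
  exact h3

end

end Pool.Agent.H33.LN
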