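import Pool.Agent.H33.LN.Fb
import Pool.Agent.H33.LN.H1

/-!
Row LNH_T1: the term `P ^ K x`.
PROOFS. `n1`: `nm (ap P K x v)^2 = ex ((∑_u c_u x_u)^2)`, `c_u = (P^K) v u`, `= ∑_(u,u') c_u c_u' ex (x_u x_u') ≤ ∑_(u,u') c_u c_u' ∑_a nm (Dv a x_u) nm (Dv a x_u')` (`h1b`, `mean`) `= ∑_a (∑_u c_u M_(a,u))^2`,
`M_(a,u) = nm (Dv a (x u))`; Schur: `(∑_u c_u M_(a,u))^2 ≤ (∑_u M_(a,u)) (∑_u c_u^2 M_(a,u)) ≤ σ ∑_u c_u^2 M_(a,u)`, sum over `a`: `≤ σ^2 ∑ c_u^2 ≤ σ^2 e^2` (`far`).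
`n2`: `nm (Dv a (ap P K x v)) ≤ ∑_u (P^K) v u g_u`, `g_u = nm (Dv a (x u))`; `far2`: `∑_v (..)^2 ≤ e^2 (∑ g)^2 ≤ e^2 σ^2`. `s1`, `s2`: triangle inequality, row and column sums of `P^K` are 1.
-/

set_option autoImplicit false
set_option linter.unusedSectionVars false

namespace Pool.Agent.H33.LN

open Finset Classical
open Pool.Agent.H65.GI
open Pool.Agent.H12.LN

section
variable {V κ : Type} [Fintype V] [Fintype κ] [Nonempty κ] {P : Matrix V V ℝ} {K : ℕ} {δ e : ℝ}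

private theorem T1_nmDv (hP : PP P K δ e) (x : V → (V → κ) → ℝ) (a v : V) :
    nm (Dv a (ap P K x v)) ≤ ∑ u, (P ^ K) v u * nm (Dv a (x u)) := by
  rw [Dv_ap]
  exact nm_ap_le hP K (fun u => Dv a (x u)) v

private theorem T1_cs (c M : V → ℝ) (hM : ∀ u, 0 ≤ M u) (σ : ℝ) (hs : ∑ u, M u ≤ σ) :
    (∑ u, c u * M u) ^ 2 ≤ σ * ∑ u, c u ^ 2 * M u := by
  have h := Finset.sum_sq_le_sum_mul_sum_of_sq_eq_mul (s := (Finset.univ : Finset V)) (r := fun u => c u * M u)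
    (f := M) (g := fun u => c u ^ 2 * M u) (fun u _ => hM u) (fun u _ => mul_nonneg (sq_nonneg _) (hM u))
    (fun u _ => by ring)
  refine h.trans (mul_le_mul_of_nonneg_right hs (Finset.sum_nonneg fun u _ => mul_nonneg (sq_nonneg _) (hM u)))

theorem t1 (hP : PP P K δ e) {d : ℕ} {ν σ : ℝ} (hν : 0 ≤ ν) (hσ : 0 ≤ σ) {x : V → (V → κ) → ℝ} (hx : Bf d ν σ x) :
    Tf (e * σ) σ (fun v => ap P K x v) := by
  have hg : ∀ a u, 0 ≤ nm (Dv a (x u)) := fun a u => nm_nonneg _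
  have hc : ∀ v u, 0 ≤ (P ^ K) v u := fun v u => hP.nn K v u
  refine ⟨?_, ?_, ?_, ?_⟩
  · intro v
    show nm (ap P K x v) ≤ e * σ
    refine (sq_le_sq₀ (nm_nonneg _) (mul_nonneg hP.e0 hσ)).mp ?_
    have hex : ex (ap P K x v) = 0 := by
      rw [ex_ap]
      exact Finset.sum_eq_zero fun u _ => by rw [hx.mean u, mul_zero]
    have h1 : nm (ap P K x v) ^ 2 ≤ ∑ a, nm (Dv a (ap P K x v)) * nm (Dv a (ap P K x v)) := by
      have h2 := h1b (ap P K x v) (ap P K x v) hex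
      have h3 : nm (ap P K x v) ^ 2 = ex (ap P K x v * ap P K x v) := by
        rw [nm_sq]
        congr 1
        funext ω
        show ap P K x v ω ^ 2 = ap P K x v ω * ap P K x v ω
        ring
      rw [h3]
      exact (le_abs_self _).trans h2
    calc nm (ap P K x v) ^ 2 ≤ ∑ a, nm (Dv a (ap P K x v)) * nm (Dv a (ap P K x v)) := h1
      _ ≤ ∑ a, (∑ u, (P ^ K) v u * nm (Dv a (x u))) ^ 2 := by
          refine Finset.sum_le_sum fun a _ => ?_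
          rw [← sq]
          exact pow_le_pow_left₀ (nm_nonneg _) (T1_nmDv hP x a v) 2
      _ ≤ ∑ a, σ * ∑ u, ((P ^ K) v u) ^ 2 * nm (Dv a (x u)) :=
          Finset.sum_le_sum fun a _ => T1_cs _ _ (hg a) σ (hx.s2 a)
      _ = σ * ∑ u, ((P ^ K) v u) ^ 2 * ∑ a, nm (Dv a (x u)) := by
          rw [← Finset.mul_sum, Finset.sum_comm]
          congr 1
          refine Finset.sum_congr rfl fun u _ => ?_
          rw [Finset.mul_sum]
      _ ≤ σ * ∑ u, ((P ^ K) v u) ^ 2 * σ := by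
          refine mul_le_mul_of_nonneg_left (Finset.sum_le_sum fun u _ => ?_) hσ
          exact mul_le_mul_of_nonneg_left (hx.s1 u) (sq_nonneg _)
      _ = σ ^ 2 * ∑ u, ((P ^ K) v u) ^ 2 := by
          rw [← Finset.sum_mul]; ring
      _ ≤ σ ^ 2 * e ^ 2 := mul_le_mul_of_nonneg_left (hP.far v) (sq_nonneg _)
      _ = (e * σ) ^ 2 := by ring
  · intro a
    show ∑ v, nm (Dv a (ap P K x v)) ^ 2 ≤ (e * σ) ^ 2
    calc ∑ v, nm (Dv a (ap P K x v)) ^ 2 ≤ ∑ v, (∑ u, (P ^ K) v u * nm (Dv a (x u))) ^ 2 :=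
          Finset.sum_le_sum fun v _ => pow_le_pow_left₀ (nm_nonneg _) (T1_nmDv hP x a v) 2
      _ ≤ e ^ 2 * (∑ u, nm (Dv a (x u))) ^ 2 := hP.far2 (fun u => nm (Dv a (x u))) (fun u => hg a u)
      _ ≤ e ^ 2 * σ ^ 2 := by
          refine mul_le_mul_of_nonneg_left ?_ (sq_nonneg _)
          exact pow_le_pow_left₀ (Finset.sum_nonneg fun u _ => hg a u) (hx.s2 a) 2
      _ = (e * σ) ^ 2 := by ring
  · intro v
    show ∑ a, nm (Dv a (ap P K x v)) ≤ σ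
    calc ∑ a, nm (Dv a (ap P K x v)) ≤ ∑ a, ∑ u, (P ^ K) v u * nm (Dv a (x u)) :=
          Finset.sum_le_sum fun a _ => T1_nmDv hP x a v
      _ = ∑ u, (P ^ K) v u * ∑ a, nm (Dv a (x u)) := by
          rw [Finset.sum_comm]
          refine Finset.sum_congr rfl fun u _ => ?_
          rw [Finset.mul_sum]
      _ ≤ ∑ u, (P ^ K) v u * σ :=
          Finset.sum_le_sum fun u _ => mul_le_mul_of_nonneg_left (hx.s1 u) (hc v u)
      _ = σ := by rw [← Finset.sum_mul, hP.row K v, one_mul]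
  · intro a
    show ∑ v, nm (Dv a (ap P K x v)) ≤ σ
    calc ∑ v, nm (Dv a (ap P K x v)) ≤ ∑ v, ∑ u, (P ^ K) v u * nm (Dv a (x u)) :=
          Finset.sum_le_sum fun v _ => T1_nmDv hP x a v
      _ = ∑ u, nm (Dv a (x u)) * ∑ v, (P ^ K) u v := by
          rw [Finset.sum_comm]
          refine Finset.sum_congr rfl fun u _ => ?_
          rw [Finset.mul_sum]
          refine Finset.sum_congr rfl fun v _ => ?_
          rw [hP.sym K v u, mul_comm]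
      _ = ∑ u, nm (Dv a (x u)) := Finset.sum_congr rfl fun u _ => by rw [hP.row K u, mul_one]
      _ ≤ σ := hx.s2 a

end

end Pool.Agent.H33.LN
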