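import Pool.Agent.H33.LN.Fb
import Pool.Agent.H33.LN.H2c

/-!
Row LNH_T2: the field `P om` and the term `A v * (P om) v`.
PROOFS. `Pom`: `x v = ap P 1 (om t') v = ∑_w P v w • om t' w` (`pow_one`). `nm (x v)^2 = ∑_w (P v w)^2 nm (om t' w)^2 ≤ m^2 ∑_w (P v w)^2 ≤ m^2 δ^2`: the variables `om t' w` are orthogonal
(`ex (om t' w * om t' w') = 0` for `w ≠ w'`: `ex_av_mul`, `av_om`), `∑_w (P v w)^2 ≤ δ^2` (`ent 1`, `row 1`). `Dv a (x v) = P v a • om t' a`. So `∑_v nm (Dv a (x v))^2 ≤ m^2 ∑_v (P v a)^2 ≤ (m δ)^2`,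
`∑_a nm (Dv a (x v)) ≤ m`, `∑_v nm (Dv a (x v)) ≤ m`. Degree 1. Own: `P v v = 0`.
`t2`: `h2_mul`, `h2_Dmul` (degrees `d + 1 ≤ 8`): `nm ≤ (20m)^4 ν m δ`; `nm (Dv a (A v * x v)) ≤ 2 (20m)^4 (nm (Dv a (A v)) m δ + ν nm (Dv a (x v)))`; squares: `(p + q)^2 ≤ 2 p^2 + 2 q^2`:
`∑_v ≤ (2 (20m)^4)^2 (2 (ν m δ)^2 + 2 (ν m δ)^2) = (4 (20m)^4 ν m δ)^2`. Sums: `≤ 2 (20m)^4 (σ m δ + ν m)`, `δ ≤ 1`.
-/

set_option autoImplicit false
set_option linter.unusedSectionVars false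

namespace Pool.Agent.H33.LN

open Finset Classical
open Pool.Agent.H65.GI
open Pool.Agent.H12.LN

section
variable {V κ : Type} [Fintype V] [Fintype κ] [Nonempty κ] {P : Matrix V V ℝ} {K : ℕ} {δ e : ℝ}

private theorem T2_ex_sum {Ω ι : Type} [Fintype Ω] (J : Finset ι) (F : ι → Ω → ℝ) :
    ex (fun ω => ∑ j ∈ J, F j ω) = ∑ j ∈ J, ex (F j) := by
  unfold ex
  rw [Finset.sum_comm, Finset.sum_div]

private theorem T2_ex_mulc {Ω : Type} [Fintype Ω] (c : ℝ) (F : Ω → ℝ) :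
    ex (fun ω => c * F ω) = c * ex F := by
  unfold ex
  rw [← Finset.mul_sum, mul_div_assoc]

private theorem T2_om_orth (t' : κ) {u w : V} (h : u ≠ w) :
    ex (fun χ => om t' u χ * om t' w χ) = 0 := by
  have h1 := ex_av_mul w (om t' u) (om t' w)
  rw [av_om_ne t' h.symm, av_om] at h1
  have h2 : ex (om t' u * (0 : (V → κ) → ℝ)) = 0 := by
    rw [mul_zero]
    unfold ex
    simp
  rw [h2] at h1
  exact h1

private theorem T2_om_mean (t' : κ) (u : V) : ex (om t' u) = 0 := by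
  rw [← Dv_om t' u]
  exact ex_Dv u _

private theorem T2_sq (hP : PP P K δ e) (v : V) : ∑ u, ((P ^ 1) v u) ^ 2 ≤ δ ^ 2 := by
  have h1 : ∀ u, ((P ^ 1) v u) ^ 2 ≤ δ ^ 2 * (P ^ 1) v u := by
    intro u
    rw [pow_two ((P ^ 1) v u)]
    exact mul_le_mul_of_nonneg_right (hP.ent 1 (le_refl 1) v u) (hP.nn 1 v u)
  calc ∑ u, ((P ^ 1) v u) ^ 2 ≤ ∑ u, δ ^ 2 * (P ^ 1) v u := Finset.sum_le_sum (fun u _ => h1 u)
    _ = δ ^ 2 := by rw [← Finset.mul_sum, hP.row 1 v, mul_one]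

private theorem T2_nm (hP : PP P K δ e) (t' : κ) (v : V) :
    nm (ap P 1 (om t') v) ≤ Fintype.card κ * δ := by
  have hm : (0 : ℝ) ≤ Fintype.card κ := Nat.cast_nonneg _
  have h0 : nm (ap P 1 (om t') v) ^ 2 ≤ (Fintype.card κ * δ) ^ 2 := by
    rw [nm_sq]
    have e1 : (fun χ => ap P 1 (om t') v χ ^ 2) =
        fun χ => ∑ u, ∑ w, ((P ^ 1) v u * (P ^ 1) v w) * (om t' u χ * om t' w χ) := by
      funext χ
      unfold ap
      rw [pow_two, Finset.sum_mul_sum]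
      apply Finset.sum_congr rfl
      intro u _
      apply Finset.sum_congr rfl
      intro w _
      ring
    rw [e1, T2_ex_sum]
    have e2 : ∀ u, ex (fun χ => ∑ w, ((P ^ 1) v u * (P ^ 1) v w) * (om t' u χ * om t' w χ)) =
        ((P ^ 1) v u) ^ 2 * nm (om t' u) ^ 2 := by
      intro u
      rw [T2_ex_sum]
      rw [Finset.sum_eq_single u]
      · rw [T2_ex_mulc, nm_sq]
        congr 1
        · ring
        · congr 1
          funext χ
          ring
      · intro w _ hw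
        rw [T2_ex_mulc, T2_om_orth t' hw.symm, mul_zero]
      · intro hu
        exact absurd (Finset.mem_univ u) hu
    rw [Finset.sum_congr rfl (fun u _ => e2 u)]
    have h3 : ∀ u, ((P ^ 1) v u) ^ 2 * nm (om t' u) ^ 2 ≤
        ((P ^ 1) v u) ^ 2 * (Fintype.card κ : ℝ) ^ 2 := by
      intro u
      apply mul_le_mul_of_nonneg_left _ (sq_nonneg _)
      exact pow_le_pow_left₀ (nm_nonneg _) (nm_om t' u) 2
    calc ∑ u, ((P ^ 1) v u) ^ 2 * nm (om t' u) ^ 2
        ≤ ∑ u, ((P ^ 1) v u) ^ 2 * (Fintype.card κ : ℝ) ^ 2 := Finset.sum_le_sum (fun u _ => h3 u)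
      _ = (∑ u, ((P ^ 1) v u) ^ 2) * (Fintype.card κ : ℝ) ^ 2 := by rw [Finset.sum_mul]
      _ ≤ δ ^ 2 * (Fintype.card κ : ℝ) ^ 2 :=
          mul_le_mul_of_nonneg_right (T2_sq hP v) (sq_nonneg _)
      _ = (Fintype.card κ * δ) ^ 2 := by ring
  exact (sq_le_sq₀ (nm_nonneg _) (mul_nonneg hm hP.d0)).1 h0

private theorem T2_Dv (t' : κ) (a v : V) :
    Dv a (ap P 1 (om t') v) = (P ^ 1) v a • om t' a := by
  rw [Dv_ap]
  funext χ
  unfold ap
  rw [Finset.sum_eq_single a]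
  · show (P ^ 1) v a * Dv a (om t' a) χ = _
    rw [Dv_om]
    rfl
  · intro u _ hu
    show (P ^ 1) v u * Dv a (om t' u) χ = 0
    rw [Dv_om_ne t' hu.symm]
    simp
  · intro ha
    exact absurd (Finset.mem_univ a) ha

private theorem T2_nmDv (hP : PP P K δ e) (t' : κ) (a v : V) :
    nm (Dv a (ap P 1 (om t') v)) ≤ (P ^ 1) v a * Fintype.card κ := by
  rw [T2_Dv, nm_smul, abs_of_nonneg (hP.nn 1 v a)]
  exact mul_le_mul_of_nonneg_left (nm_om t' a) (hP.nn 1 v a)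

private theorem T2_fin {m C δ ν σ : ℝ} (hm : 0 ≤ m) (hC : 0 ≤ C) (_hδ : 0 ≤ δ) (hδ1 : δ ≤ 1)
    (hν : 0 ≤ ν) (hσ : 0 ≤ σ) :
    2 * C * (σ * (m * δ) + ν * m) ≤ 4 * C * m * (σ + ν) := by
  have h1 : σ * (m * δ) ≤ σ * m := by
    apply mul_le_mul_of_nonneg_left _ hσ
    exact mul_le_of_le_one_right hm hδ1
  have h2 : 2 * C * (σ * (m * δ) + ν * m) ≤ 2 * C * (σ * m + ν * m) := by
    apply mul_le_mul_of_nonneg_left _ (by positivity)
    linarith
  have h3 : 0 ≤ 2 * C * (σ * m + ν * m) := by positivity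
  calc _ ≤ _ := h2
    _ ≤ 2 * (2 * C * (σ * m + ν * m)) := by linarith
    _ = _ := by ring

theorem Pom (hP : PP P K δ e) (t' : κ) :
    Bf 1 (Fintype.card κ * δ) (Fintype.card κ) (fun v => ap P 1 (om t') v) := by
  have hm : (0 : ℝ) ≤ Fintype.card κ := Nat.cast_nonneg _
  constructor
  · intro v s
    funext χ
    unfold rs ap
    apply Finset.sum_congr rfl
    intro w _
    by_cases hw : w = v
    · subst hw
      have : (P ^ 1) w w = 0 := by rw [pow_one]; exact hP.diag w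
      rw [this, zero_mul, zero_mul]
    · congr 1
      unfold om
      rw [Function.update_of_ne hw]
  · intro v
    show ex (ap P 1 (om t') v) = 0
    rw [ex_ap]
    apply Finset.sum_eq_zero
    intro u _
    rw [T2_om_mean, mul_zero]
  · intro v
    exact Dg_ap 1 (om t') v (fun u => Dg_loc {u} (by simp) (om_loc t' u))
  · intro v
    exact T2_nm hP t' v
  · intro a
    calc ∑ v, nm (Dv a (ap P 1 (om t') v)) ^ 2
        ≤ ∑ v, ((P ^ 1) a v) ^ 2 * (Fintype.card κ : ℝ) ^ 2 := by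
          apply Finset.sum_le_sum
          intro v _
          have h1 := T2_nmDv hP t' a v
          rw [hP.sym 1 v a] at h1
          calc nm (Dv a (ap P 1 (om t') v)) ^ 2 ≤ ((P ^ 1) a v * Fintype.card κ) ^ 2 :=
                pow_le_pow_left₀ (nm_nonneg _) h1 2
            _ = ((P ^ 1) a v) ^ 2 * (Fintype.card κ : ℝ) ^ 2 := by ring
      _ = (∑ v, ((P ^ 1) a v) ^ 2) * (Fintype.card κ : ℝ) ^ 2 := by rw [Finset.sum_mul]
      _ ≤ δ ^ 2 * (Fintype.card κ : ℝ) ^ 2 :=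
          mul_le_mul_of_nonneg_right (T2_sq hP a) (sq_nonneg _)
      _ = (Fintype.card κ * δ) ^ 2 := by ring
  · intro v
    calc ∑ a, nm (Dv a (ap P 1 (om t') v)) ≤ ∑ a, (P ^ 1) v a * (Fintype.card κ : ℝ) :=
          Finset.sum_le_sum (fun a _ => T2_nmDv hP t' a v)
      _ = Fintype.card κ := by rw [← Finset.sum_mul, hP.row 1 v, one_mul]
  · intro a
    calc ∑ v, nm (Dv a (ap P 1 (om t') v)) ≤ ∑ v, (P ^ 1) a v * (Fintype.card κ : ℝ) := by
          apply Finset.sum_le_sum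
          intro v _
          have h1 := T2_nmDv hP t' a v
          rw [hP.sym 1 v a] at h1
          exact h1
      _ = Fintype.card κ := by rw [← Finset.sum_mul, hP.row 1 a, one_mul]

theorem t2 (hP : PP P K δ e) {d : ℕ} (hd : d ≤ 7) {ν σ : ℝ} (hν : 0 ≤ ν) (hσ : 0 ≤ σ) {A : V → (V → κ) → ℝ}
    (hA : Af d δ ν σ A) (t' : κ) :
    Tf (4 * (20 * (Fintype.card κ : ℝ)) ^ 4 * Fintype.card κ * ν * δ)
      (4 * (20 * (Fintype.card κ : ℝ)) ^ 4 * Fintype.card κ * (σ + ν)) (fun v => A v * ap P 1 (om t') v) := by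
  have hB := Pom hP t'
  have hm : (0 : ℝ) ≤ Fintype.card κ := Nat.cast_nonneg _
  set m : ℝ := (Fintype.card κ : ℝ) with hmdef
  set C : ℝ := (20 * m) ^ 4 with hC
  have hC0 : 0 ≤ C := by positivity
  have hd8 : d + 1 ≤ 8 := by omega
  have hδ := hP.d0
  have hδ1 := hP.d1
  have hD : ∀ a v, nm (Dv a (A v * ap P 1 (om t') v)) ≤
      2 * C * (nm (Dv a (A v)) * (m * δ) + ν * nm (Dv a (ap P 1 (om t') v))) := by
    intro a v
    have h1 := h2_Dmul hd8 (hA.dg v) (hB.dg v) a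
    refine le_trans h1 ?_
    apply mul_le_mul_of_nonneg_left _ (by positivity)
    apply add_le_add
    · exact mul_le_mul_of_nonneg_left (hB.n1 v) (nm_nonneg _)
    · exact mul_le_mul_of_nonneg_right (hA.n1 v) (nm_nonneg _)
  constructor
  · intro v
    have h1 := h2_mul hd8 (hA.dg v) (hB.dg v)
    have h2 : nm (A v) * nm (ap P 1 (om t') v) ≤ ν * (m * δ) :=
      mul_le_mul (hA.n1 v) (hB.n1 v) (nm_nonneg _) hν
    have h3 : C * (nm (A v) * nm (ap P 1 (om t') v)) ≤ C * (ν * (m * δ)) :=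
      mul_le_mul_of_nonneg_left h2 hC0
    have h4 : 0 ≤ C * (ν * (m * δ)) := by positivity
    calc nm (A v * ap P 1 (om t') v) ≤ C * (ν * (m * δ)) := le_trans h1 h3
      _ ≤ 4 * (C * (ν * (m * δ))) := by linarith
      _ = 4 * C * m * ν * δ := by ring
  · intro a
    have h1 : ∀ v, nm (Dv a (A v * ap P 1 (om t') v)) ^ 2 ≤
        8 * C ^ 2 * (nm (Dv a (A v)) ^ 2 * (m * δ) ^ 2 +
          ν ^ 2 * nm (Dv a (ap P 1 (om t') v)) ^ 2) := by
      intro v
      set p := nm (Dv a (A v)) * (m * δ) with hp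
      set q := ν * nm (Dv a (ap P 1 (om t') v)) with hq
      have h2 : nm (Dv a (A v * ap P 1 (om t') v)) ^ 2 ≤ (2 * C * (p + q)) ^ 2 :=
        pow_le_pow_left₀ (nm_nonneg _) (hD a v) 2
      have h3 : (2 * C * (p + q)) ^ 2 ≤ 8 * C ^ 2 * (p ^ 2 + q ^ 2) := by
        have h4 : 0 ≤ C ^ 2 * (p - q) ^ 2 := by positivity
        nlinarith [h4]
      calc _ ≤ _ := h2
        _ ≤ _ := h3
        _ = _ := by rw [hp, hq]; ring
    calc ∑ v, nm (Dv a (A v * ap P 1 (om t') v)) ^ 2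
        ≤ ∑ v, 8 * C ^ 2 * (nm (Dv a (A v)) ^ 2 * (m * δ) ^ 2 +
          ν ^ 2 * nm (Dv a (ap P 1 (om t') v)) ^ 2) := Finset.sum_le_sum (fun v _ => h1 v)
      _ = 8 * C ^ 2 * ((∑ v, nm (Dv a (A v)) ^ 2) * (m * δ) ^ 2 +
          ν ^ 2 * ∑ v, nm (Dv a (ap P 1 (om t') v)) ^ 2) := by
          rw [← Finset.mul_sum, Finset.sum_add_distrib, Finset.sum_mul, Finset.mul_sum]
      _ ≤ 8 * C ^ 2 * (ν ^ 2 * (m * δ) ^ 2 + ν ^ 2 * (m * δ) ^ 2) := by
          apply mul_le_mul_of_nonneg_left _ (by positivity)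
          apply add_le_add
          · exact mul_le_mul_of_nonneg_right (hA.n2 a) (sq_nonneg _)
          · exact mul_le_mul_of_nonneg_left (hB.n2 a) (sq_nonneg _)
      _ = (4 * C * m * ν * δ) ^ 2 := by ring
  · intro v
    have hs : ∑ a, nm (Dv a (A v * ap P 1 (om t') v)) ≤
        2 * C * (σ * (m * δ) + ν * m) := by
      calc ∑ a, nm (Dv a (A v * ap P 1 (om t') v))
          ≤ ∑ a, 2 * C * (nm (Dv a (A v)) * (m * δ) + ν * nm (Dv a (ap P 1 (om t') v))) :=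
            Finset.sum_le_sum (fun a _ => hD a v)
        _ = 2 * C * ((∑ a, nm (Dv a (A v))) * (m * δ) +
            ν * ∑ a, nm (Dv a (ap P 1 (om t') v))) := by
            rw [← Finset.mul_sum, Finset.sum_add_distrib, Finset.sum_mul, Finset.mul_sum]
        _ ≤ 2 * C * (σ * (m * δ) + ν * m) := by
            apply mul_le_mul_of_nonneg_left _ (by positivity)
            apply add_le_add
            · exact mul_le_mul_of_nonneg_right (hA.s1 v) (by positivity)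
            · exact mul_le_mul_of_nonneg_left (hB.s1 v) hν
    exact le_trans hs (T2_fin hm hC0 hδ hδ1 hν hσ)
  · intro a
    have hs : ∑ v, nm (Dv a (A v * ap P 1 (om t') v)) ≤
        2 * C * (σ * (m * δ) + ν * m) := by
      calc ∑ v, nm (Dv a (A v * ap P 1 (om t') v))
          ≤ ∑ v, 2 * C * (nm (Dv a (A v)) * (m * δ) + ν * nm (Dv a (ap P 1 (om t') v))) :=
            Finset.sum_le_sum (fun v _ => hD a v)
        _ = 2 * C * ((∑ v, nm (Dv a (A v))) * (m * δ) +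
            ν * ∑ v, nm (Dv a (ap P 1 (om t') v))) := by
            rw [← Finset.mul_sum, Finset.sum_add_distrib, Finset.sum_mul, Finset.mul_sum]
        _ ≤ 2 * C * (σ * (m * δ) + ν * m) := by
            apply mul_le_mul_of_nonneg_left _ (by positivity)
            apply add_le_add
            · exact mul_le_mul_of_nonneg_right (hA.s2 a) (by positivity)
            · exact mul_le_mul_of_nonneg_left (hB.s2 a) hν
    exact le_trans hs (T2_fin hm hC0 hδ hδ1 hν hσ)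

end

end Pool.Agent.H33.LN
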