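import Pool.Agent.H33.LN.Fb
import Pool.Agent.H33.LN.H1

/-!
Row LNH_T3a: the norm of the term `P (om B)`.   `T v = ap P 1 (fun w => om t' w * B w) v = ∑_w P v w • (om t' w * B w)` (`pow_one`), `m = card κ`.
PROOFS. `nm (T v)^2 = ∑_(w,w') P v w P v w' ex (om_w om_w' B_w B_w')`. Diagonal: `∑_w (P v w)^2 (m nm (B w))^2 ≤ δ^2 m^2 ν^2` (`|om| ≤ m`, `∑_w (P v w)^2 ≤ δ^2` by `ent 1`, `row 1`).
`w ≠ w'`: `h3` (with `t = t'`) : `m^2 (nm (D_w D_w' B_w) nm B_w' + nm (D_w B_w) nm (D_w' B_w') + nm (D_w' B_w) nm (D_w B_w') + nm B_w nm (D_w D_w' B_w'))`. Sums with the weights `P v w P v w'`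
(put all the sums over ALL `w, w'`, the terms are nonnegative):
(i) `∑_w P v w ∑_w' P v w' nm (D_w D_w' B_w) ν`: `∑_w' P v w' nm (D_w' (D_w B_w)) ≤ δ (∑_w' nm (D_w' (D_w B_w))^2)^(1/2) ≤ δ (7 nm (D_w B_w)^2)^(1/2) ≤ 7^(1/2) δ ν δ` (`h1a`, `o1`): `≤ 3 δ^2 ν^2`; (iv) is the same by symmetry;
(ii) `≤ (ν δ)^2`; (iii) `p q ≤ (p^2 + q^2)/2` and symmetry: `≤ ∑_w P v w ∑_w' P v w' nm (D_w' B_w)^2 ≤ ∑_w P v w δ^2 7 ν^2 = 7 δ^2 ν^2` (`ent 1`, `h1a`). Total `≤ m^2 ν^2 δ^2 (1 + 3 + 3 + 1 + 7) ≤ (5 m ν δ)^2`.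
-/

set_option autoImplicit false
set_option linter.unusedSectionVars false

namespace Pool.Agent.H33.LN

open Finset Classical
open Pool.Agent.H65.GI
open Pool.Agent.H12.LN

section
variable {V κ : Type} [Fintype V] [Fintype κ] [Nonempty κ] {P : Matrix V V ℝ} {K : ℕ} {δ e : ℝ}

/-- the expectation of the square of a linear combination -/
private theorem T3_sq (c : V → ℝ) (U : V → (V → κ) → ℝ) :
    nm (∑ w, c w • U w) ^ 2 = ∑ w, ∑ w', c w * c w' * ex (U w * U w') := by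
  rw [nm_sq]
  have e1 : (fun χ => (∑ w, c w • U w) χ ^ 2) =
      fun χ => ∑ w, ∑ w', c w * c w' * (U w * U w') χ := by
    funext χ
    rw [Finset.sum_apply, sq, Finset.sum_mul_sum]
    refine Finset.sum_congr rfl (fun w _ => Finset.sum_congr rfl (fun w' _ => ?_))
    simp only [Pi.smul_apply, Pi.mul_apply, smul_eq_mul]
    ring
  rw [e1, ex_sum]
  refine Finset.sum_congr rfl (fun w _ => ?_)
  rw [ex_sum]
  exact Finset.sum_congr rfl (fun w' _ => ex_smul _ _)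

/-- Cauchy-Schwarz with a bound -/
private theorem T3_cs (c s : V → ℝ) (hc : ∀ w, 0 ≤ c w) (hs : ∀ w, 0 ≤ s w) {D X Y : ℝ} (hY : 0 ≤ Y)
    (h1 : ∑ w, c w ^ 2 ≤ D ^ 2) (h2 : ∑ w, s w ^ 2 ≤ 7 * X ^ 2) (h3 : D * (3 * X) = Y) : ∑ w, c w * s w ≤ Y := by
  have h4 := Finset.sum_mul_sq_le_sq_mul_sq univ c s
  have h5 : (∑ w, c w ^ 2) * ∑ w, s w ^ 2 ≤ D ^ 2 * (7 * X ^ 2) :=
    mul_le_mul h1 h2 (Finset.sum_nonneg (fun w _ => sq_nonneg _)) (sq_nonneg _)
  have h6 : (∑ w, c w * s w) ^ 2 ≤ Y ^ 2 := by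
    rw [← h3]
    nlinarith [sq_nonneg (D * X)]
  exact (pow_le_pow_iff_left₀ (Finset.sum_nonneg (fun w _ => mul_nonneg (hc w) (hs w))) hY two_ne_zero).1 h6

theorem t3a (hP : PP P K δ e) {d : ℕ} (hd : d ≤ 7) {ν σ : ℝ} (hν : 0 ≤ ν) (hσ : 0 ≤ σ) {B : V → (V → κ) → ℝ}
    (hB : Af d δ ν σ B) (t' : κ) (v : V) :
    nm (ap P 1 (fun w => om t' w * B w) v) ≤ 5 * Fintype.card κ * ν * δ := by
  set m : ℝ := (Fintype.card κ : ℝ) with hm
  have hm0 : 0 ≤ m := Nat.cast_nonneg _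
  have hδ := hP.d0
  have hc0 : ∀ w, 0 ≤ P v w := by
    intro w
    have := hP.nn 1 v w
    rwa [pow_one] at this
  have hc1 : ∑ w, P v w = 1 := by
    have := hP.row 1 v
    rwa [pow_one] at this
  have hce : ∀ w, P v w ≤ δ ^ 2 := by
    intro w
    have := hP.ent 1 (le_refl 1) v w
    rwa [pow_one] at this
  have hcs : ∑ w, P v w ^ 2 ≤ δ ^ 2 := by
    calc ∑ w, P v w ^ 2 ≤ ∑ w, δ ^ 2 * P v w := by
          refine Finset.sum_le_sum (fun w _ => ?_)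
          rw [sq]
          exact mul_le_mul_of_nonneg_right (hce w) (hc0 w)
      _ = δ ^ 2 := by rw [← Finset.mul_sum, hc1, mul_one]
  -- the abbreviations
  obtain ⟨s, hs⟩ : ∃ s : V → V → ℝ, ∀ w w', s w w' = nm (Dv w (Dv w' (B w))) := ⟨fun w w' => _, fun _ _ => rfl⟩
  obtain ⟨p, hp⟩ : ∃ p : V → V → ℝ, ∀ w w', p w w' = nm (Dv w' (B w)) := ⟨fun w w' => _, fun _ _ => rfl⟩
  have hs0 : ∀ w w', 0 ≤ s w w' := fun w w' => by rw [hs]; exact nm_nonneg _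
  have hp0 : ∀ w w', 0 ≤ p w w' := fun w w' => by rw [hp]; exact nm_nonneg _
  have hpw : ∀ w, p w w ≤ ν * δ := fun w => by rw [hp]; exact hB.o1 w
  have hd7 : (d : ℝ) ≤ 7 := by exact_mod_cast hd
  have hsum_s : ∀ w, ∑ w', s w w' ^ 2 ≤ 7 * (ν * δ) ^ 2 := by
    intro w
    have h1 := h1a (Dg_Dv w (hB.dg w))
    have e1 : ∑ w', s w w' ^ 2 = ∑ a, nm (Dv a (Dv w (B w))) ^ 2 := by
      refine Finset.sum_congr rfl (fun a _ => ?_)
      rw [hs, Dv_comm]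
    rw [e1]
    refine h1.trans ?_
    have h2 : nm (Dv w (B w)) ^ 2 ≤ (ν * δ) ^ 2 := pow_le_pow_left₀ (nm_nonneg _) (hB.o1 w) 2
    calc (d : ℝ) * nm (Dv w (B w)) ^ 2 ≤ 7 * nm (Dv w (B w)) ^ 2 :=
          mul_le_mul_of_nonneg_right hd7 (sq_nonneg _)
      _ ≤ 7 * (ν * δ) ^ 2 := mul_le_mul_of_nonneg_left h2 (by norm_num)
  have hsum_p : ∀ w, ∑ w', p w w' ^ 2 ≤ 7 * ν ^ 2 := by
    intro w
    have h1 := h1a (hB.dg w)
    have e1 : ∑ w', p w w' ^ 2 = ∑ a, nm (Dv a (B w)) ^ 2 := by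
      refine Finset.sum_congr rfl (fun a _ => ?_)
      rw [hp]
    rw [e1]
    refine h1.trans ?_
    have h2 : nm (B w) ^ 2 ≤ ν ^ 2 := pow_le_pow_left₀ (nm_nonneg _) (hB.n1 w) 2
    calc (d : ℝ) * nm (B w) ^ 2 ≤ 7 * nm (B w) ^ 2 :=
          mul_le_mul_of_nonneg_right hd7 (sq_nonneg _)
      _ ≤ 7 * ν ^ 2 := mul_le_mul_of_nonneg_left h2 (by norm_num)
  -- the entries
  have hent : ∀ w w', ex ((om t' w * B w) * (om t' w' * B w')) ≤
      m ^ 2 * ((if w = w' then ν ^ 2 else 0) + s w w' * ν + (ν * δ) ^ 2 +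
        (p w w' ^ 2 + p w' w ^ 2) / 2 + ν * s w' w) := by
    intro w w'
    by_cases hw : w = w'
    · subst hw
      rw [if_pos rfl]
      have h1 : ex ((om t' w * B w) * (om t' w * B w)) ≤ m ^ 2 * ν ^ 2 := by
        have h2 := ex_mul_le (om t' w * B w) (om t' w * B w)
        have h3 : nm (om t' w * B w) ≤ m * ν := by
          refine (nm_mul_le_of (om t' w) (B w) m hm0 (fun χ => om_abs t' w χ)).trans ?_
          exact mul_le_mul_of_nonneg_left (hB.n1 w) hm0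
        calc ex ((om t' w * B w) * (om t' w * B w)) ≤ nm (om t' w * B w) * nm (om t' w * B w) :=
              (le_abs_self _).trans h2
          _ ≤ (m * ν) * (m * ν) := mul_le_mul h3 h3 (nm_nonneg _) (mul_nonneg hm0 hν)
          _ = m ^ 2 * ν ^ 2 := by ring
      refine h1.trans ?_
      have h4 := hs0 w w
      refine mul_le_mul_of_nonneg_left ?_ (sq_nonneg m)
      have h5 : 0 ≤ s w w * ν := mul_nonneg h4 hν
      nlinarith [sq_nonneg (ν * δ), sq_nonneg (p w w)]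
    · rw [if_neg hw, zero_add]
      have h1 := h3 hw t' t' (B w) (B w')
      have e1 : (om t' w * B w) * (om t' w' * B w') = om t' w * om t' w' * (B w * B w') := by ring
      rw [e1]
      refine (le_abs_self _).trans (h1.trans ?_)
      refine mul_le_mul_of_nonneg_left ?_ (sq_nonneg m)
      rw [Dv_comm w w' (B w'), ← hs, ← hs, ← hp, ← hp, ← hp, ← hp]
      have g1 : s w w' * nm (B w') ≤ s w w' * ν := mul_le_mul_of_nonneg_left (hB.n1 w') (hs0 w w')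
      have g2 : p w w * p w' w' ≤ (ν * δ) ^ 2 := by
        rw [sq]
        exact mul_le_mul (hpw w) (hpw w') (hp0 _ _) (mul_nonneg hν hδ)
      have g3 : p w w' * p w' w ≤ (p w w' ^ 2 + p w' w ^ 2) / 2 := by
        nlinarith [sq_nonneg (p w w' - p w' w)]
      have g4 : nm (B w) * s w' w ≤ ν * s w' w := mul_le_mul_of_nonneg_right (hB.n1 w) (hs0 w' w)
      linarith
  -- the sums
  have hcc : ∀ w w', 0 ≤ P v w * P v w' := fun w w' => mul_nonneg (hc0 w) (hc0 w')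
  have S1 : ∑ w, ∑ w', P v w * P v w' * (if w = w' then ν ^ 2 else 0) ≤ ν ^ 2 * δ ^ 2 := by
    have e1 : ∑ w, ∑ w', P v w * P v w' * (if w = w' then ν ^ 2 else 0) = ∑ w, ν ^ 2 * P v w ^ 2 := by
      refine Finset.sum_congr rfl (fun w _ => ?_)
      rw [Finset.sum_eq_single w]
      · rw [if_pos rfl]
        ring
      · intro b _ hb
        rw [if_neg (fun h => hb h.symm), mul_zero]
      · intro h
        exact absurd (Finset.mem_univ _) h
    rw [e1, ← Finset.mul_sum]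
    exact mul_le_mul_of_nonneg_left hcs (sq_nonneg _)
  have T2 : ∀ w, ∑ w', P v w' * s w w' ≤ 3 * ν * δ ^ 2 := by
    intro w
    exact T3_cs (fun w' => P v w') (fun w' => s w w') hc0 (hs0 w) (by positivity) hcs (hsum_s w) (by ring)
  have S2 : ∑ w, ∑ w', P v w * P v w' * (s w w' * ν) ≤ 3 * ν ^ 2 * δ ^ 2 := by
    calc ∑ w, ∑ w', P v w * P v w' * (s w w' * ν) = ∑ w, P v w * (ν * ∑ w', P v w' * s w w') := by
          refine Finset.sum_congr rfl (fun w _ => ?_)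
          rw [Finset.mul_sum, Finset.mul_sum]
          refine Finset.sum_congr rfl (fun w' _ => ?_)
          ring
      _ ≤ ∑ w, P v w * (ν * (3 * ν * δ ^ 2)) := by
          refine Finset.sum_le_sum (fun w _ => ?_)
          exact mul_le_mul_of_nonneg_left (mul_le_mul_of_nonneg_left (T2 w) hν) (hc0 w)
      _ = 3 * ν ^ 2 * δ ^ 2 := by
          rw [← Finset.sum_mul, hc1]
          ring
  have S3 : ∑ w, ∑ w', P v w * P v w' * (ν * δ) ^ 2 = ν ^ 2 * δ ^ 2 := by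
    have e1 : ∀ w, ∑ w', P v w * P v w' * (ν * δ) ^ 2 = P v w * (ν * δ) ^ 2 := by
      intro w
      rw [← Finset.sum_mul, ← Finset.mul_sum, hc1, mul_one]
    rw [Finset.sum_congr rfl (fun w _ => e1 w), ← Finset.sum_mul, hc1]
    ring
  have T4 : ∀ w, ∑ w', P v w' * p w w' ^ 2 ≤ 7 * ν ^ 2 * δ ^ 2 := by
    intro w
    calc ∑ w', P v w' * p w w' ^ 2 ≤ ∑ w', δ ^ 2 * p w w' ^ 2 :=
          Finset.sum_le_sum (fun w' _ => mul_le_mul_of_nonneg_right (hce w') (sq_nonneg _))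
      _ = δ ^ 2 * ∑ w', p w w' ^ 2 := by rw [Finset.mul_sum]
      _ ≤ δ ^ 2 * (7 * ν ^ 2) := mul_le_mul_of_nonneg_left (hsum_p w) (sq_nonneg _)
      _ = 7 * ν ^ 2 * δ ^ 2 := by ring
  have S4a : ∑ w, ∑ w', P v w * P v w' * p w w' ^ 2 ≤ 7 * ν ^ 2 * δ ^ 2 := by
    calc ∑ w, ∑ w', P v w * P v w' * p w w' ^ 2 = ∑ w, P v w * ∑ w', P v w' * p w w' ^ 2 := by
          refine Finset.sum_congr rfl (fun w _ => ?_)
          rw [Finset.mul_sum]
          refine Finset.sum_congr rfl (fun w' _ => ?_)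
          ring
      _ ≤ ∑ w, P v w * (7 * ν ^ 2 * δ ^ 2) :=
          Finset.sum_le_sum (fun w _ => mul_le_mul_of_nonneg_left (T4 w) (hc0 w))
      _ = 7 * ν ^ 2 * δ ^ 2 := by
          rw [← Finset.sum_mul, hc1, one_mul]
  have S4b : ∑ w, ∑ w', P v w * P v w' * p w' w ^ 2 ≤ 7 * ν ^ 2 * δ ^ 2 := by
    rw [Finset.sum_comm]
    refine le_trans (le_of_eq ?_) S4a
    refine Finset.sum_congr rfl (fun w _ => Finset.sum_congr rfl (fun w' _ => ?_))
    ring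
  have S4 : ∑ w, ∑ w', P v w * P v w' * ((p w w' ^ 2 + p w' w ^ 2) / 2) ≤ 7 * ν ^ 2 * δ ^ 2 := by
    have e1 : ∑ w, ∑ w', P v w * P v w' * ((p w w' ^ 2 + p w' w ^ 2) / 2) =
        (∑ w, ∑ w', P v w * P v w' * p w w' ^ 2 + ∑ w, ∑ w', P v w * P v w' * p w' w ^ 2) / 2 := by
      rw [← Finset.sum_add_distrib, Finset.sum_div]
      refine Finset.sum_congr rfl (fun w _ => ?_)
      rw [← Finset.sum_add_distrib, Finset.sum_div]
      refine Finset.sum_congr rfl (fun w' _ => ?_)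
      ring
    rw [e1]
    linarith
  have S5 : ∑ w, ∑ w', P v w * P v w' * (ν * s w' w) ≤ 3 * ν ^ 2 * δ ^ 2 := by
    rw [Finset.sum_comm]
    refine le_trans (le_of_eq ?_) S2
    refine Finset.sum_congr rfl (fun w _ => Finset.sum_congr rfl (fun w' _ => ?_))
    ring
  have hT : nm (ap P 1 (fun w => om t' w * B w) v) ^ 2 ≤ m ^ 2 * (15 * ν ^ 2 * δ ^ 2) := by
    rw [ap_eq, pow_one, T3_sq]
    calc ∑ w, ∑ w', P v w * P v w' * ex ((om t' w * B w) * (om t' w' * B w'))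
        ≤ ∑ w, ∑ w', P v w * P v w' * (m ^ 2 * ((if w = w' then ν ^ 2 else 0) + s w w' * ν + (ν * δ) ^ 2 +
          (p w w' ^ 2 + p w' w ^ 2) / 2 + ν * s w' w)) :=
          Finset.sum_le_sum (fun w _ => Finset.sum_le_sum (fun w' _ =>
            mul_le_mul_of_nonneg_left (hent w w') (hcc w w')))
      _ = m ^ 2 * (∑ w, ∑ w', P v w * P v w' * (if w = w' then ν ^ 2 else 0) +
            ∑ w, ∑ w', P v w * P v w' * (s w w' * ν) + ∑ w, ∑ w', P v w * P v w' * (ν * δ) ^ 2 +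
            ∑ w, ∑ w', P v w * P v w' * ((p w w' ^ 2 + p w' w ^ 2) / 2) +
            ∑ w, ∑ w', P v w * P v w' * (ν * s w' w)) := by
          simp only [← Finset.sum_add_distrib, Finset.mul_sum]
          refine Finset.sum_congr rfl (fun w _ => Finset.sum_congr rfl (fun w' _ => ?_))
          ring
      _ ≤ m ^ 2 * (15 * ν ^ 2 * δ ^ 2) := by
          refine mul_le_mul_of_nonneg_left ?_ (sq_nonneg m)
          linarith
  have h5 : 0 ≤ 5 * m * ν * δ := by positivity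
  have h6 : nm (ap P 1 (fun w => om t' w * B w) v) ^ 2 ≤ (5 * m * ν * δ) ^ 2 := by
    refine hT.trans ?_
    nlinarith [sq_nonneg (m * ν * δ)]
  exact (pow_le_pow_iff_left₀ (nm_nonneg _) h5 two_ne_zero).1 h6

end

end Pool.Agent.H33.LN
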