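import Pool.Agent.H33.LN.Fb
import Pool.Agent.H33.LN.H1

/-!
Row LNH_T3b: the influences of the term `P (om B)`.   `T v = ap P 1 (fun w => om t' w * B w) v = ∑_w P v w • (om t' w * B w)`, `m = card κ`.
PROOFS. `Dv a (T v) = P v a • Dv a (om_a * B_a) + ∑_(w ≠ a) P v w • (om_w * δ_w)` with `δ_w := Dv a (B w)` (`Dv_mul_loc`, `av_om_ne`). First part `X v`: `∑_v (P v a)^2 nm (om_a B_a)^2 ≤ δ^2 m^2 ν^2`.
Second part `Y v`; add the term `w = a` formally: let `η_w := δ_w` for `w ≠ a`, `η_a := 0`. `∑_v nm (Y v)^2 = ∑_v ∑_(w,w') P v w P v w' ex (om_w om_w' η_w η_w') = ∑_(w,w') (P^2) w w' ex (..)` (`sym`).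
Diagonal: `∑_w (P^2) w w m^2 nm (η_w)^2 ≤ δ^2 m^2 ν^2` (`ent 2`, `n2`). `w ≠ w'`: `h3` for `F = η_w`, `G = η_w'`, four sums with the weights `(P^2) w w' ≥ 0` (all over ALL `w, w'`):
(ii) `∑ (P^2) w w' nm (D_w η_w) nm (D_w' η_w') ≤ ∑_w nm (D_w η_w)^2 ≤ 7 (ν δ)^2` (AM-GM, row and column sums of `P^2` are 1; `o2`);
(iii) `∑ (P^2) w w' nm (D_w' η_w) nm (D_w η_w') ≤ ∑ (P^2) w w' nm (D_w' η_w)^2 ≤ δ^2 ∑_w ∑_w' nm (D_w' η_w)^2 ≤ 7 δ^2 ∑_w nm (η_w)^2 ≤ 7 δ^2 ν^2` (`ent 2`, `h1a`, `n2`);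
(i) `∑ (P^2) w w' nm (D_w (D_w' η_w)) nm (η_w')`: `≤ (1/2) ∑ (P^2) w w' (s nm (D_w' (D_w η_w))^2 + nm (η_w')^2 / s)` for `s > 0`; `∑ (P^2) w w' nm (D_w' (D_w η_w))^2 ≤ δ^2 ∑_w 7 nm (D_w η_w)^2 ≤ 49 δ^4 ν^2`,
`∑ (P^2) w w' nm (η_w')^2 ≤ ν^2`; `s = 1/(7 δ^2)`: `≤ 7 δ^2 ν^2` (or Cauchy-Schwarz `Finset.sum_mul_sq_le_sq_mul_sq` over pairs; if `δ = 0` then `P = 0`, impossible unless `V` is empty); (iv) the same. Total `≤ m^2 ν^2 δ^2 (1 + 7 + 7 + 7 + 7) = 29 m^2 ν^2 δ^2`.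
`nm (X + Y)^2 ≤ 2 nm X^2 + 2 nm Y^2`: `≤ 60 m^2 ν^2 δ^2 ≤ (10 m ν δ)^2`.
`t3s1`, `t3s2`: `nm (Dv a (T v)) ≤ P v a m ν + ∑_w P v w m nm (Dv a (B w))`; sum over `a` (resp. over `v`): `≤ m ν + m σ`.
-/

set_option autoImplicit false
set_option linter.unusedSectionVars false

namespace Pool.Agent.H33.LN

open Finset Classical
open Pool.Agent.H65.GI
open Pool.Agent.H12.LN

section
variable {V κ : Type} [Fintype V] [Fintype κ] [Nonempty κ] {P : Matrix V V ℝ} {K : ℕ} {δ e : ℝ}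

/-- `η w`. -/
private noncomputable def T3b_eta (a : V) (B : V → (V → κ) → ℝ) (w : V) : (V → κ) → ℝ :=
  if w = a then 0 else Dv a (B w)

private theorem T3b_Dv0 (a : V) : Dv a (0 : (V → κ) → ℝ) = 0 := by
  have h := Dv_smul (I := V) (κ := κ) a (0 : ℝ) 0
  rw [zero_smul] at h
  rw [h, zero_smul]

private theorem T3b_dec (a : V) (B : V → (V → κ) → ℝ) (t' : κ) (v : V) :
    Dv a (ap P 1 (fun w => om t' w * B w) v) =
      (P ^ 1) v a • Dv a (om t' a * B a) + ∑ w, (P ^ 1) v w • (om t' w * T3b_eta a B w) := by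
  rw [ap_eq, Dv_sum]
  have h1 : ∀ w ∈ (Finset.univ : Finset V), Dv a ((P ^ 1) v w • (om t' w * B w)) =
      (if w = a then (P ^ 1) v a • Dv a (om t' a * B a) else 0) +
        (P ^ 1) v w • (om t' w * T3b_eta a B w) := by
    intro w _
    rw [Dv_smul]
    by_cases hw : w = a
    · subst hw
      simp [T3b_eta]
    · rw [if_neg hw, zero_add, Dv_mul_loc a (om t' w) (B w) (av_om_ne t' (fun h => hw h.symm))]
      simp [T3b_eta, hw]
  rw [Finset.sum_congr rfl h1, Finset.sum_add_distrib, Finset.sum_ite_eq' Finset.univ a]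
  simp

private theorem T3b_ex (g : V → (V → κ) → ℝ) (p : V → ℝ) :
    nm (∑ w, p w • g w) ^ 2 = ∑ w, ∑ w', p w * p w' * ex (g w * g w') := by
  rw [nm_sq]
  unfold ex
  have h : ∀ ω : V → κ, (∑ w, p w • g w) ω ^ 2 = ∑ w, ∑ w', p w * p w' * (g w ω * g w' ω) := by
    intro ω
    rw [Finset.sum_apply, sq, Finset.sum_mul_sum]
    refine Finset.sum_congr rfl fun w _ => Finset.sum_congr rfl fun w' _ => ?_
    simp only [Pi.smul_apply, smul_eq_mul]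
    ring
  simp_rw [h]
  rw [Finset.sum_comm, Finset.sum_div]
  refine Finset.sum_congr rfl fun w _ => ?_
  rw [Finset.sum_comm, Finset.sum_div]
  refine Finset.sum_congr rfl fun w' _ => ?_
  rw [← Finset.mul_sum, mul_div_assoc]
  rfl

private theorem T3b_sq (hP : PP P K δ e) (w w' : V) :
    ∑ v, (P ^ 1) v w * (P ^ 1) v w' = (P ^ 2) w w' := by
  rw [show (2 : ℕ) = 1 + 1 from rfl, pow_add, Matrix.mul_apply]
  refine Finset.sum_congr rfl fun v _ => ?_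
  rw [hP.sym 1 v w]

private theorem T3b_col (hP : PP P K δ e) (k : ℕ) (w : V) : ∑ v, (P ^ k) v w = 1 := by
  rw [← hP.row k w]
  exact Finset.sum_congr rfl fun v _ => hP.sym k v w

/-- `∑ Q x y (p x y)^2`-type bounds. -/
private theorem T3b_amgm (x y s : ℝ) (hs : 0 < s) : x * y ≤ (s * x ^ 2 + y ^ 2 / s) / 2 := by
  have h : 0 ≤ (s * x - y) ^ 2 / s := div_nonneg (sq_nonneg _) hs.le
  have h2 : (s * x - y) ^ 2 / s = s * x ^ 2 + y ^ 2 / s - 2 * (x * y) := by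
    field_simp
    ring
  linarith

/-- the bound for the second part -/
private theorem T3b_Y (hP : PP P K δ e) (hδ : 0 < δ) {ν : ℝ} (hν : 0 ≤ ν) (η : V → (V → κ) → ℝ) (t' : κ)
    (h7 : ∀ w, ∑ b, nm (Dv b (η w)) ^ 2 ≤ 7 * nm (η w) ^ 2)
    (h77 : ∀ w, ∑ b, nm (Dv b (Dv w (η w))) ^ 2 ≤ 7 * nm (Dv w (η w)) ^ 2)
    (hn : ∑ w, nm (η w) ^ 2 ≤ ν ^ 2) (ho : ∑ w, nm (Dv w (η w)) ^ 2 ≤ 7 * (ν * δ) ^ 2) :
    ∑ v, nm (∑ w, (P ^ 1) v w • (om t' w * η w)) ^ 2 ≤ 29 * ((Fintype.card κ : ℝ) * ν * δ) ^ 2 := by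
  set m : ℝ := (Fintype.card κ : ℝ) with hm
  have hm0 : 0 ≤ m := Nat.cast_nonneg _
  set Q : V → V → ℝ := fun w w' => (P ^ 2) w w' with hQ
  have hQ0 : ∀ w w', 0 ≤ Q w w' := fun w w' => hP.nn 2 w w'
  have hQs : ∀ w w', Q w w' = Q w' w := fun w w' => hP.sym 2 w w'
  have hQr : ∀ w, ∑ w', Q w w' = 1 := fun w => hP.row 2 w
  have hQc : ∀ w', ∑ w, Q w w' = 1 := fun w' => T3b_col hP 2 w'
  have hQe : ∀ w w', Q w w' ≤ δ ^ 2 := fun w w' => hP.ent 2 (by norm_num) w w'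
  -- the four functions
  set x : V → ℝ := fun w => nm (Dv w (η w)) with hx
  set z : V → ℝ := fun w => nm (η w) with hz
  set y : V → V → ℝ := fun w w' => nm (Dv w' (η w)) with hy
  set u : V → V → ℝ := fun w w' => nm (Dv w' (Dv w (η w))) with hu
  have hx0 : ∀ w, 0 ≤ x w := fun w => nm_nonneg _
  have hz0 : ∀ w, 0 ≤ z w := fun w => nm_nonneg _
  have hy0 : ∀ w w', 0 ≤ y w w' := fun w w' => nm_nonneg _
  have hu0 : ∀ w w', 0 ≤ u w w' := fun w w' => nm_nonneg _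
  -- expansion
  have e1 : ∑ v, nm (∑ w, (P ^ 1) v w • (om t' w * η w)) ^ 2 =
      ∑ w, ∑ w', Q w w' * ex (om t' w * η w * (om t' w' * η w')) := by
    have : ∀ v, nm (∑ w, (P ^ 1) v w • (om t' w * η w)) ^ 2 =
        ∑ w, ∑ w', (P ^ 1) v w * (P ^ 1) v w' * ex (om t' w * η w * (om t' w' * η w')) :=
      fun v => T3b_ex (fun w => om t' w * η w) (fun w => (P ^ 1) v w)
    simp_rw [this]
    rw [Finset.sum_comm]
    refine Finset.sum_congr rfl fun w _ => ?_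
    rw [Finset.sum_comm]
    refine Finset.sum_congr rfl fun w' _ => ?_
    rw [← Finset.sum_mul, T3b_sq hP]
  -- pointwise bound
  have e2 : ∀ w w', ex (om t' w * η w * (om t' w' * η w')) ≤ m ^ 2 *
      ((if w = w' then z w ^ 2 else 0) + u w w' * z w' + x w * x w' + y w w' * y w' w +
        z w * u w' w) := by
    intro w w'
    have hr : 0 ≤ u w w' * z w' + x w * x w' + y w w' * y w' w + z w * u w' w := by
      have := mul_nonneg (hu0 w w') (hz0 w')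
      have := mul_nonneg (hx0 w) (hx0 w')
      have := mul_nonneg (hy0 w w') (hy0 w' w)
      have := mul_nonneg (hz0 w) (hu0 w' w)
      linarith
    by_cases h : w = w'
    · subst h
      rw [if_pos rfl]
      have h1 : ex (om t' w * η w * (om t' w * η w)) ≤ nm (om t' w * η w) * nm (om t' w * η w) :=
        (le_abs_self _).trans (ex_mul_le _ _)
      have h2 : nm (om t' w * η w) ≤ m * z w := nm_mul_le_of _ _ _ hm0 (fun ω => om_abs t' w ω)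
      have h3 : nm (om t' w * η w) * nm (om t' w * η w) ≤ (m * z w) * (m * z w) :=
        mul_le_mul h2 h2 (nm_nonneg _) (mul_nonneg hm0 (hz0 w))
      have h4 : 0 ≤ m ^ 2 * (u w w * z w + x w * x w + y w w * y w w + z w * u w w) :=
        mul_nonneg (sq_nonneg _) hr
      nlinarith
    · rw [if_neg h]
      have h1 := h3 h t' t' (η w) (η w')
      have h2 : om t' w * η w * (om t' w' * η w') = om t' w * om t' w' * (η w * η w') := by ring
      rw [h2]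
      refine (le_abs_self _).trans (h1.trans ?_)
      refine mul_le_mul_of_nonneg_left ?_ (sq_nonneg _)
      have c1 : nm (Dv w (Dv w' (η w))) = u w w' := by
        show _ = nm (Dv w' (Dv w (η w)))
        rw [Dv_comm]
      have c2 : nm (Dv w (Dv w' (η w'))) = u w' w := rfl
      rw [c1, c2]
      show u w w' * z w' + x w * x w' + y w w' * y w' w + z w * u w' w ≤ _
      linarith
  -- the sums
  have s0 : ∑ w, ∑ w', Q w w' * (if w = w' then z w ^ 2 else 0) ≤ δ ^ 2 * ν ^ 2 := by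
    have : ∀ w, ∑ w', Q w w' * (if w = w' then z w ^ 2 else 0) = Q w w * z w ^ 2 := by
      intro w
      rw [Finset.sum_eq_single w]
      · simp
      · intro b _ hb
        simp [Ne.symm hb]
      · intro h; exact absurd (Finset.mem_univ _) h
    simp_rw [this]
    calc ∑ w, Q w w * z w ^ 2 ≤ ∑ w, δ ^ 2 * z w ^ 2 :=
          Finset.sum_le_sum fun w _ => mul_le_mul_of_nonneg_right (hQe w w) (sq_nonneg _)
      _ = δ ^ 2 * ∑ w, z w ^ 2 := by rw [Finset.mul_sum]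
      _ ≤ δ ^ 2 * ν ^ 2 := mul_le_mul_of_nonneg_left hn (sq_nonneg _)
  have s1 : ∑ w, ∑ w', Q w w' * (u w w' * z w') ≤ 7 * (δ ^ 2 * ν ^ 2) := by
    have hs : (0 : ℝ) < 1 / (7 * δ ^ 2) := by positivity
    have a1 : ∑ w, ∑ w', Q w w' * u w w' ^ 2 ≤ 49 * δ ^ 4 * ν ^ 2 := by
      calc ∑ w, ∑ w', Q w w' * u w w' ^ 2 ≤ ∑ w, ∑ w', δ ^ 2 * u w w' ^ 2 :=
            Finset.sum_le_sum fun w _ => Finset.sum_le_sum fun w' _ =>
              mul_le_mul_of_nonneg_right (hQe w w') (sq_nonneg _)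
        _ = δ ^ 2 * ∑ w, ∑ w', u w w' ^ 2 := by
            rw [Finset.mul_sum]
            exact Finset.sum_congr rfl fun w _ => by rw [Finset.mul_sum]
        _ ≤ δ ^ 2 * ∑ w, 7 * x w ^ 2 :=
            mul_le_mul_of_nonneg_left (Finset.sum_le_sum fun w _ => h77 w) (sq_nonneg _)
        _ = δ ^ 2 * (7 * ∑ w, x w ^ 2) := by rw [← Finset.mul_sum]
        _ ≤ δ ^ 2 * (7 * (7 * (ν * δ) ^ 2)) := by
            refine mul_le_mul_of_nonneg_left (mul_le_mul_of_nonneg_left ho (by norm_num)) (sq_nonneg _)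
        _ = 49 * δ ^ 4 * ν ^ 2 := by ring
    have a2 : ∑ w, ∑ w', Q w w' * z w' ^ 2 ≤ ν ^ 2 := by
      rw [Finset.sum_comm]
      have : ∀ w', ∑ w, Q w w' * z w' ^ 2 = z w' ^ 2 := by
        intro w'
        rw [← Finset.sum_mul, hQc, one_mul]
      simp_rw [this]
      exact hn
    have a3 : ∑ w, ∑ w', Q w w' * (u w w' * z w') ≤
        ∑ w, ∑ w', (1 / (7 * δ ^ 2) / 2 * (Q w w' * u w w' ^ 2) +
          7 * δ ^ 2 / 2 * (Q w w' * z w' ^ 2)) := by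
      refine Finset.sum_le_sum fun w _ => Finset.sum_le_sum fun w' _ => ?_
      have h1 := T3b_amgm (u w w') (z w') (1 / (7 * δ ^ 2)) hs
      have h2 := mul_le_mul_of_nonneg_left h1 (hQ0 w w')
      refine h2.trans (le_of_eq ?_)
      field_simp
    have a4 : ∑ w, ∑ w', (1 / (7 * δ ^ 2) / 2 * (Q w w' * u w w' ^ 2) +
          7 * δ ^ 2 / 2 * (Q w w' * z w' ^ 2)) =
        1 / (7 * δ ^ 2) / 2 * (∑ w, ∑ w', Q w w' * u w w' ^ 2) +
          7 * δ ^ 2 / 2 * ∑ w, ∑ w', Q w w' * z w' ^ 2 := by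
      simp_rw [Finset.sum_add_distrib, Finset.mul_sum]
    rw [a4] at a3
    have a5 : 1 / (7 * δ ^ 2) / 2 * (∑ w, ∑ w', Q w w' * u w w' ^ 2) ≤
        1 / (7 * δ ^ 2) / 2 * (49 * δ ^ 4 * ν ^ 2) := mul_le_mul_of_nonneg_left a1 (by positivity)
    have a6 : 7 * δ ^ 2 / 2 * (∑ w, ∑ w', Q w w' * z w' ^ 2) ≤ 7 * δ ^ 2 / 2 * ν ^ 2 :=
      mul_le_mul_of_nonneg_left a2 (by positivity)
    have a7 : 1 / (7 * δ ^ 2) / 2 * (49 * δ ^ 4 * ν ^ 2) = 7 / 2 * (δ ^ 2 * ν ^ 2) := by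
      field_simp
      ring
    linarith
  have s4 : ∑ w, ∑ w', Q w w' * (z w * u w' w) ≤ 7 * (δ ^ 2 * ν ^ 2) := by
    rw [Finset.sum_comm]
    refine le_trans (le_of_eq ?_) s1
    refine Finset.sum_congr rfl fun w _ => Finset.sum_congr rfl fun w' _ => ?_
    rw [hQs w' w, mul_comm (z w')]
  have s2 : ∑ w, ∑ w', Q w w' * (x w * x w') ≤ 7 * (δ ^ 2 * ν ^ 2) := by
    have a3 : ∑ w, ∑ w', Q w w' * (x w * x w') ≤
        ∑ w, ∑ w', (1 / 2 * (Q w w' * x w ^ 2) + 1 / 2 * (Q w w' * x w' ^ 2)) := by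
      refine Finset.sum_le_sum fun w _ => Finset.sum_le_sum fun w' _ => ?_
      have h1 : x w * x w' ≤ 1 / 2 * x w ^ 2 + 1 / 2 * x w' ^ 2 := by nlinarith [sq_nonneg (x w - x w')]
      have h2 := mul_le_mul_of_nonneg_left h1 (hQ0 w w')
      linarith
    have a4 : ∑ w, ∑ w', (1 / 2 * (Q w w' * x w ^ 2) + 1 / 2 * (Q w w' * x w' ^ 2)) =
        1 / 2 * (∑ w, ∑ w', Q w w' * x w ^ 2) + 1 / 2 * ∑ w, ∑ w', Q w w' * x w' ^ 2 := by
      simp_rw [Finset.sum_add_distrib, Finset.mul_sum]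
    have a5 : ∑ w, ∑ w', Q w w' * x w ^ 2 = ∑ w, x w ^ 2 := by
      refine Finset.sum_congr rfl fun w _ => ?_
      rw [← Finset.sum_mul, hQr, one_mul]
    have a6 : ∑ w, ∑ w', Q w w' * x w' ^ 2 = ∑ w, x w ^ 2 := by
      rw [Finset.sum_comm]
      refine Finset.sum_congr rfl fun w _ => ?_
      rw [← Finset.sum_mul, hQc, one_mul]
    rw [a4, a5, a6] at a3
    have : 7 * (ν * δ) ^ 2 = 7 * (δ ^ 2 * ν ^ 2) := by ring
    linarith
  have s3 : ∑ w, ∑ w', Q w w' * (y w w' * y w' w) ≤ 7 * (δ ^ 2 * ν ^ 2) := by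
    have a0 : ∑ w, ∑ w', Q w w' * y w w' ^ 2 ≤ 7 * (δ ^ 2 * ν ^ 2) := by
      calc ∑ w, ∑ w', Q w w' * y w w' ^ 2 ≤ ∑ w, ∑ w', δ ^ 2 * y w w' ^ 2 :=
            Finset.sum_le_sum fun w _ => Finset.sum_le_sum fun w' _ =>
              mul_le_mul_of_nonneg_right (hQe w w') (sq_nonneg _)
        _ = δ ^ 2 * ∑ w, ∑ w', y w w' ^ 2 := by
            rw [Finset.mul_sum]
            exact Finset.sum_congr rfl fun w _ => by rw [Finset.mul_sum]
        _ ≤ δ ^ 2 * ∑ w, 7 * z w ^ 2 :=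
            mul_le_mul_of_nonneg_left (Finset.sum_le_sum fun w _ => h7 w) (sq_nonneg _)
        _ = δ ^ 2 * (7 * ∑ w, z w ^ 2) := by rw [← Finset.mul_sum]
        _ ≤ δ ^ 2 * (7 * ν ^ 2) :=
            mul_le_mul_of_nonneg_left (mul_le_mul_of_nonneg_left hn (by norm_num)) (sq_nonneg _)
        _ = 7 * (δ ^ 2 * ν ^ 2) := by ring
    have a3 : ∑ w, ∑ w', Q w w' * (y w w' * y w' w) ≤
        ∑ w, ∑ w', (1 / 2 * (Q w w' * y w w' ^ 2) + 1 / 2 * (Q w w' * y w' w ^ 2)) := by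
      refine Finset.sum_le_sum fun w _ => Finset.sum_le_sum fun w' _ => ?_
      have h1 : y w w' * y w' w ≤ 1 / 2 * y w w' ^ 2 + 1 / 2 * y w' w ^ 2 := by
        nlinarith [sq_nonneg (y w w' - y w' w)]
      have h2 := mul_le_mul_of_nonneg_left h1 (hQ0 w w')
      linarith
    have a4 : ∑ w, ∑ w', (1 / 2 * (Q w w' * y w w' ^ 2) + 1 / 2 * (Q w w' * y w' w ^ 2)) =
        1 / 2 * (∑ w, ∑ w', Q w w' * y w w' ^ 2) + 1 / 2 * ∑ w, ∑ w', Q w w' * y w' w ^ 2 := by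
      simp_rw [Finset.sum_add_distrib, Finset.mul_sum]
    have a6 : ∑ w, ∑ w', Q w w' * y w' w ^ 2 = ∑ w, ∑ w', Q w w' * y w w' ^ 2 := by
      rw [Finset.sum_comm]
      refine Finset.sum_congr rfl fun w _ => Finset.sum_congr rfl fun w' _ => ?_
      rw [hQs w' w]
    rw [a4, a6] at a3
    linarith
  rw [e1]
  calc ∑ w, ∑ w', Q w w' * ex (om t' w * η w * (om t' w' * η w'))
      ≤ ∑ w, ∑ w', Q w w' * (m ^ 2 *
      ((if w = w' then z w ^ 2 else 0) + u w w' * z w' + x w * x w' + y w w' * y w' w +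
        z w * u w' w)) := Finset.sum_le_sum fun w _ => Finset.sum_le_sum fun w' _ =>
          mul_le_mul_of_nonneg_left (e2 w w') (hQ0 w w')
    _ = m ^ 2 * (∑ w, ∑ w', Q w w' * (if w = w' then z w ^ 2 else 0)) +
        m ^ 2 * (∑ w, ∑ w', Q w w' * (u w w' * z w')) +
        m ^ 2 * (∑ w, ∑ w', Q w w' * (x w * x w')) +
        m ^ 2 * (∑ w, ∑ w', Q w w' * (y w w' * y w' w)) +
        m ^ 2 * (∑ w, ∑ w', Q w w' * (z w * u w' w)) := by
        simp_rw [Finset.mul_sum, ← Finset.sum_add_distrib]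
        refine Finset.sum_congr rfl fun w _ => Finset.sum_congr rfl fun w' _ => ?_
        ring
    _ ≤ m ^ 2 * (δ ^ 2 * ν ^ 2) + m ^ 2 * (7 * (δ ^ 2 * ν ^ 2)) + m ^ 2 * (7 * (δ ^ 2 * ν ^ 2)) +
        m ^ 2 * (7 * (δ ^ 2 * ν ^ 2)) + m ^ 2 * (7 * (δ ^ 2 * ν ^ 2)) := by
        have hm2 : 0 ≤ m ^ 2 := sq_nonneg _
        have b0 := mul_le_mul_of_nonneg_left s0 hm2
        have b1 := mul_le_mul_of_nonneg_left s1 hm2
        have b2 := mul_le_mul_of_nonneg_left s2 hm2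
        have b3 := mul_le_mul_of_nonneg_left s3 hm2
        have b4 := mul_le_mul_of_nonneg_left s4 hm2
        linarith
    _ = 29 * (m * ν * δ) ^ 2 := by ring

private theorem T3b_dpos (hP : PP P K δ e) (a : V) : 0 < δ := by
  rcases hP.d0.eq_or_lt with h | h
  · exfalso
    have h1 := hP.row 1 a
    have h2 : ∀ y, (P ^ 1) a y = 0 := by
      intro y
      have := hP.ent 1 le_rfl a y
      have := hP.nn 1 a y
      rw [← h] at *
      nlinarith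
    simp [h2] at h1
  · exact h

theorem t3b (hP : PP P K δ e) {d : ℕ} (hd : d ≤ 7) {ν σ : ℝ} (hν : 0 ≤ ν) (hσ : 0 ≤ σ) {B : V → (V → κ) → ℝ}
    (hB : Af d δ ν σ B) (t' : κ) (a : V) :
    ∑ v, nm (Dv a (ap P 1 (fun w => om t' w * B w) v)) ^ 2 ≤ (10 * Fintype.card κ * ν * δ) ^ 2 := by
  have hδ := T3b_dpos hP a
  set m : ℝ := (Fintype.card κ : ℝ) with hm
  have hm0 : 0 ≤ m := Nat.cast_nonneg _
  have hd7 : (d : ℝ) ≤ 7 := by exact_mod_cast hd
  have hdg : ∀ w, T3b_eta a B w ∈ Dg V κ d := by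
    intro w
    unfold T3b_eta
    split_ifs
    · exact Submodule.zero_mem _
    · exact Dg_Dv a (hB.dg w)
  have h7 : ∀ (F : (V → κ) → ℝ), F ∈ Dg V κ d → ∑ b, nm (Dv b F) ^ 2 ≤ 7 * nm F ^ 2 := by
    intro F hF
    exact (h1a hF).trans (mul_le_mul_of_nonneg_right hd7 (sq_nonneg _))
  have hle : ∀ w, nm (T3b_eta a B w) ^ 2 ≤ nm (Dv a (B w)) ^ 2 := by
    intro w
    unfold T3b_eta
    split_ifs
    · rw [nm_zero, zero_pow two_ne_zero]; exact sq_nonneg _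
    · exact le_rfl
  have hle2 : ∀ w, nm (Dv w (T3b_eta a B w)) ^ 2 ≤ nm (Dv w (Dv a (B w))) ^ 2 := by
    intro w
    unfold T3b_eta
    split_ifs
    · rw [T3b_Dv0, nm_zero, zero_pow two_ne_zero]; exact sq_nonneg _
    · exact le_rfl
  have hY := T3b_Y hP hδ hν (T3b_eta a B) t' (fun w => h7 _ (hdg w)) (fun w => h7 _ (Dg_Dv w (hdg w)))
    ((Finset.sum_le_sum fun w _ => hle w).trans (hB.n2 a))
    ((Finset.sum_le_sum fun w _ => hle2 w).trans (hB.o2 a))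
  have hX : ∑ v, nm ((P ^ 1) v a • Dv a (om t' a * B a)) ^ 2 ≤ (m * ν * δ) ^ 2 := by
    have h1 : nm (Dv a (om t' a * B a)) ≤ m * ν := by
      refine (nm_Dv_le a _).trans ((nm_mul_le_of _ _ m hm0 (fun ω => om_abs t' a ω)).trans ?_)
      exact mul_le_mul_of_nonneg_left (hB.n1 a) hm0
    calc ∑ v, nm ((P ^ 1) v a • Dv a (om t' a * B a)) ^ 2
        ≤ ∑ v, (P ^ 1) v a * (δ ^ 2 * (m * ν) ^ 2) := by
          refine Finset.sum_le_sum fun v _ => ?_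
          rw [nm_smul, abs_of_nonneg (hP.nn 1 v a), mul_pow]
          have h2 : nm (Dv a (om t' a * B a)) ^ 2 ≤ (m * ν) ^ 2 := pow_le_pow_left₀ (nm_nonneg _) h1 2
          have h3 := hP.nn 1 v a
          have h4 := hP.ent 1 le_rfl v a
          calc ((P ^ 1) v a) ^ 2 * nm (Dv a (om t' a * B a)) ^ 2
              ≤ ((P ^ 1) v a * δ ^ 2) * (m * ν) ^ 2 := by
                refine mul_le_mul ?_ h2 (sq_nonneg _) (mul_nonneg h3 (sq_nonneg _))
                rw [sq]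
                exact mul_le_mul_of_nonneg_left h4 h3
            _ = (P ^ 1) v a * (δ ^ 2 * (m * ν) ^ 2) := by ring
      _ = (m * ν * δ) ^ 2 := by
          rw [← Finset.sum_mul, T3b_col hP, one_mul]
          ring
  have h2 : ∀ v, nm (Dv a (ap P 1 (fun w => om t' w * B w) v)) ^ 2 ≤
      2 * nm ((P ^ 1) v a • Dv a (om t' a * B a)) ^ 2 +
      2 * nm (∑ w, (P ^ 1) v w • (om t' w * T3b_eta a B w)) ^ 2 := by
    intro v
    rw [T3b_dec]
    have h3 := nm_add_le ((P ^ 1) v a • Dv a (om t' a * B a)) (∑ w, (P ^ 1) v w • (om t' w * T3b_eta a B w))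
    have h4 := pow_le_pow_left₀ (nm_nonneg _) h3 2
    refine h4.trans ?_
    nlinarith [sq_nonneg (nm ((P ^ 1) v a • Dv a (om t' a * B a)) -
      nm (∑ w, (P ^ 1) v w • (om t' w * T3b_eta a B w)))]
  calc ∑ v, nm (Dv a (ap P 1 (fun w => om t' w * B w) v)) ^ 2
      ≤ ∑ v, (2 * nm ((P ^ 1) v a • Dv a (om t' a * B a)) ^ 2 +
      2 * nm (∑ w, (P ^ 1) v w • (om t' w * T3b_eta a B w)) ^ 2) := Finset.sum_le_sum fun v _ => h2 v
    _ = 2 * (∑ v, nm ((P ^ 1) v a • Dv a (om t' a * B a)) ^ 2) +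
      2 * ∑ v, nm (∑ w, (P ^ 1) v w • (om t' w * T3b_eta a B w)) ^ 2 := by
        simp_rw [Finset.sum_add_distrib, Finset.mul_sum]
    _ ≤ 2 * (m * ν * δ) ^ 2 + 2 * (29 * (m * ν * δ) ^ 2) := by linarith
    _ ≤ (10 * m * ν * δ) ^ 2 := by nlinarith [sq_nonneg (m * ν * δ)]

private theorem T3b_pt (hP : PP P K δ e) {ν : ℝ} {B : V → (V → κ) → ℝ} (hB : ∀ v, nm (B v) ≤ ν) (t' : κ) (a v : V) :
    nm (Dv a (ap P 1 (fun w => om t' w * B w) v)) ≤ (P ^ 1) v a * ((Fintype.card κ : ℝ) * ν) +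
      ∑ w, (P ^ 1) v w * ((Fintype.card κ : ℝ) * nm (Dv a (B w))) := by
  have hm0 : (0 : ℝ) ≤ (Fintype.card κ : ℝ) := Nat.cast_nonneg _
  rw [T3b_dec]
  refine (nm_add_le _ _).trans (add_le_add ?_ ?_)
  · rw [nm_smul, abs_of_nonneg (hP.nn 1 v a)]
    refine mul_le_mul_of_nonneg_left ?_ (hP.nn 1 v a)
    refine (nm_Dv_le a _).trans ((nm_mul_le_of _ _ _ hm0 (fun ω => om_abs t' a ω)).trans ?_)
    exact mul_le_mul_of_nonneg_left (hB a) hm0
  · refine (nm_sum_le _ _).trans (Finset.sum_le_sum fun w _ => ?_)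
    rw [nm_smul, abs_of_nonneg (hP.nn 1 v w)]
    refine mul_le_mul_of_nonneg_left ?_ (hP.nn 1 v w)
    refine (nm_mul_le_of _ _ _ hm0 (fun ω => om_abs t' w ω)).trans ?_
    refine mul_le_mul_of_nonneg_left ?_ hm0
    unfold T3b_eta
    split_ifs
    · rw [nm_zero]; exact nm_nonneg _
    · exact le_rfl

theorem t3s1 (hP : PP P K δ e) {d : ℕ} {ν σ : ℝ} (hν : 0 ≤ ν) (hσ : 0 ≤ σ) {B : V → (V → κ) → ℝ}
    (hB : Af d δ ν σ B) (t' : κ) (v : V) :
    ∑ a, nm (Dv a (ap P 1 (fun w => om t' w * B w) v)) ≤ 2 * Fintype.card κ * (σ + ν) := by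
  set m : ℝ := (Fintype.card κ : ℝ) with hm
  have hm0 : 0 ≤ m := Nat.cast_nonneg _
  calc ∑ a, nm (Dv a (ap P 1 (fun w => om t' w * B w) v))
      ≤ ∑ a, ((P ^ 1) v a * (m * ν) + ∑ w, (P ^ 1) v w * (m * nm (Dv a (B w)))) :=
        Finset.sum_le_sum fun a _ => T3b_pt hP hB.n1 t' a v
    _ = (∑ a, (P ^ 1) v a) * (m * ν) + ∑ w, (P ^ 1) v w * (m * ∑ a, nm (Dv a (B w))) := by
        rw [Finset.sum_add_distrib, Finset.sum_mul, Finset.sum_comm]
        congr 1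
        refine Finset.sum_congr rfl fun w _ => ?_
        rw [Finset.mul_sum, Finset.mul_sum]
    _ ≤ 1 * (m * ν) + ∑ w, (P ^ 1) v w * (m * σ) := by
        rw [hP.row 1 v]
        refine add_le_add le_rfl (Finset.sum_le_sum fun w _ => ?_)
        exact mul_le_mul_of_nonneg_left (mul_le_mul_of_nonneg_left (hB.s1 w) hm0) (hP.nn 1 v w)
    _ = m * ν + m * σ := by rw [← Finset.sum_mul, hP.row 1 v]; ring
    _ ≤ 2 * m * (σ + ν) := by nlinarith [mul_nonneg hm0 hν, mul_nonneg hm0 hσ]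

theorem t3s2 (hP : PP P K δ e) {d : ℕ} {ν σ : ℝ} (hν : 0 ≤ ν) (hσ : 0 ≤ σ) {B : V → (V → κ) → ℝ}
    (hB : Af d δ ν σ B) (t' : κ) (a : V) :
    ∑ v, nm (Dv a (ap P 1 (fun w => om t' w * B w) v)) ≤ 2 * Fintype.card κ * (σ + ν) := by
  set m : ℝ := (Fintype.card κ : ℝ) with hm
  have hm0 : 0 ≤ m := Nat.cast_nonneg _
  calc ∑ v, nm (Dv a (ap P 1 (fun w => om t' w * B w) v))
      ≤ ∑ v, ((P ^ 1) v a * (m * ν) + ∑ w, (P ^ 1) v w * (m * nm (Dv a (B w)))) :=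
        Finset.sum_le_sum fun v _ => T3b_pt hP hB.n1 t' a v
    _ = (∑ v, (P ^ 1) v a) * (m * ν) + ∑ w, (∑ v, (P ^ 1) v w) * (m * nm (Dv a (B w))) := by
        rw [Finset.sum_add_distrib, Finset.sum_mul, Finset.sum_comm]
        congr 1
        refine Finset.sum_congr rfl fun w _ => ?_
        rw [Finset.sum_mul]
    _ = m * ν + m * ∑ w, nm (Dv a (B w)) := by
        rw [T3b_col hP, one_mul, Finset.mul_sum]
        congr 1
        refine Finset.sum_congr rfl fun w _ => ?_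
        rw [T3b_col hP, one_mul]
    _ ≤ m * ν + m * σ := add_le_add le_rfl (mul_le_mul_of_nonneg_left (hB.s2 a) hm0)
    _ ≤ 2 * m * (σ + ν) := by nlinarith [mul_nonneg hm0 hν, mul_nonneg hm0 hσ]

end

end Pool.Agent.H33.LN
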