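import Pool.Agent.H33.LN.Fb
import Pool.Agent.H33.LN.H1

/-!
Row LNH_T4: the correction term `T v = ∑_w (P v w * c v w) • (1 + om t' w)`, `c v w = ce (A v) + ce (B w)`, `m = card κ`.
PROOFS. For `v ≠ w`: `|c v w| ≤ m (nm (D_v A_v) + nm (D_w A_v) + nm (D_v B_w) + nm (D_w B_w)) ≤ 4 m ν` (`ce_le`, `nm_Dv_le`). `P v v = 0`.
`csum`: `∑_w P v w |c v w| ≤ m (ν δ + ∑_w P v w nm (D_w A_v) + ∑_w P v w nm (D_v B_w) + ν δ)`; `∑_w P v w g_w ≤ (∑_w (P v w)^2)^(1/2) (∑ g_w^2)^(1/2) ≤ δ (..)`: `g_w = nm (D_w A_v)`: `∑ g^2 ≤ 7 ν^2` (`h1a`);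
`g_w = nm (D_v B_w)`: `∑ g^2 ≤ ν^2` (`n2`). Total `≤ m ν δ (1 + 3 + 1 + 1) = 6 m ν δ`.
`t4`: `nm (1 + om t' w) ≤ m` (values `m` or `0`), `nm (T v) ≤ ∑_w P v w |c v w| m ≤ 6 m^2 ν δ`. `Dv a (T v) = (P v a * c v a) • om t' a` (`Dv_om`, `Dv_om_ne`, `Dv` of the constant is 0): `nm ≤ P v a * 4 m ν * m` (zero if `v = a`);
`∑_v (..)^2 ≤ 16 m^4 ν^2 ∑_v (P v a)^2 ≤ (4 m^2 ν δ)^2`; sums `≤ 4 m^2 ν`.
-/

set_option autoImplicit false
set_option linter.unusedSectionVars false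

namespace Pool.Agent.H33.LN

open Finset Classical
open Pool.Agent.H65.GI
open Pool.Agent.H12.LN

section
variable {V κ : Type} [Fintype V] [Fintype κ] [Nonempty κ] {P : Matrix V V ℝ} {K : ℕ} {δ e : ℝ}

theorem c_le {d : ℕ} {ν σ : ℝ} {A B : V → (V → κ) → ℝ} (hA : Af d δ ν σ A) (hB : Af d δ ν σ B) (t t' : κ) {v w : V}
    (h : v ≠ w) : |ce v w t t' (A v) + ce v w t t' (B w)| ≤ 4 * Fintype.card κ * ν := by
  have hm : (0 : ℝ) ≤ Fintype.card κ := Nat.cast_nonneg _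
  have h1 := ce_le h t t' (A v) (hA.mean v)
  have h2 := ce_le h t t' (B w) (hB.mean w)
  have a1 := (nm_Dv_le v (A v)).trans (hA.n1 v)
  have a2 := (nm_Dv_le w (A v)).trans (hA.n1 v)
  have b1 := (nm_Dv_le v (B w)).trans (hB.n1 w)
  have b2 := (nm_Dv_le w (B w)).trans (hB.n1 w)
  have e1 : (Fintype.card κ : ℝ) * (nm (Dv v (A v)) + nm (Dv w (A v))) ≤ Fintype.card κ * (ν + ν) :=
    mul_le_mul_of_nonneg_left (add_le_add a1 a2) hm
  have e2 : (Fintype.card κ : ℝ) * (nm (Dv v (B w)) + nm (Dv w (B w))) ≤ Fintype.card κ * (ν + ν) :=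
    mul_le_mul_of_nonneg_left (add_le_add b1 b2) hm
  calc |ce v w t t' (A v) + ce v w t t' (B w)| ≤ |ce v w t t' (A v)| + |ce v w t t' (B w)| := abs_add_le _ _
    _ ≤ Fintype.card κ * (ν + ν) + Fintype.card κ * (ν + ν) := add_le_add (h1.trans e1) (h2.trans e2)
    _ = 4 * Fintype.card κ * ν := by ring

private theorem T4_nn (hP : PP P K δ e) (v w : V) : 0 ≤ P v w := by
  have := hP.nn 1 v w
  rwa [pow_one] at this

private theorem T4_row (hP : PP P K δ e) (v : V) : ∑ w, P v w = 1 := by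
  have := hP.row 1 v
  rwa [pow_one] at this

private theorem T4_sym (hP : PP P K δ e) (v w : V) : P v w = P w v := by
  have := hP.sym 1 v w
  rwa [pow_one] at this

private theorem T4_sq (hP : PP P K δ e) (v : V) : ∑ w, (P v w) ^ 2 ≤ δ ^ 2 := by
  calc ∑ w, (P v w) ^ 2 ≤ ∑ w, δ ^ 2 * P v w := by
        refine Finset.sum_le_sum fun w _ => ?_
        have h1 := hP.ent 1 le_rfl v w
        rw [pow_one] at h1
        rw [sq]
        exact mul_le_mul_of_nonneg_right h1 (T4_nn hP v w)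
    _ = δ ^ 2 := by rw [← Finset.mul_sum, T4_row hP v, mul_one]

private theorem T4_cs (hP : PP P K δ e) (v : V) (g : V → ℝ) (c : ℝ) (hc : 0 ≤ c) (hg : ∑ w, g w ^ 2 ≤ c ^ 2) :
    ∑ w, P v w * g w ≤ δ * c := by
  have h1 : (∑ w, P v w * g w) ^ 2 ≤ (δ * c) ^ 2 := by
    calc (∑ w, P v w * g w) ^ 2 ≤ (∑ w, (P v w) ^ 2) * ∑ w, g w ^ 2 := Finset.sum_mul_sq_le_sq_mul_sq _ _ _
      _ ≤ δ ^ 2 * c ^ 2 := mul_le_mul (T4_sq hP v) hg (Finset.sum_nonneg fun w _ => sq_nonneg _) (sq_nonneg _)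
      _ = (δ * c) ^ 2 := by ring
  exact le_of_abs_le (abs_le_of_sq_le_sq h1 (mul_nonneg hP.d0 hc))

theorem csum (hP : PP P K δ e) {d : ℕ} (hd : d ≤ 7) {ν σ : ℝ} (hν : 0 ≤ ν) {A B : V → (V → κ) → ℝ}
    (hA : Af d δ ν σ A) (hB : Af d δ ν σ B) (t t' : κ) (v : V) :
    ∑ w, P v w * |ce v w t t' (A v) + ce v w t t' (B w)| ≤ 6 * Fintype.card κ * ν * δ := by
  have hm : (0 : ℝ) ≤ Fintype.card κ := Nat.cast_nonneg _
  have h1 : ∀ w, P v w * |ce v w t t' (A v) + ce v w t t' (B w)| ≤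
      Fintype.card κ * (2 * (ν * δ) * P v w + P v w * nm (Dv w (A v)) + P v w * nm (Dv v (B w))) := by
    intro w
    by_cases h : v = w
    · subst h
      rw [hP.diag v]
      simp
    · have c1 := ce_le h t t' (A v) (hA.mean v)
      have c2 := ce_le h t t' (B w) (hB.mean w)
      have o1 := hA.o1 v
      have o2 := hB.o1 w
      have c3 : |ce v w t t' (A v) + ce v w t t' (B w)| ≤
          Fintype.card κ * (2 * (ν * δ) + nm (Dv w (A v)) + nm (Dv v (B w))) := by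
        calc |ce v w t t' (A v) + ce v w t t' (B w)| ≤ |ce v w t t' (A v)| + |ce v w t t' (B w)| := abs_add_le _ _
          _ ≤ Fintype.card κ * (nm (Dv v (A v)) + nm (Dv w (A v))) +
              Fintype.card κ * (nm (Dv v (B w)) + nm (Dv w (B w))) := add_le_add c1 c2
          _ = Fintype.card κ * (nm (Dv v (A v)) + nm (Dv w (A v)) + (nm (Dv v (B w)) + nm (Dv w (B w)))) := by ring
          _ ≤ _ := mul_le_mul_of_nonneg_left (by linarith) hm
      calc P v w * |ce v w t t' (A v) + ce v w t t' (B w)| ≤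
          P v w * (Fintype.card κ * (2 * (ν * δ) + nm (Dv w (A v)) + nm (Dv v (B w)))) :=
            mul_le_mul_of_nonneg_left c3 (T4_nn hP v w)
        _ = _ := by ring
  have g1 : ∑ w, P v w * nm (Dv w (A v)) ≤ δ * (3 * ν) := by
    refine T4_cs hP v _ _ (by positivity) ?_
    have h2 := h1a (hA.dg v)
    have h3 : nm (A v) ^ 2 ≤ ν ^ 2 := pow_le_pow_left₀ (nm_nonneg _) (hA.n1 v) 2
    have h4 : (d : ℝ) ≤ 7 := by exact_mod_cast hd
    calc ∑ w, nm (Dv w (A v)) ^ 2 ≤ d * nm (A v) ^ 2 := h2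
      _ ≤ 7 * ν ^ 2 := mul_le_mul h4 h3 (sq_nonneg _) (by norm_num)
      _ ≤ (3 * ν) ^ 2 := by nlinarith [sq_nonneg ν]
  have g2 : ∑ w, P v w * nm (Dv v (B w)) ≤ δ * ν := T4_cs hP v _ _ hν (hB.n2 v)
  calc ∑ w, P v w * |ce v w t t' (A v) + ce v w t t' (B w)| ≤
      ∑ w, Fintype.card κ * (2 * (ν * δ) * P v w + P v w * nm (Dv w (A v)) + P v w * nm (Dv v (B w))) :=
        Finset.sum_le_sum fun w _ => h1 w
    _ = Fintype.card κ * (2 * (ν * δ) + ∑ w, P v w * nm (Dv w (A v)) + ∑ w, P v w * nm (Dv v (B w))) := by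
        rw [← Finset.mul_sum, Finset.sum_add_distrib, Finset.sum_add_distrib, ← Finset.mul_sum (f := fun w => P v w),
          T4_row hP v, mul_one]
    _ ≤ Fintype.card κ * (2 * (ν * δ) + δ * (3 * ν) + δ * ν) :=
        mul_le_mul_of_nonneg_left (by linarith) hm
    _ = 6 * Fintype.card κ * ν * δ := by ring

private theorem T4_om1 (t' : κ) (w : V) : nm (1 + om t' w : (V → κ) → ℝ) ≤ Fintype.card κ := by
  refine nm_le_of _ _ ?_
  intro χ
  have hm : (0 : ℝ) ≤ Fintype.card κ := Nat.cast_nonneg _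
  have h1 : (1 + om t' w : (V → κ) → ℝ) χ = if χ w = t' then (Fintype.card κ : ℝ) else 0 := by
    simp only [Pi.add_apply, Pi.one_apply, om]
    ring
  rw [h1]
  split_ifs
  · rw [abs_of_nonneg hm]
  · rw [abs_zero]; exact hm

private theorem T4_Dv1 (a : V) : Dv a (1 : (V → κ) → ℝ) = 0 :=
  Dv_loc a 1 ∅ (fun _ _ _ => rfl) (Finset.notMem_empty a)

private theorem T4_Dv (c : V → ℝ) (t' : κ) (a : V) :
    Dv a (∑ w, c w • (1 + om t' w) : (V → κ) → ℝ) = c a • om t' a := by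
  rw [Dv_sum, Finset.sum_eq_single a]
  · rw [Dv_smul, Dv_add, T4_Dv1, Dv_om, zero_add]
  · intro w _ hw
    rw [Dv_smul, Dv_add, T4_Dv1, Dv_om_ne t' (Ne.symm hw), add_zero, smul_zero]
  · intro h
    exact absurd (Finset.mem_univ a) h

theorem t4 (hP : PP P K δ e) {d : ℕ} (hd : d ≤ 7) {ν σ : ℝ} (hν : 0 ≤ ν) (hσ : 0 ≤ σ) {A B : V → (V → κ) → ℝ}
    (hA : Af d δ ν σ A) (hB : Af d δ ν σ B) (t t' : κ) :
    Tf (6 * (Fintype.card κ : ℝ) ^ 2 * ν * δ) (6 * (Fintype.card κ : ℝ) ^ 2 * ν)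
      (fun v => ∑ w, (P v w * (ce v w t t' (A v) + ce v w t t' (B w))) • (1 + om t' w)) := by
  have hm : (0 : ℝ) ≤ Fintype.card κ := Nat.cast_nonneg _
  have hD : ∀ a v, nm (Dv a (∑ w, (P v w * (ce v w t t' (A v) + ce v w t t' (B w))) • (1 + om t' w) :
      (V → κ) → ℝ)) ≤ 4 * (Fintype.card κ : ℝ) ^ 2 * ν * P v a := by
    intro a v
    rw [T4_Dv, nm_smul, abs_mul, abs_of_nonneg (T4_nn hP v a)]
    by_cases h : v = a
    · subst h
      rw [hP.diag v]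
      simp
    · calc P v a * |ce v a t t' (A v) + ce v a t t' (B a)| * nm (om t' a : (V → κ) → ℝ) ≤
          P v a * (4 * Fintype.card κ * ν) * Fintype.card κ :=
            mul_le_mul (mul_le_mul_of_nonneg_left (c_le hA hB t t' h) (T4_nn hP v a)) (nm_om t' a) (nm_nonneg _)
              (mul_nonneg (T4_nn hP v a) (by positivity))
        _ = 4 * (Fintype.card κ : ℝ) ^ 2 * ν * P v a := by ring
  refine ⟨?_, ?_, ?_, ?_⟩
  · intro v
    calc nm (∑ w, (P v w * (ce v w t t' (A v) + ce v w t t' (B w))) • (1 + om t' w) : (V → κ) → ℝ) ≤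
        ∑ w, nm ((P v w * (ce v w t t' (A v) + ce v w t t' (B w))) • (1 + om t' w) : (V → κ) → ℝ) :=
          nm_sum_le _ _
      _ ≤ ∑ w, (P v w * |ce v w t t' (A v) + ce v w t t' (B w)|) * Fintype.card κ := by
          refine Finset.sum_le_sum fun w _ => ?_
          rw [nm_smul, abs_mul, abs_of_nonneg (T4_nn hP v w)]
          exact mul_le_mul_of_nonneg_left (T4_om1 t' w) (mul_nonneg (T4_nn hP v w) (abs_nonneg _))
      _ = (∑ w, P v w * |ce v w t t' (A v) + ce v w t t' (B w)|) * Fintype.card κ := by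
          rw [← Finset.sum_mul]
      _ ≤ (6 * Fintype.card κ * ν * δ) * Fintype.card κ :=
          mul_le_mul_of_nonneg_right (csum hP hd hν hA hB t t' v) hm
      _ = 6 * (Fintype.card κ : ℝ) ^ 2 * ν * δ := by ring
  · intro a
    calc ∑ v, nm (Dv a (∑ w, (P v w * (ce v w t t' (A v) + ce v w t t' (B w))) • (1 + om t' w) :
        (V → κ) → ℝ)) ^ 2 ≤ ∑ v, (4 * (Fintype.card κ : ℝ) ^ 2 * ν) ^ 2 * (P a v) ^ 2 := by
          refine Finset.sum_le_sum fun v _ => ?_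
          have h1 := pow_le_pow_left₀ (nm_nonneg _) (hD a v) 2
          rw [mul_pow, T4_sym hP v a] at h1
          exact h1
      _ = (4 * (Fintype.card κ : ℝ) ^ 2 * ν) ^ 2 * ∑ v, (P a v) ^ 2 := by rw [← Finset.mul_sum]
      _ ≤ (4 * (Fintype.card κ : ℝ) ^ 2 * ν) ^ 2 * δ ^ 2 :=
          mul_le_mul_of_nonneg_left (T4_sq hP a) (sq_nonneg _)
      _ = (4 * (Fintype.card κ : ℝ) ^ 2 * ν * δ) ^ 2 := by ring
      _ ≤ (6 * (Fintype.card κ : ℝ) ^ 2 * ν * δ) ^ 2 := by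
          have hd0 := hP.d0
          have hx : 0 ≤ (Fintype.card κ : ℝ) ^ 2 * ν * δ := by positivity
          refine pow_le_pow_left₀ (by positivity) ?_ 2
          nlinarith
  · intro v
    calc ∑ a, nm (Dv a (∑ w, (P v w * (ce v w t t' (A v) + ce v w t t' (B w))) • (1 + om t' w) :
        (V → κ) → ℝ)) ≤ ∑ a, 4 * (Fintype.card κ : ℝ) ^ 2 * ν * P v a :=
          Finset.sum_le_sum fun a _ => hD a v
      _ = 4 * (Fintype.card κ : ℝ) ^ 2 * ν := by rw [← Finset.mul_sum, T4_row hP v, mul_one]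
      _ ≤ 6 * (Fintype.card κ : ℝ) ^ 2 * ν := by
          have hx : 0 ≤ (Fintype.card κ : ℝ) ^ 2 * ν := by positivity
          nlinarith
  · intro a
    calc ∑ v, nm (Dv a (∑ w, (P v w * (ce v w t t' (A v) + ce v w t t' (B w))) • (1 + om t' w) :
        (V → κ) → ℝ)) ≤ ∑ v, 4 * (Fintype.card κ : ℝ) ^ 2 * ν * P a v := by
          refine Finset.sum_le_sum fun v _ => ?_
          rw [← T4_sym hP v a]
          exact hD a v
      _ = 4 * (Fintype.card κ : ℝ) ^ 2 * ν := by rw [← Finset.mul_sum, T4_row hP a, mul_one]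
      _ ≤ 6 * (Fintype.card κ : ℝ) ^ 2 * ν := by
          have hx : 0 ≤ (Fintype.card κ : ℝ) ^ 2 * ν := by positivity
          nlinarith

end

end Pool.Agent.H33.LN
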