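import Pool.Agent.H33.LN.Fm
import Pool.Agent.H33.LN.Ha
import Pool.Agent.H33.LN.T1
import Pool.Agent.H33.LN.T2
import Pool.Agent.H33.LN.T3
import Pool.Agent.H33.LN.T3b
import Pool.Agent.H33.LN.T4

/-!
Row LNH_Nx: bounds for the new field.
PROOFS. `Tf_add`: triangle inequality, and for `n2` Minkowski: `∑ (p_v + q_v)^2 ≤ (α + β)^2` if `∑ p^2 ≤ α^2`, `∑ q^2 ≤ β^2`, `α, β ≥ 0` (Cauchy-Schwarz for the cross term). `Tf_neg`. `Tf_rs`: `nm_rs_le`, `Dv_rs`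
(for `a ≠ v`), `Dv_rs_self` (for `a = v` the term is 0).
`nx_bf`: `A = AA P K x y`, `B = AA P K y x` satisfy `Af d δ (K ν) (K σ)` (`ha`, `d ≤ 7`). `FF v = T1 - T2 - T3 + T4` with `t1`, `t2`, `t3a/t3b/t3s1/t3s2`, `t4` (`muu = ce (A v) + ce (B w)` by definition; `FF` is literally this
combination, `funext`). With `m = card κ ≥ 1`, `K ≥ 1`, `δ ≤ 1`:
norm and influences: `m (e σ + (4 (20m)^4 m + 10 m + 6 m^2) K ν δ) ≤ Gam (ν δ + e σ)` since `m (4 (20 m)^4 m + 10 m + 6 m^2) ≤ (20 m)^6`, `m ≤ (20m)^6`;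
sums: `m (σ + (4 (20m)^4 m + 2 m) K (σ + ν) + 6 m^2 K ν) ≤ Gam (σ + ν)`. `own`, `mean`: `nx_own`, `nx_mean`. `dg`: `Dg_mul`, `Dg_ap`, `Dg_AA`, `Dg_mono`, `Dg_rs`, `om_loc`, `Dg_loc`.
-/

set_option autoImplicit false
set_option linter.unusedSectionVars false

namespace Pool.Agent.H33.LN

open Finset Classical
open Pool.Agent.H65.GI
open Pool.Agent.H12.LN

section
variable {V κ : Type} [Fintype V] [Fintype κ] [Nonempty κ] {P : Matrix V V ℝ} {K : ℕ} {δ e : ℝ}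

private theorem Nx_D (a v : V) (t : κ) (F : (V → κ) → ℝ) : nm (Dv a (rs v t F)) ≤ Fintype.card κ * nm (Dv a F) := by
  by_cases h : a = v
  · subst h
    rw [Dv_rs_self, nm_zero]
    exact mul_nonneg (Nat.cast_nonneg _) (nm_nonneg _)
  · rw [Dv_rs h]
    exact nm_rs_le v t _

private theorem Nx_mink (p q : V → ℝ) (α β : ℝ) (hα : 0 ≤ α) (hβ : 0 ≤ β) (hp : ∑ v, p v ^ 2 ≤ α ^ 2)
    (hq : ∑ v, q v ^ 2 ≤ β ^ 2) : ∑ v, (p v + q v) ^ 2 ≤ (α + β) ^ 2 := by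
  have h1 : (∑ v, p v * q v) ^ 2 ≤ (α * β) ^ 2 := by
    refine (Finset.sum_mul_sq_le_sq_mul_sq univ p q).trans ?_
    rw [mul_pow]
    exact mul_le_mul hp hq (Finset.sum_nonneg fun v _ => sq_nonneg _) (sq_nonneg _)
  have h2 : ∑ v, p v * q v ≤ α * β := (abs_le_of_sq_le_sq' h1 (mul_nonneg hα hβ)).2
  have h3 : ∑ v, (p v + q v) ^ 2 = ∑ v, p v ^ 2 + 2 * ∑ v, p v * q v + ∑ v, q v ^ 2 := by
    rw [Finset.mul_sum, ← Finset.sum_add_distrib, ← Finset.sum_add_distrib]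
    exact Finset.sum_congr rfl fun v _ => by ring
  rw [h3]
  nlinarith

theorem Tf_add {ν σ ν' σ' : ℝ} (hν : 0 ≤ ν) (hν' : 0 ≤ ν') {T T' : V → (V → κ) → ℝ} (h : Tf ν σ T) (h' : Tf ν' σ' T') :
    Tf (ν + ν') (σ + σ') (fun v => T v + T' v) := by
  have hD : ∀ a v, nm (Dv a (T v + T' v)) ≤ nm (Dv a (T v)) + nm (Dv a (T' v)) := by
    intro a v
    rw [Dv_add]
    exact nm_add_le _ _
  refine ⟨?_, ?_, ?_, ?_⟩
  · intro v
    exact (nm_add_le _ _).trans (add_le_add (h.n1 v) (h'.n1 v))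
  · intro a
    refine le_trans (Finset.sum_le_sum fun v _ => pow_le_pow_left₀ (nm_nonneg _) (hD a v) 2) ?_
    exact Nx_mink _ _ ν ν' hν hν' (h.n2 a) (h'.n2 a)
  · intro v
    refine le_trans (Finset.sum_le_sum fun a _ => hD a v) ?_
    rw [Finset.sum_add_distrib]
    exact add_le_add (h.s1 v) (h'.s1 v)
  · intro a
    refine le_trans (Finset.sum_le_sum fun v _ => hD a v) ?_
    rw [Finset.sum_add_distrib]
    exact add_le_add (h.s2 a) (h'.s2 a)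

private theorem Nx_Dneg (a : V) (F : (V → κ) → ℝ) : nm (Dv a (-F)) = nm (Dv a F) := by
  have h : Dv a (-F) = -Dv a F := by
    have h1 := Dv_smul a (-1) F
    rw [neg_one_smul, neg_one_smul] at h1
    exact h1
  rw [h, nm_neg]

theorem Tf_neg {ν σ : ℝ} {T : V → (V → κ) → ℝ} (h : Tf ν σ T) : Tf ν σ (fun v => - T v) := by
  refine ⟨?_, ?_, ?_, ?_⟩
  · intro v
    rw [nm_neg]
    exact h.n1 v
  · intro a
    refine le_trans (le_of_eq (Finset.sum_congr rfl fun v _ => ?_)) (h.n2 a)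
    rw [Nx_Dneg]
  · intro v
    refine le_trans (le_of_eq (Finset.sum_congr rfl fun a _ => ?_)) (h.s1 v)
    rw [Nx_Dneg]
  · intro a
    refine le_trans (le_of_eq (Finset.sum_congr rfl fun v _ => ?_)) (h.s2 a)
    rw [Nx_Dneg]

theorem Tf_rs {ν σ : ℝ} {T : V → (V → κ) → ℝ} (h : Tf ν σ T) (t : κ) :
    Tf (Fintype.card κ * ν) (Fintype.card κ * σ) (fun v => rs v t (T v)) := by
  have hm : (0 : ℝ) ≤ Fintype.card κ := Nat.cast_nonneg _
  refine ⟨?_, ?_, ?_, ?_⟩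
  · intro v
    exact (nm_rs_le v t (T v)).trans (mul_le_mul_of_nonneg_left (h.n1 v) hm)
  · intro a
    refine le_trans (Finset.sum_le_sum fun v _ => pow_le_pow_left₀ (nm_nonneg _) (Nx_D a v t (T v)) 2) ?_
    simp only [mul_pow]
    rw [← Finset.mul_sum]
    exact mul_le_mul_of_nonneg_left (h.n2 a) (sq_nonneg _)
  · intro v
    refine le_trans (Finset.sum_le_sum fun a _ => Nx_D a v t (T v)) ?_
    rw [← Finset.mul_sum]
    exact mul_le_mul_of_nonneg_left (h.s1 v) hm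
  · intro a
    refine le_trans (Finset.sum_le_sum fun v _ => Nx_D a v t (T v)) ?_
    rw [← Finset.mul_sum]
    exact mul_le_mul_of_nonneg_left (h.s2 a) hm

private theorem Nx_FF (x y : V → (V → κ) → ℝ) (t t' : κ) (v : V) :
    FF P K x y t t' v = ((ap P K x v + -(AA P K x y v * ap P 1 (om t') v)) +
      -(ap P 1 (fun w => om t' w * AA P K y x w) v)) +
      ∑ w, (P v w * (ce v w t t' (AA P K x y v) + ce v w t t' (AA P K y x w))) • (1 + om t' w) := by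
  funext χ
  simp only [Pi.add_apply, Pi.neg_apply, Pi.mul_apply, Finset.sum_apply, Pi.smul_apply, smul_eq_mul, Pi.one_apply]
  unfold FF muu
  have h1 : (fun w χ => om t' w χ * AA P K y x w χ) = (fun w => om t' w * AA P K y x w) := rfl
  rw [h1]
  ring

private theorem Nx_om_dg (t : κ) (v : V) : om t v ∈ Dg V κ 1 := Dg_loc {v} (by simp) (om_loc t v)

private theorem Nx_dg {d : ℕ} {x y : V → (V → κ) → ℝ} (hx : ∀ v, x v ∈ Dg V κ d) (hy : ∀ v, y v ∈ Dg V κ d)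
    (t t' : κ) (v : V) : nx P K x y t t' v ∈ Dg V κ (d + 1) := by
  unfold nx
  refine Dg_rs v t ?_
  rw [Nx_FF]
  refine Submodule.add_mem _ (Submodule.add_mem _ (Submodule.add_mem _ ?_ (Submodule.neg_mem _ ?_)) (Submodule.neg_mem _ ?_)) ?_
  · exact Dg_mono (Nat.le_succ d) (Dg_ap K x v hx)
  · exact Dg_mul (Dg_AA x y v hx hy) (Dg_ap 1 (om t') v fun u => Nx_om_dg t' u)
  · refine Dg_ap 1 _ v fun u => ?_
    rw [Nat.add_comm]
    exact Dg_mul (Nx_om_dg t' u) (Dg_AA y x u hy hx)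
  · refine Submodule.sum_mem _ fun w _ => Submodule.smul_mem _ _ (Submodule.add_mem _ ?_ ?_)
    · exact Dg_const (d + 1) 1
    · exact Dg_mono (Nat.le_add_left 1 d) (Nx_om_dg t' w)

private theorem Nx_num1 (m k ν δ e σ : ℝ) (hm : 1 ≤ m) (hk : 1 ≤ k) (hν : 0 ≤ ν) (hδ : 0 ≤ δ) (he : 0 ≤ e) (hσ : 0 ≤ σ) :
    m * (((e * σ + 4 * (20 * m) ^ 4 * m * (k * ν) * δ) + 10 * m * (k * ν) * δ) + 6 * m ^ 2 * (k * ν) * δ) ≤
      (20 * m) ^ 6 * k ^ 2 * (ν * δ + e * σ) := by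
  have hm2 : 1 ≤ m ^ 2 := one_le_pow₀ hm
  have h6 : m ≤ m ^ 6 := le_self_pow₀ hm (by norm_num)
  have h62 : m ^ 2 ≤ m ^ 6 := pow_le_pow_right₀ hm (by norm_num)
  have h63 : m ^ 3 ≤ m ^ 6 := pow_le_pow_right₀ hm (by norm_num)
  have hm6 : 0 ≤ m ^ 6 := by positivity
  have hk2 : k ≤ k ^ 2 := le_self_pow₀ hk (by norm_num)
  have hk1 : 1 ≤ k ^ 2 := one_le_pow₀ hk
  have hνδ : 0 ≤ ν * δ := mul_nonneg hν hδ
  have heσ : 0 ≤ e * σ := mul_nonneg he hσ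
  have e1 : m * (((e * σ + 4 * (20 * m) ^ 4 * m * (k * ν) * δ) + 10 * m * (k * ν) * δ) + 6 * m ^ 2 * (k * ν) * δ) =
      m * (e * σ) + (640000 * m ^ 6 + 10 * m ^ 2 + 6 * m ^ 3) * k * (ν * δ) := by ring
  have e2 : (20 * m) ^ 6 * k ^ 2 * (ν * δ + e * σ) = 64000000 * m ^ 6 * k ^ 2 * (e * σ) + 64000000 * m ^ 6 * k ^ 2 * (ν * δ) := by
    ring
  rw [e1, e2]
  refine add_le_add ?_ ?_
  · refine mul_le_mul_of_nonneg_right ?_ heσ
    have : m ^ 6 * 1 ≤ m ^ 6 * k ^ 2 := mul_le_mul_of_nonneg_left hk1 hm6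
    nlinarith
  · refine mul_le_mul_of_nonneg_right ?_ hνδ
    refine mul_le_mul (by nlinarith) hk2 (by linarith) (by positivity)

private theorem Nx_num2 (m k ν σ : ℝ) (hm : 1 ≤ m) (hk : 1 ≤ k) (hν : 0 ≤ ν) (hσ : 0 ≤ σ) :
    m * (((σ + 4 * (20 * m) ^ 4 * m * (k * σ + k * ν)) + 2 * m * (k * σ + k * ν)) + 6 * m ^ 2 * (k * ν)) ≤
      (20 * m) ^ 6 * k ^ 2 * (σ + ν) := by
  have h6 : m ≤ m ^ 6 := le_self_pow₀ hm (by norm_num)
  have h62 : m ^ 2 ≤ m ^ 6 := pow_le_pow_right₀ hm (by norm_num)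
  have h63 : m ^ 3 ≤ m ^ 6 := pow_le_pow_right₀ hm (by norm_num)
  have hm6 : 0 ≤ m ^ 6 := by positivity
  have hk2 : k ≤ k ^ 2 := le_self_pow₀ hk (by norm_num)
  have e1 : m * (((σ + 4 * (20 * m) ^ 4 * m * (k * σ + k * ν)) + 2 * m * (k * σ + k * ν)) + 6 * m ^ 2 * (k * ν)) =
      (m + (640000 * m ^ 6 + 2 * m ^ 2) * k) * σ + (640000 * m ^ 6 + 2 * m ^ 2 + 6 * m ^ 3) * k * ν := by ring
  have e2 : (20 * m) ^ 6 * k ^ 2 * (σ + ν) = (64000000 * m ^ 6 * k ^ 2) * σ + 64000000 * m ^ 6 * k ^ 2 * ν := by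
    ring
  rw [e1, e2]
  refine add_le_add ?_ ?_
  · refine mul_le_mul_of_nonneg_right ?_ hσ
    have h1 : m ≤ m ^ 6 * k := by nlinarith
    have h2 : (640000 * m ^ 6 + 2 * m ^ 2) * k ≤ (640002 * m ^ 6) * k := mul_le_mul_of_nonneg_right (by linarith) (by linarith)
    have h3 : m ^ 6 * k ≤ m ^ 6 * k ^ 2 := mul_le_mul_of_nonneg_left hk2 hm6
    nlinarith
  · refine mul_le_mul_of_nonneg_right ?_ hν
    refine mul_le_mul (by nlinarith) hk2 (by linarith) (by positivity)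

theorem nx_bf (hP : PP P K δ e) {d : ℕ} (hd : d ≤ 6) {ν σ : ℝ} (hν : 0 ≤ ν) (hσ : 0 ≤ σ) {x y : V → (V → κ) → ℝ}
    (hx : Bf d ν σ x) (hy : Bf d ν σ y) (t t' : κ) :
    Bf (d + 1) (Gam κ K * (ν * δ + e * σ)) (Gam κ K * (σ + ν)) (nx P K x y t t') := by
  have hd7 : d ≤ 7 := by omega
  have hK : (1 : ℝ) ≤ (K : ℝ) := by exact_mod_cast hP.K1
  have hm : (1 : ℝ) ≤ (Fintype.card κ : ℝ) := by exact_mod_cast Fintype.card_pos (α := κ)
  have hm0 : (0 : ℝ) ≤ (Fintype.card κ : ℝ) := by linarith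
  have hKν : 0 ≤ (K : ℝ) * ν := mul_nonneg (by linarith) hν
  have hKσ : 0 ≤ (K : ℝ) * σ := mul_nonneg (by linarith) hσ
  have hδ := hP.d0
  have he := hP.e0
  have hA := ha hP hd7 hν hσ hx hy
  have hB := ha hP hd7 hν hσ hy hx
  have h1 := t1 hP hν hσ hx
  have h2 := Tf_neg (t2 hP hd7 hKν hKσ hA t')
  have h3 : Tf (10 * Fintype.card κ * (K * ν) * δ) (2 * Fintype.card κ * (K * σ + K * ν))
      (fun v => ap P 1 (fun w => om t' w * AA P K y x w) v) := by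
    refine ⟨fun v => ?_, fun a => t3b hP hd7 hKν hKσ hB t' a, fun v => t3s1 hP hKν hKσ hB t' v,
      fun a => t3s2 hP hKν hKσ hB t' a⟩
    refine (t3a hP hd7 hKν hKσ hB t' v).trans ?_
    have : 0 ≤ (Fintype.card κ : ℝ) * (K * ν) * δ := mul_nonneg (mul_nonneg hm0 hKν) hδ
    nlinarith
  have h3' := Tf_neg h3
  have h4 := t4 hP hd7 hKν hKσ hA hB t t'
  have n1 : 0 ≤ e * σ := mul_nonneg he hσ
  have n2 : 0 ≤ 4 * (20 * (Fintype.card κ : ℝ)) ^ 4 * Fintype.card κ * (K * ν) * δ := by positivity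
  have n3 : 0 ≤ 10 * (Fintype.card κ : ℝ) * (K * ν) * δ := by positivity
  have n4 : 0 ≤ 6 * (Fintype.card κ : ℝ) ^ 2 * (K * ν) * δ := by positivity
  have h5 := Tf_rs (Tf_add (add_nonneg (add_nonneg n1 n2) n3) n4 (Tf_add (add_nonneg n1 n2) n3 (Tf_add n1 n2 h1 h2) h3') h4) t
  have hn : (fun v => rs v t (FF P K x y t t' v)) = nx P K x y t t' := rfl
  have h6 : ∀ v, rs v t (((ap P K x v + -(AA P K x y v * ap P 1 (om t') v)) +
      -(ap P 1 (fun w => om t' w * AA P K y x w) v)) +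
      ∑ w, (P v w * (ce v w t t' (AA P K x y v) + ce v w t t' (AA P K y x w))) • (1 + om t' w)) = nx P K x y t t' v := by
    intro v
    rw [← Nx_FF]
    rfl
  have q1 : Fintype.card κ * (((e * σ + 4 * (20 * (Fintype.card κ : ℝ)) ^ 4 * Fintype.card κ * (K * ν) * δ) +
      10 * Fintype.card κ * (K * ν) * δ) + 6 * (Fintype.card κ : ℝ) ^ 2 * (K * ν) * δ) ≤ Gam κ K * (ν * δ + e * σ) :=
    Nx_num1 (Fintype.card κ) K ν δ e σ hm hK hν hδ he hσ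
  have q2 : Fintype.card κ * (((σ + 4 * (20 * (Fintype.card κ : ℝ)) ^ 4 * Fintype.card κ * (K * σ + K * ν)) +
      2 * Fintype.card κ * (K * σ + K * ν)) + 6 * (Fintype.card κ : ℝ) ^ 2 * (K * ν)) ≤ Gam κ K * (σ + ν) :=
    Nx_num2 (Fintype.card κ) K ν σ hm hK hν hσ
  have q0 : 0 ≤ Fintype.card κ * (((e * σ + 4 * (20 * (Fintype.card κ : ℝ)) ^ 4 * Fintype.card κ * (K * ν) * δ) +
      10 * Fintype.card κ * (K * ν) * δ) + 6 * (Fintype.card κ : ℝ) ^ 2 * (K * ν) * δ) :=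
    mul_nonneg hm0 (add_nonneg (add_nonneg (add_nonneg n1 n2) n3) n4)
  refine ⟨fun v s => nx_own x y t t' v s, fun v => nx_mean hP x y t t' v (hx.own v) (hx.mean v),
    fun v => Nx_dg hx.dg hy.dg t t' v, fun v => ?_, fun a => ?_, fun v => ?_, fun a => ?_⟩
  · have := h5.n1 v
    rw [h6 v] at this
    exact this.trans q1
  · have := h5.n2 a
    simp only [h6] at this
    exact this.trans (pow_le_pow_left₀ q0 q1 2)
  · have := h5.s1 v
    simp only [h6] at this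
    exact this.trans q2
  · have := h5.s2 a
    simp only [h6] at this
    exact this.trans q2

end

end Pool.Agent.H33.LN
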