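import Pool.Agent.H33.LN.HDefs

/-!
Row LNH_Op: rules for `av`, `Dv`, `nm`, `rs`.  `F + G`, `c • F`, `F * G`, `∑` are the pointwise operations.
PROOFS. All by unfolding (`av` is a finite average over `Function.update`, use `Function.update_comm`, `Function.update_idem`,
`Function.update_eq_self`) and `ex_av` (H12/LN/Mcd). `ex_av_mul`: average the product over the coordinate `a`; `av a F` does not depend on it.
`nm`: `nm F ^ 2 = ex (F ^ 2)`; Cauchy-Schwarz `Finset.sum_mul_sq_le_sq_mul_sq`; triangle inequality from it (or `Real.add_pow_le_pow..`, or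
`abs_le_of_sq_le_sq`). `nm_pyth`: `ex_av_mul`. `nm_av_le`, `nm_Dv_le` from `nm_pyth`. `nm_rs_sum`: `ex_av` for `F ^ 2`: `ex F = (1/m) ∑ t, ex (rs a t F)`.
-/

set_option autoImplicit false
set_option linter.unusedSectionVars false

namespace Pool.Agent.H33.LN

open Finset Classical
open Pool.Agent.H65.GI
open Pool.Agent.H12.LN

section
variable {I κ : Type} [Fintype I] [Fintype κ] [Nonempty κ]


private theorem Op_card : (Fintype.card κ : ℝ) ≠ 0 := by
  have : 0 < Fintype.card κ := Fintype.card_pos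
  positivity

private theorem Op_const (c : ℝ) : (∑ _k : κ, c) / (Fintype.card κ : ℝ) = c := by
  rw [Finset.sum_const, Finset.card_univ, nsmul_eq_mul, mul_comm, mul_div_assoc, div_self Op_card, mul_one]

private theorem Op_inv (a : I) (g : (I → κ) → ℝ) (hg : av a g = g) (ω : I → κ) (k : κ) :
    g (Function.update ω a k) = g ω := by
  rw [← hg]
  unfold av
  simp only [Function.update_idem]

private theorem Op_Dv (a : I) (F : (I → κ) → ℝ) : Dv a F = F - av a F := rfl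

private theorem Op_ex_sub {Ω : Type} [Fintype Ω] (F G : Ω → ℝ) : ex (F - G) = ex F - ex G := by
  unfold ex
  simp only [Pi.sub_apply, Finset.sum_sub_distrib, sub_div]

private theorem Op_sqn {Ω : Type} [Fintype Ω] (F : Ω → ℝ) : 0 ≤ ex (fun ω => F ω ^ 2) := by
  unfold ex
  exact div_nonneg (Finset.sum_nonneg fun _ _ => sq_nonneg _) (Nat.cast_nonneg _)

/-! ### `av` -/

theorem av_add (a : I) (F G : (I → κ) → ℝ) : av a (F + G) = av a F + av a G := by
  funext ω
  simp only [av, Pi.add_apply, Finset.sum_add_distrib, add_div]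

theorem av_smul (a : I) (c : ℝ) (F : (I → κ) → ℝ) : av a (c • F) = c • av a F := by
  funext ω
  simp only [av, Pi.smul_apply, smul_eq_mul, ← Finset.mul_sum, mul_div_assoc]

theorem av_sub (a : I) (F G : (I → κ) → ℝ) : av a (F - G) = av a F - av a G := by
  funext ω
  simp only [av, Pi.sub_apply, Finset.sum_sub_distrib, sub_div]

theorem av_sum {ι : Type} (a : I) (J : Finset ι) (F : ι → (I → κ) → ℝ) : av a (∑ j ∈ J, F j) = ∑ j ∈ J, av a (F j) := by
  funext ω
  simp only [av, Finset.sum_apply]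
  rw [Finset.sum_comm, Finset.sum_div]

theorem av_comm (a b : I) (F : (I → κ) → ℝ) : av a (av b F) = av b (av a F) := by
  by_cases h : a = b
  · rw [h]
  · funext ω
    simp only [av]
    rw [← Finset.sum_div, ← Finset.sum_div, Finset.sum_comm]
    congr 2
    refine Finset.sum_congr rfl fun l _ => Finset.sum_congr rfl fun k _ => ?_
    rw [Function.update_comm h]

theorem av_idem (a : I) (F : (I → κ) → ℝ) : av a (av a F) = av a F := by
  funext ω
  simp only [av, Function.update_idem]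
  exact Op_const _

theorem av_loc (a : I) (F : (I → κ) → ℝ) (S : Finset I) (h : Loc F S) (ha : a ∉ S) : av a F = F := by
  funext ω
  have h1 : ∀ k, F (Function.update ω a k) = F ω := fun k => h _ _ fun i hi => by
    have h2 : i ≠ a := fun h3 => ha (h3 ▸ hi)
    rw [Function.update_of_ne h2]
  simp only [av, h1]
  exact Op_const _

theorem loc_av (a : I) (F : (I → κ) → ℝ) (S : Finset I) (h : Loc F S) : Loc (av a F) (S.erase a) := by
  intro ω ω' hω
  simp only [av]
  congr 1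
  refine Finset.sum_congr rfl fun k _ => h _ _ fun i hi => ?_
  by_cases h2 : i = a
  · subst h2
    rw [Function.update_self, Function.update_self]
  · rw [Function.update_of_ne h2, Function.update_of_ne h2]
    exact hω i (Finset.mem_erase.2 ⟨h2, hi⟩)

/-- `g` does not depend on the coordinate `a`. -/
theorem av_mul_loc (a : I) (g F : (I → κ) → ℝ) (hg : av a g = g) : av a (g * F) = g * av a F := by
  funext ω
  have h1 := Op_inv a g hg ω
  simp only [av, Pi.mul_apply, h1, ← Finset.mul_sum, mul_div_assoc]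

theorem ex_av_mul (a : I) (F G : (I → κ) → ℝ) : ex (av a F * G) = ex (av a F * av a G) := by
  rw [← ex_av a (av a F * G), av_mul_loc a (av a F) G (av_idem a F)]

/-! ### `Dv` -/

theorem Dv_add (a : I) (F G : (I → κ) → ℝ) : Dv a (F + G) = Dv a F + Dv a G := by
  rw [Op_Dv, Op_Dv, Op_Dv, av_add]
  abel

theorem Dv_sub (a : I) (F G : (I → κ) → ℝ) : Dv a (F - G) = Dv a F - Dv a G := by
  rw [Op_Dv, Op_Dv, Op_Dv, av_sub]
  abel

theorem Dv_smul (a : I) (c : ℝ) (F : (I → κ) → ℝ) : Dv a (c • F) = c • Dv a F := by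
  rw [Op_Dv, Op_Dv, av_smul, smul_sub]

theorem Dv_sum {ι : Type} (a : I) (J : Finset ι) (F : ι → (I → κ) → ℝ) : Dv a (∑ j ∈ J, F j) = ∑ j ∈ J, Dv a (F j) := by
  rw [Op_Dv, av_sum, ← Finset.sum_sub_distrib]
  rfl

theorem Dv_av (a b : I) (F : (I → κ) → ℝ) : Dv a (av b F) = av b (Dv a F) := by
  rw [Op_Dv, Op_Dv, av_sub, av_comm]

theorem Dv_comm (a b : I) (F : (I → κ) → ℝ) : Dv a (Dv b F) = Dv b (Dv a F) := by
  rw [Op_Dv b F, Dv_sub, Dv_av]
  rfl

theorem av_Dv_self (a : I) (F : (I → κ) → ℝ) : av a (Dv a F) = 0 := by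
  rw [Op_Dv, av_sub, av_idem, sub_self]

theorem Dv_av_self (a : I) (F : (I → κ) → ℝ) : Dv a (av a F) = 0 := by
  rw [Op_Dv, av_idem, sub_self]

theorem Dv_loc (a : I) (F : (I → κ) → ℝ) (S : Finset I) (h : Loc F S) (ha : a ∉ S) : Dv a F = 0 := by
  rw [Op_Dv, av_loc a F S h ha, sub_self]

theorem Dv_mul_loc (a : I) (g F : (I → κ) → ℝ) (hg : av a g = g) : Dv a (g * F) = g * Dv a F := by
  rw [Op_Dv, Op_Dv, av_mul_loc a g F hg, mul_sub]

theorem ex_Dv (a : I) (F : (I → κ) → ℝ) : ex (Dv a F) = 0 := by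
  rw [Op_Dv, Op_ex_sub, ex_av, sub_self]

/-! ### `nm` -/

variable {Ω : Type} [Fintype Ω]

theorem nm_nonneg (F : Ω → ℝ) : 0 ≤ nm F := by
  exact Real.sqrt_nonneg _

theorem nm_sq (F : Ω → ℝ) : nm F ^ 2 = ex (fun ω => F ω ^ 2) := by
  exact Real.sq_sqrt (Op_sqn F)

theorem nm_zero : nm (0 : Ω → ℝ) = 0 := by
  simp [nm, ex]

theorem nm_neg (F : Ω → ℝ) : nm (-F) = nm F := by
  simp [nm]

theorem nm_smul (c : ℝ) (F : Ω → ℝ) : nm (c • F) = |c| * nm F := by
  have h1 : ex (fun ω => (c • F) ω ^ 2) = c ^ 2 * ex (fun ω => F ω ^ 2) := by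
    unfold ex
    simp only [Pi.smul_apply, smul_eq_mul, mul_pow, ← Finset.mul_sum, mul_div_assoc]
  unfold nm
  rw [h1, Real.sqrt_mul (sq_nonneg c), Real.sqrt_sq_eq_abs]

theorem ex_mul_le (F G : Ω → ℝ) : |ex (F * G)| ≤ nm F * nm G := by
  refine abs_le_of_sq_le_sq ?_ (mul_nonneg (nm_nonneg F) (nm_nonneg G))
  rw [mul_pow, nm_sq, nm_sq]
  unfold ex
  rw [div_pow, div_mul_div_comm, ← pow_two]
  refine div_le_div_of_nonneg_right ?_ (sq_nonneg _)
  exact Finset.sum_mul_sq_le_sq_mul_sq _ _ _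

theorem nm_add_le (F G : Ω → ℝ) : nm (F + G) ≤ nm F + nm G := by
  have h1 : ex (fun ω => (F + G) ω ^ 2) = nm F ^ 2 + 2 * ex (F * G) + nm G ^ 2 := by
    rw [nm_sq, nm_sq]
    unfold ex
    simp only [Pi.add_apply, Pi.mul_apply]
    rw [← mul_div_assoc, ← add_div, ← add_div, Finset.mul_sum, ← Finset.sum_add_distrib, ← Finset.sum_add_distrib]
    congr 1
    exact Finset.sum_congr rfl fun ω _ => by ring
  refine Real.sqrt_le_iff.2 ⟨add_nonneg (nm_nonneg F) (nm_nonneg G), ?_⟩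
  rw [h1]
  have h2 := (abs_le.1 (ex_mul_le F G)).2
  nlinarith

theorem nm_sub_le (F G : Ω → ℝ) : nm (F - G) ≤ nm F + nm G := by
  rw [sub_eq_add_neg, ← nm_neg G]
  exact nm_add_le F (-G)

theorem nm_sum_le {ι : Type} (J : Finset ι) (F : ι → Ω → ℝ) : nm (∑ j ∈ J, F j) ≤ ∑ j ∈ J, nm (F j) := by
  induction J using Finset.induction_on with
  | empty => simp [nm_zero]
  | insert j J hj ih =>
    rw [Finset.sum_insert hj, Finset.sum_insert hj]
    exact (nm_add_le _ _).trans (add_le_add_right ih _)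

theorem nm_mono (F G : Ω → ℝ) (h : ∀ ω, |F ω| ≤ |G ω|) : nm F ≤ nm G := by
  refine Real.sqrt_le_sqrt ?_
  exact ex_mono fun ω => sq_le_sq.2 (h ω)

theorem nm_le_of [Nonempty Ω] (F : Ω → ℝ) (c : ℝ) (h : ∀ ω, |F ω| ≤ c) : nm F ≤ c := by
  have hc : 0 ≤ c := (abs_nonneg _).trans (h (Classical.arbitrary Ω))
  refine Real.sqrt_le_iff.2 ⟨hc, ?_⟩
  have h1 : ex (fun ω => F ω ^ 2) ≤ ex (fun _ : Ω => c ^ 2) := ex_mono fun ω => by
    rw [← sq_abs (F ω)]
    exact pow_le_pow_left₀ (abs_nonneg _) (h ω) 2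
  rw [ex_const] at h1
  exact h1

theorem nm_mul_le_of (g F : Ω → ℝ) (c : ℝ) (hc : 0 ≤ c) (h : ∀ ω, |g ω| ≤ c) : nm (g * F) ≤ c * nm F := by
  have h1 : nm (g * F) ≤ nm (c • F) := nm_mono _ _ fun ω => by
    rw [Pi.mul_apply, Pi.smul_apply, smul_eq_mul, abs_mul, abs_mul, abs_of_nonneg hc]
    exact mul_le_mul_of_nonneg_right (h ω) (abs_nonneg _)
  rw [nm_smul, abs_of_nonneg hc] at h1
  exact h1

theorem ex_abs_le_nm [Nonempty Ω] (F : Ω → ℝ) : |ex F| ≤ nm F := by
  have h1 := ex_mul_le F 1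
  rw [mul_one] at h1
  refine h1.trans ?_
  have h2 : nm (1 : Ω → ℝ) ≤ 1 := nm_le_of _ 1 fun ω => by simp
  calc nm F * nm 1 ≤ nm F * 1 := mul_le_mul_of_nonneg_left h2 (nm_nonneg F)
    _ = nm F := mul_one _

theorem nm_pyth (a : I) (F : (I → κ) → ℝ) : nm F ^ 2 = nm (av a F) ^ 2 + nm (Dv a F) ^ 2 := by
  have h0 : ex (av a F * Dv a F) = 0 := by
    rw [ex_av_mul, av_Dv_self, mul_zero]
    simp [ex]
  have h1 : ex (fun ω => F ω ^ 2) = ex (fun ω => av a F ω ^ 2) + 2 * ex (av a F * Dv a F) + ex (fun ω => Dv a F ω ^ 2) := by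
    unfold ex
    rw [← mul_div_assoc, ← add_div, ← add_div, Finset.mul_sum, ← Finset.sum_add_distrib, ← Finset.sum_add_distrib]
    congr 1
    refine Finset.sum_congr rfl fun ω _ => ?_
    simp only [Pi.mul_apply, Dv]
    ring
  rw [nm_sq, nm_sq, nm_sq, h1, h0]
  ring

theorem nm_av_le (a : I) (F : (I → κ) → ℝ) : nm (av a F) ≤ nm F := by
  refine (abs_le_of_sq_le_sq' ?_ (nm_nonneg F)).2
  rw [nm_pyth a F]
  nlinarith [sq_nonneg (nm (Dv a F))]

theorem nm_Dv_le (a : I) (F : (I → κ) → ℝ) : nm (Dv a F) ≤ nm F := by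
  refine (abs_le_of_sq_le_sq' ?_ (nm_nonneg F)).2
  rw [nm_pyth a F]
  nlinarith [sq_nonneg (nm (av a F))]

/-! ### `rs` -/

theorem rs_rs (a : I) (s t : κ) (F : (I → κ) → ℝ) : rs a s (rs a t F) = rs a t F := by
  funext ω
  simp only [rs, Function.update_idem]

theorem rs_comm {a b : I} (h : a ≠ b) (s t : κ) (F : (I → κ) → ℝ) : rs a s (rs b t F) = rs b t (rs a s F) := by
  funext ω
  simp only [rs]
  rw [Function.update_comm h]

theorem av_rs_self (a : I) (t : κ) (F : (I → κ) → ℝ) : av a (rs a t F) = rs a t F := by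
  funext ω
  simp only [av, rs, Function.update_idem]
  exact Op_const _

theorem rs_av_self (a : I) (t : κ) (F : (I → κ) → ℝ) : rs a t (av a F) = av a F := by
  funext ω
  simp only [av, rs, Function.update_idem]

theorem Dv_rs_self (a : I) (t : κ) (F : (I → κ) → ℝ) : Dv a (rs a t F) = 0 := by
  rw [Op_Dv, av_rs_self, sub_self]

theorem av_rs {a b : I} (h : a ≠ b) (t : κ) (F : (I → κ) → ℝ) : av a (rs b t F) = rs b t (av a F) := by
  funext ω
  simp only [av, rs]
  congr 1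
  exact Finset.sum_congr rfl fun k _ => by rw [Function.update_comm h]

theorem Dv_rs {a b : I} (h : a ≠ b) (t : κ) (F : (I → κ) → ℝ) : Dv a (rs b t F) = rs b t (Dv a F) := by
  rw [Op_Dv, Op_Dv, av_rs h]
  rfl

theorem ex_rs_sum (a : I) (F : (I → κ) → ℝ) : ∑ t : κ, ex (rs a t F) = Fintype.card κ * ex F := by
  have h1 : (∑ t : κ, ex (rs a t F)) = Fintype.card κ * ex (av a F) := by
    unfold ex
    simp only [rs, av]
    rw [← Finset.sum_div, Finset.sum_comm, ← Finset.sum_div, ← mul_div_assoc, mul_div_cancel₀ _ Op_card]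
  rw [h1, ex_av]

theorem nm_rs_sum (a : I) (F : (I → κ) → ℝ) : ∑ t : κ, nm (rs a t F) ^ 2 = Fintype.card κ * nm F ^ 2 := by
  have h1 := ex_rs_sum a (fun ω => F ω ^ 2)
  simp only [nm_sq]
  exact h1

theorem nm_rs_sq (a : I) (t : κ) (F : (I → κ) → ℝ) : nm (rs a t F) ^ 2 ≤ Fintype.card κ * nm F ^ 2 := by
  rw [← nm_rs_sum a F]
  exact Finset.single_le_sum (f := fun t => nm (rs a t F) ^ 2) (fun t _ => sq_nonneg _) (Finset.mem_univ t)

theorem nm_rs_le (a : I) (t : κ) (F : (I → κ) → ℝ) : nm (rs a t F) ≤ Fintype.card κ * nm F := by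
  have h0 : (1 : ℝ) ≤ Fintype.card κ := by exact_mod_cast Fintype.card_pos (α := κ)
  refine (abs_le_of_sq_le_sq' ?_ (mul_nonneg (by linarith) (nm_nonneg F))).2
  refine (nm_rs_sq a t F).trans ?_
  rw [mul_pow]
  refine mul_le_mul_of_nonneg_right ?_ (sq_nonneg _)
  nlinarith

end

end Pool.Agent.H33.LN
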